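import Mathlib

set_option autoImplicit false

/-! The action of matrices on tensors with `d` slots and values in `R ^ μ`. -/

namespace Pool.Agent.H71.MB

open Finset

/-- Coefficient arrays of the elements of `(R ^ ι) ^ ⊗ d ⊗ R ^ μ`. -/
abbrev Ten (ι : Type*) (d : ℕ) (μ : Type*) (R : Type*) := (Fin d → ι) × μ → R

section

variable {R S : Type*} [CommRing R] [CommRing S] {ι κ τ μ : Type*} [Fintype κ]
  [Fintype τ] {d : ℕ}

/-- `A ⊗ ... ⊗ A ⊗ id` applied to `T`. -/
def act (A : Matrix ι κ R) (T : Ten κ d μ R) : Ten ι d μ R :=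
  fun x => ∑ y : Fin d → κ, (∏ s, A (x.1 s) (y s)) * T (y, x.2)

theorem act_apply (A : Matrix ι κ R) (T : Ten κ d μ R) (x : (Fin d → ι) × μ) :
    act A T x = ∑ y : Fin d → κ, (∏ s, A (x.1 s) (y s)) * T (y, x.2) := rfl

theorem act_act (A : Matrix ι κ R) (B : Matrix κ τ R) (T : Ten τ d μ R) :
    act A (act B T) = act (A * B) T := by
  classical
  funext x
  simp only [act_apply, Matrix.mul_apply]
  have h : ∀ z : Fin d → τ, (∏ s, ∑ j, A (x.1 s) j * B j (z s)) =
      ∑ y : Fin d → κ, ∏ s, (A (x.1 s) (y s) * B (y s) (z s)) := by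
    intro z
    rw [Finset.prod_univ_sum]
    simp [Fintype.piFinset_univ]
  simp only [h, Finset.mul_sum, Finset.sum_mul]
  rw [Finset.sum_comm]
  refine Finset.sum_congr rfl fun z _ => Finset.sum_congr rfl fun y _ => ?_
  rw [Finset.prod_mul_distrib]
  ring

theorem act_add (A : Matrix ι κ R) (T T' : Ten κ d μ R) : act A (T + T') = act A T + act A T' := by
  funext x
  simp [act_apply, mul_add, Finset.sum_add_distrib]

theorem act_smul (A : Matrix ι κ R) (c : R) (T : Ten κ d μ R) : act A (c • T) = c • act A T := by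
  funext x
  simp only [act_apply, Pi.smul_apply, smul_eq_mul, Finset.mul_sum]
  exact Finset.sum_congr rfl fun y _ => by ring

/-- `act A` as a linear map. -/
def actL (A : Matrix ι κ R) : Ten κ d μ R →ₗ[R] Ten ι d μ R where
  toFun := act A
  map_add' := act_add A
  map_smul' := act_smul A

@[simp] theorem actL_apply (A : Matrix ι κ R) (T : Ten κ d μ R) : actL A T = act A T := rfl

theorem act_diagonal [DecidableEq κ] (t : κ → R) (T : Ten κ d μ R) (x : (Fin d → κ) × μ) :
    act (Matrix.diagonal t) T x = (∏ s, t (x.1 s)) * T x := by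
  rw [act_apply, Finset.sum_eq_single x.1]
  · simp
  · intro y _ hy
    obtain ⟨s, hs⟩ := Function.ne_iff.1 hy
    have : Matrix.diagonal t (x.1 s) (y s) = 0 := Matrix.diagonal_apply_ne _ (fun h => hs h.symm)
    rw [Finset.prod_eq_zero (Finset.mem_univ s) this, zero_mul]
  · intro h
    exact absurd (Finset.mem_univ _) h

theorem act_one [DecidableEq κ] (T : Ten κ d μ R) : act (1 : Matrix κ κ R) T = T := by
  funext x
  rw [← Matrix.diagonal_one, act_diagonal]
  simp

theorem act_map (φ : R →+* S) (A : Matrix ι κ R) (T : Ten κ d μ R) (x : (Fin d → ι) × μ) :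
    φ (act A T x) = act (A.map φ) (fun y => φ (T y)) x := by
  simp [act_apply, map_sum, map_prod]

/-- The matrix `A` respects the colours. -/
def IsBlock {γ : Type*} (c : ι → γ) (c' : κ → γ) (A : Matrix ι κ R) : Prop :=
  ∀ i j, c i ≠ c' j → A i j = 0

end

section Bounds

variable {ι κ μ : Type*} [Fintype κ] {d : ℕ}

theorem abs_act_le (A : Matrix ι κ ℝ) (T : Ten κ d μ ℝ) (a : ι → ℝ) (M : ℝ)
    (ha : ∀ i j, |A i j| ≤ a i) (hT : ∀ y, |T y| ≤ M) (x : (Fin d → ι) × μ) :
    |act A T x| ≤ (Fintype.card κ : ℝ) ^ d * (∏ s, a (x.1 s)) * M := by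
  classical
  have h : |act A T x| ≤ ∑ _y : Fin d → κ, (∏ s, a (x.1 s)) * M := by
    rw [act_apply]
    refine (Finset.abs_sum_le_sum_abs _ _).trans (Finset.sum_le_sum fun y _ => ?_)
    rw [abs_mul, Finset.abs_prod]
    exact mul_le_mul (Finset.prod_le_prod (fun s _ => abs_nonneg _) fun s _ => ha _ _) (hT _)
      (abs_nonneg _) (Finset.prod_nonneg fun s _ => (abs_nonneg _).trans (ha (x.1 s) (y s)))
  refine h.trans ?_
  rw [Finset.sum_const, Finset.card_univ, Fintype.card_fun, Fintype.card_fin, nsmul_eq_mul]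
  push_cast
  rw [mul_assoc]

end Bounds

end Pool.Agent.H71.MB
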