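import Mathlib

set_option autoImplicit false

/-! Reduced bases of lattices (with some constants which depend on the rank only). -/

namespace Pool.Agent.H71.MB

open Finset

section Euclid

variable {E : Type*} [NormedAddCommGroup E] [InnerProductSpace ℝ E]

/-- A basis which is reduced up to the constant `C`. -/
structure IsRed (C : ℝ) {k : ℕ} (w : Fin k → E) : Prop where
  mono : ∀ i j, i ≤ j → ‖w i‖ ≤ C * ‖w j‖
  coef : ∀ (x : Fin k → ℝ) (j : Fin k), |x j| * ‖w j‖ ≤ C * ‖∑ i, x i • w i‖

theorem exists_shortest {k : ℕ} (v : Fin (k + 1) → E) (hv : LinearIndependent ℝ v) :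
    ∃ w ∈ Submodule.span ℤ (Set.range v), w ≠ 0 ∧
      ∀ x ∈ Submodule.span ℤ (Set.range v), x ≠ 0 → ‖w‖ ≤ ‖x‖ := by
  classical
  set f : (Fin (k + 1) → ℝ) →ₗ[ℝ] E := Fintype.linearCombination ℝ v with hf
  have hker : LinearMap.ker f = ⊥ := by
    rw [hf]
    exact LinearMap.ker_eq_bot.2 (linearIndependent_iff_injective_fintypeLinearCombination.1 hv)
  obtain ⟨K, hK, hanti⟩ := f.exists_antilipschitzWith hker
  have hb : ∀ x, ‖x‖ ≤ K * ‖f x‖ := fun x => by
    have := hanti.le_mul_dist x 0
    simpa using this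
  have hfz : ∀ z : Fin (k + 1) → ℤ, f (fun i => (z i : ℝ)) = ∑ i, z i • v i := fun z => by
    rw [hf, Fintype.linearCombination_apply]
    refine Finset.sum_congr rfl fun i _ => ?_
    rw [Int.cast_smul_eq_zsmul]
  set A : Set (Fin (k + 1) → ℤ) := {z | z ≠ 0 ∧ ‖∑ i, z i • v i‖ ≤ ‖v 0‖} with hA
  have hAf : A.Finite := by
    set ρ : ℤ := ⌈(K : ℝ) * ‖v 0‖⌉
    refine (Set.finite_Icc (fun _ : Fin (k + 1) => -ρ) (fun _ => ρ)).subset ?_
    rintro z ⟨_, hz⟩
    have h1 : ∀ i, |z i| ≤ ρ := by
      intro i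
      have h2 : |(z i : ℝ)| ≤ K * ‖v 0‖ := by
        have h3 := norm_le_pi_norm (fun i => (z i : ℝ)) i
        rw [Real.norm_eq_abs] at h3
        refine h3.trans ((hb _).trans ?_)
        rw [hfz]
        gcongr
      have h4 : ((|z i| : ℤ) : ℝ) ≤ (ρ : ℝ) := by
        rw [Int.cast_abs]
        exact h2.trans (Int.le_ceil _)
      exact_mod_cast h4
    exact ⟨fun i => (abs_le.1 (h1 i)).1, fun i => (abs_le.1 (h1 i)).2⟩
  have hAn : A.Nonempty := by
    refine ⟨Pi.single 0 1, ?_, ?_⟩
    · intro h
      have := congrFun h 0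
      simp at this
    · rw [Finset.sum_eq_single 0]
      · simp
      · intro i _ hi
        simp [hi]
      · simp
  obtain ⟨z, hz, hmin⟩ := Set.exists_min_image A (fun z => ‖∑ i, z i • v i‖) hAf hAn
  have hmem : ∀ z : Fin (k + 1) → ℤ, ∑ i, z i • v i ∈ Submodule.span ℤ (Set.range v) := fun z =>
    Submodule.sum_mem _ fun i _ => Submodule.smul_mem _ _ (Submodule.subset_span ⟨i, rfl⟩)
  refine ⟨∑ i, z i • v i, hmem z, ?_, ?_⟩
  · intro h0
    apply hz.1
    have h1 : f (fun i => (z i : ℝ)) = 0 := by rw [hfz, h0]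
    have h2 := LinearMap.ker_eq_bot'.1 hker _ h1
    funext i
    have := congrFun h2 i
    simpa using this
  · intro x hx hx0
    obtain ⟨y, rfl⟩ := (Submodule.mem_span_range_iff_exists_fun ℤ).1 hx
    by_cases hyA : ‖∑ i, y i • v i‖ ≤ ‖v 0‖
    · refine hmin y ⟨?_, hyA⟩
      rintro rfl
      simp at hx0
    · exact hz.2.trans (le_of_lt (not_le.1 hyA))

/-- The projection orthogonal to `w`. -/
noncomputable def proj (w : E) : E →ₗ[ℝ] E :=
  LinearMap.id - ((‖w‖ ^ 2)⁻¹ • (innerSL ℝ w).toLinearMap).smulRight w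

theorem proj_apply (w x : E) : proj w x = x - ((‖w‖ ^ 2)⁻¹ * inner ℝ w x) • w := by
  simp [proj]

theorem inner_proj (w x : E) : inner ℝ w (proj w x) = 0 := by
  by_cases hw : w = 0
  · simp [hw]
  have h : ‖w‖ ≠ 0 := norm_ne_zero_iff.2 hw
  rw [proj_apply, inner_sub_right, inner_smul_right, real_inner_self_eq_norm_sq]
  field_simp
  ring

theorem proj_self (w : E) : proj w w = 0 := by
  by_cases hw : w = 0
  · simp [hw, proj_apply]
  have h : ‖w‖ ≠ 0 := norm_ne_zero_iff.2 hw
  rw [proj_apply, real_inner_self_eq_norm_sq, inv_mul_cancel₀ (pow_ne_zero 2 h), one_smul, sub_self]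

theorem sum_smul_proj {k : ℕ} (w : E) (u : Fin k → E) (x : Fin k → ℝ) :
    ∑ i, x i • proj w (u i) = ∑ i, x i • u i - (∑ i, x i * ((‖w‖ ^ 2)⁻¹ * inner ℝ w (u i))) • w := by
  simp only [proj_apply, smul_sub, Finset.sum_sub_distrib, Finset.sum_smul, smul_smul]

/-- Every lattice has a reduced basis. -/
theorem exists_red (k : ℕ) : ∃ C : ℝ, 1 ≤ C ∧ ∀ v : Fin k → E, LinearIndependent ℝ v →
    ∃ w : Fin k → E, LinearIndependent ℝ w ∧
      Submodule.span ℤ (Set.range w) = Submodule.span ℤ (Set.range v) ∧ IsRed C w := by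
  induction k with
  | zero =>
    refine ⟨1, le_refl _, fun v hv => ⟨v, hv, rfl, fun i => i.elim0, fun x j => j.elim0⟩⟩
  | succ k ih =>
    obtain ⟨C, hC, ih⟩ := ih
    refine ⟨2 * (k + 1) * C, ?_, fun v hv => ?_⟩
    · have : (0 : ℝ) ≤ k := Nat.cast_nonneg k
      nlinarith
    obtain ⟨w0, hw0M, hw00, hmin⟩ := exists_shortest v hv
    set M := Submodule.span ℤ (Set.range v) with hM
    have hn0 : 0 < ‖w0‖ := norm_pos_iff.2 hw00
    -- the projected lattice
    set P : E →ₗ[ℤ] E := (proj w0).restrictScalars ℤ with hP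
    have hPa : ∀ x, P x = proj w0 x := fun x => rfl
    set M' := M.map P with hM'
    have hkerM : ∀ x ∈ M, P x = 0 → ∃ c : ℤ, x = c • w0 := by
      intro x hx hx0
      rw [hPa, proj_apply, sub_eq_zero] at hx0
      set t := (‖w0‖ ^ 2)⁻¹ * inner ℝ w0 x with ht
      refine ⟨round t, ?_⟩
      by_contra hne
      have h1 : x - round t • w0 ∈ M := Submodule.sub_mem _ hx (Submodule.smul_mem _ _ hw0M)
      have h2 := hmin _ h1 (sub_ne_zero.2 hne)
      have h3 : x - round t • w0 = (t - round t) • w0 := by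
        rw [sub_smul, ← hx0, Int.cast_smul_eq_zsmul]
      rw [h3, norm_smul, Real.norm_eq_abs] at h2
      have h4 := abs_sub_round t
      nlinarith
    have : Module.Finite ℤ M := Module.Finite.span_of_finite ℤ (Set.finite_range v)
    have : Module.Finite ℤ M' := by
      rw [hM']
      infer_instance
    have hTF : Module.IsTorsionFree ℤ E := Module.IsTorsionFree.of_smul_eq_zero fun c x h => by
      rw [← Int.cast_smul_eq_zsmul ℝ, smul_eq_zero] at h
      simpa using h
    have : Module.Free ℤ M' := inferInstance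
    obtain ⟨r, hr, ⟨p⟩⟩ : ∃ r, r = Module.finrank ℤ M' ∧ Nonempty (Module.Basis (Fin r) ℤ M') :=
      ⟨_, rfl, ⟨Module.finBasis ℤ M'⟩⟩
    have hlift : ∀ y : M', ∃ u ∈ M, P u = y := fun y => (Submodule.mem_map).1 y.2
    choose lft hlM hlP using hlift
    set u : Fin r → E := fun i => lft (p i) with hu
    -- `(w0, u)` generates `M`
    have hgen : ∀ (s : ℕ) (p' : Fin s → E) (u' : Fin s → E), (∀ i, u' i ∈ M) → (∀ i, P (u' i) = p' i) →
        Submodule.span ℤ (Set.range p') = M' →
        Submodule.span ℤ (Set.range (Fin.cons w0 u' : Fin (s + 1) → E)) = M := by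
      intro s p' u' hu' hPu hsp
      apply le_antisymm
      · rw [Submodule.span_le]
        rintro _ ⟨i, rfl⟩
        refine Fin.cases ?_ (fun i => ?_) i
        · simpa using hw0M
        · simpa using hu' i
      · intro x hx
        have h1 : P x ∈ Submodule.span ℤ (Set.range p') := by
          rw [hsp]
          exact Submodule.mem_map_of_mem hx
        obtain ⟨c, hc⟩ := (Submodule.mem_span_range_iff_exists_fun ℤ).1 h1
        have h2 : P (x - ∑ i, c i • u' i) = 0 := by
          rw [map_sub, map_sum, ← hc, sub_eq_zero]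
          exact Finset.sum_congr rfl fun i _ => by rw [map_smul, hPu]
        obtain ⟨c0, hc0⟩ := hkerM _ (Submodule.sub_mem _ hx
          (Submodule.sum_mem _ fun i _ => Submodule.smul_mem _ _ (hu' i))) h2
        refine (Submodule.mem_span_range_iff_exists_fun ℤ).2 ⟨Fin.cons c0 c, ?_⟩
        rw [Fin.sum_univ_succ]
        simp only [Fin.cons_zero, Fin.cons_succ]
        rw [← hc0]
        abel
    have hspanp : Submodule.span ℤ (Set.range fun i => (p i : E)) = M' := by
      have := congrArg (Submodule.map M'.subtype) p.span_eq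
      rw [Submodule.map_span, Submodule.map_top, Submodule.range_subtype, ← Set.range_comp] at this
      exact this
    have hspanz := hgen r (fun i => (p i : E)) u (fun i => hlM _) (fun i => hlP _) hspanp
    have hlinp : LinearIndependent ℤ fun i => (p i : E) := by
      have := p.linearIndependent.map' M'.subtype (Submodule.ker_subtype _)
      exact this
    have hlinz : LinearIndependent ℤ (Fin.cons w0 u : Fin (r + 1) → E) := by
      rw [Fintype.linearIndependent_iff]
      intro g hg
      rw [Fin.sum_univ_succ] at hg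
      simp only [Fin.cons_zero, Fin.cons_succ] at hg
      have h1 : ∑ i, g (Fin.succ i) • (p i : E) = 0 := by
        have h2 := congrArg P hg
        rw [map_add, map_smul, map_sum, map_zero, hPa w0, proj_self, smul_zero, zero_add] at h2
        rw [← h2]
        exact Finset.sum_congr rfl fun i _ => by rw [map_smul, hu, hlP]
      have h2 := Fintype.linearIndependent_iff.1 hlinp _ h1
      have h3 : g 0 = 0 := by
        simp only [h2, zero_smul, Finset.sum_const_zero, add_zero] at hg
        exact (smul_eq_zero.1 hg).resolve_right hw00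
      intro i
      exact Fin.cases h3 h2 i
    have hvZ : LinearIndependent ℤ v := hv.restrict_scalars (by
      intro a b hab
      simpa using hab)
    have hrk : r = k := by
      have h1 : Module.finrank ℤ M = k + 1 := by
        rw [hM, finrank_span_eq_card hvZ, Fintype.card_fin]
      have h2 : Module.finrank ℤ M = r + 1 := by
        rw [← hspanz, finrank_span_eq_card hlinz, Fintype.card_fin]
      omega
    subst hrk
    -- linear independence over the reals
    have hspanR : Submodule.span ℝ (Set.range (Fin.cons w0 u : Fin (r + 1) → E)) =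
        Submodule.span ℝ (Set.range v) := by
      rw [← Submodule.span_span_of_tower ℤ ℝ (Set.range v), ← Submodule.span_span_of_tower ℤ ℝ
        (Set.range (Fin.cons w0 u : Fin (r + 1) → E)), hspanz]
    have hlinR : LinearIndependent ℝ (Fin.cons w0 u : Fin (r + 1) → E) := by
      rw [linearIndependent_iff_card_eq_finrank_span, Set.finrank, hspanR]
      exact linearIndependent_iff_card_eq_finrank_span.1 hv
    have hpR : LinearIndependent ℝ fun i => (p i : E) := by
      rw [Fintype.linearIndependent_iff]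
      intro g hg i
      have h1 : ∀ i, (p i : E) = proj w0 (u i) := fun i => (hlP _).symm
      simp only [h1] at hg
      rw [sum_smul_proj] at hg
      have h2 := Fintype.linearIndependent_iff.1 hlinR
        (Fin.cons (-(∑ i, g i * ((‖w0‖ ^ 2)⁻¹ * inner ℝ w0 (u i)))) g) (by
          rw [Fin.sum_univ_succ]
          simp only [Fin.cons_zero, Fin.cons_succ, neg_smul]
          rw [← hg]
          abel) i.succ
      simpa using h2
    obtain ⟨w', hw'R, hw'sp, hw'red⟩ := ih _ hpR
    rw [hspanp] at hw'sp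
    have hw'M : ∀ i, w' i ∈ M' := fun i => by
      rw [← hw'sp]
      exact Submodule.subset_span ⟨i, rfl⟩
    -- lift and reduce
    have hex : ∀ i, ∃ x ∈ M, P x = w' i ∧ |(‖w0‖ ^ 2)⁻¹ * inner ℝ w0 x| ≤ 1 / 2 := by
      intro i
      obtain ⟨x, hx, hPx⟩ := (Submodule.mem_map).1 (hw'M i)
      set t := (‖w0‖ ^ 2)⁻¹ * inner ℝ w0 x with ht
      refine ⟨x - round t • w0, Submodule.sub_mem _ hx (Submodule.smul_mem _ _ hw0M), ?_, ?_⟩
      · rw [map_sub, map_smul, hPa w0, proj_self, smul_zero, sub_zero, hPx]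
      · have h1 : (‖w0‖ ^ 2)⁻¹ * inner ℝ w0 (x - round t • w0) = t - round t := by
          rw [← Int.cast_smul_eq_zsmul ℝ, inner_sub_right, inner_smul_right,
            real_inner_self_eq_norm_sq, mul_sub, ← ht]
          field_simp
        rw [h1]
        exact abs_sub_round t
    choose y hyM hyP hyt using hex
    set t : Fin r → ℝ := fun i => (‖w0‖ ^ 2)⁻¹ * inner ℝ w0 (y i) with ht
    have hyw : ∀ i, y i = w' i + t i • w0 := fun i => by
      rw [← hyP, hPa, proj_apply]
      abel
    have horth : ∀ i, inner ℝ w0 (w' i) = 0 := fun i => by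
      rw [← hyP, hPa]
      exact inner_proj _ _
    have hy0 : ∀ i, y i ≠ 0 := by
      intro i h
      have := hw'R.ne_zero i
      rw [← hyP, h, map_zero] at this
      exact this rfl
    have hnorm : ∀ i, ‖y i‖ ^ 2 = ‖w' i‖ ^ 2 + (t i) ^ 2 * ‖w0‖ ^ 2 := by
      intro i
      rw [hyw, @norm_add_sq_real, inner_smul_right, real_inner_comm, horth, norm_smul,
        Real.norm_eq_abs, mul_pow, sq_abs]
      ring
    have hle0 : ∀ i, ‖w0‖ ≤ ‖y i‖ := fun i => hmin _ (hyM i) (hy0 i)
    have htsq : ∀ i, (t i) ^ 2 ≤ 1 / 4 := fun i => by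
      have := hyt i
      have h1 := abs_nonneg (t i)
      rw [← sq_abs]
      nlinarith
    have hlow : ∀ i, ‖y i‖ ≤ 2 * ‖w' i‖ := by
      intro i
      have h1 := hnorm i
      have h2 := htsq i
      have h3 := hle0 i
      have h4 : ‖w0‖ ^ 2 ≤ ‖y i‖ ^ 2 := by gcongr
      have h5 : (t i) ^ 2 * ‖w0‖ ^ 2 ≤ 1 / 4 * ‖y i‖ ^ 2 := by gcongr
      apply le_of_sq_le_sq _ (by positivity)
      nlinarith [sq_nonneg ‖w' i‖]
    have hup : ∀ i, ‖w' i‖ ≤ ‖y i‖ := by
      intro i
      have h1 := hnorm i
      apply le_of_sq_le_sq _ (norm_nonneg _)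
      nlinarith [mul_nonneg (sq_nonneg (t i)) (sq_nonneg ‖w0‖)]
    have hsum : ∀ (x0 : ℝ) (x : Fin r → ℝ), ‖x0 • w0 + ∑ i, x i • y i‖ ^ 2 =
        (x0 + ∑ i, x i * t i) ^ 2 * ‖w0‖ ^ 2 + ‖∑ i, x i • w' i‖ ^ 2 := by
      intro x0 x
      have h1 : x0 • w0 + ∑ i, x i • y i = (x0 + ∑ i, x i * t i) • w0 + ∑ i, x i • w' i := by
        simp only [hyw, smul_add, Finset.sum_add_distrib, add_smul, Finset.sum_smul, smul_smul]
        abel
      rw [h1, @norm_add_sq_real, inner_smul_left, inner_sum]
      simp only [inner_smul_right, horth, mul_zero, Finset.sum_const_zero, norm_smul,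
        Real.norm_eq_abs, mul_pow, sq_abs, add_zero]
    have hcoef : ∀ (x0 : ℝ) (x : Fin r → ℝ) (j : Fin r), |x j| * ‖y j‖ ≤
        2 * C * ‖x0 • w0 + ∑ i, x i • y i‖ := by
      intro x0 x j
      have h1 := hw'red.coef x j
      have h2 : ‖∑ i, x i • w' i‖ ≤ ‖x0 • w0 + ∑ i, x i • y i‖ := by
        apply le_of_sq_le_sq _ (norm_nonneg _)
        rw [hsum]
        nlinarith [mul_nonneg (sq_nonneg (x0 + ∑ i, x i * t i)) (sq_nonneg ‖w0‖)]
      calc |x j| * ‖y j‖ ≤ |x j| * (2 * ‖w' j‖) := by gcongr; exact hlow j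
        _ = 2 * (|x j| * ‖w' j‖) := by ring
        _ ≤ 2 * (C * ‖∑ i, x i • w' i‖) := by gcongr
        _ ≤ 2 * (C * ‖x0 • w0 + ∑ i, x i • y i‖) := by gcongr
        _ = _ := by ring
    have hcoef0 : ∀ (x0 : ℝ) (x : Fin r → ℝ), |x0| * ‖w0‖ ≤
        (1 + r * C) * ‖x0 • w0 + ∑ i, x i • y i‖ := by
      intro x0 x
      set X := ‖x0 • w0 + ∑ i, x i • y i‖ with hX
      have h1 : |x0 + ∑ i, x i * t i| * ‖w0‖ ≤ X := by
        rw [hX]
        apply le_of_sq_le_sq _ (norm_nonneg _)
        rw [hsum, mul_pow, sq_abs]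
        nlinarith [sq_nonneg ‖∑ i, x i • w' i‖]
      have h2 : |∑ i, x i * t i| * ‖w0‖ ≤ r * C * X := by
        calc |∑ i, x i * t i| * ‖w0‖ ≤ (∑ i, |x i * t i|) * ‖w0‖ := by
              gcongr
              exact Finset.abs_sum_le_sum_abs _ _
          _ = ∑ i, |x i| * |t i| * ‖w0‖ := by
              rw [Finset.sum_mul]
              simp only [abs_mul]
          _ ≤ ∑ _i : Fin r, C * X := by
              refine Finset.sum_le_sum fun i _ => ?_
              have h3 := hcoef x0 x i
              have h4 := hyt i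
              have h5 := hle0 i
              calc |x i| * |t i| * ‖w0‖ ≤ |x i| * (1 / 2) * ‖y i‖ := by gcongr
                _ = 1 / 2 * (|x i| * ‖y i‖) := by ring
                _ ≤ 1 / 2 * (2 * C * X) := by gcongr
                _ = C * X := by ring
          _ = r * C * X := by
              rw [Finset.sum_const, Finset.card_univ, Fintype.card_fin, nsmul_eq_mul]
              ring
      have h3 : |x0| ≤ |x0 + ∑ i, x i * t i| + |∑ i, x i * t i| := by
        have := abs_sub (x0 + ∑ i, x i * t i) (∑ i, x i * t i)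
        rwa [add_sub_cancel_right] at this
      calc |x0| * ‖w0‖ ≤ (|x0 + ∑ i, x i * t i| + |∑ i, x i * t i|) * ‖w0‖ := by gcongr
        _ = |x0 + ∑ i, x i * t i| * ‖w0‖ + |∑ i, x i * t i| * ‖w0‖ := by ring
        _ ≤ X + r * C * X := by gcongr
        _ = _ := by ring
    have hrn : (0 : ℝ) ≤ r := Nat.cast_nonneg r
    have hfin1 : (1 : ℝ) ≤ 2 * (r + 1) * C := by nlinarith
    have hfin2 : 2 * C ≤ 2 * (r + 1) * C := by nlinarith
    have hfin3 : 1 + r * C ≤ 2 * (r + 1) * C := by nlinarith
    have hspw := hgen r w' y hyM hyP hw'sp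
    refine ⟨Fin.cons w0 y, ?_, hspw, ?_, ?_⟩
    · have h1 : Submodule.span ℝ (Set.range (Fin.cons w0 y : Fin (r + 1) → E)) =
          Submodule.span ℝ (Set.range v) := by
        rw [← Submodule.span_span_of_tower ℤ ℝ (Set.range v), ← Submodule.span_span_of_tower ℤ ℝ
          (Set.range (Fin.cons w0 y : Fin (r + 1) → E)), hspw]
      rw [linearIndependent_iff_card_eq_finrank_span, Set.finrank, h1]
      exact linearIndependent_iff_card_eq_finrank_span.1 hv
    · intro i j
      refine Fin.cases (fun _ => ?_) (fun i => ?_) i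
      · refine Fin.cases ?_ (fun j => ?_) j
        · simp only [Fin.cons_zero]
          nlinarith
        · simp only [Fin.cons_zero, Fin.cons_succ]
          have := hle0 j
          nlinarith
      · refine Fin.cases (fun h => ?_) (fun j h => ?_) j
        · exact absurd h (by simp)
        · simp only [Fin.cons_succ]
          have h1 := hw'red.mono i j (by simpa using h)
          calc ‖y i‖ ≤ 2 * ‖w' i‖ := hlow i
            _ ≤ 2 * (C * ‖w' j‖) := by gcongr
            _ ≤ 2 * (C * ‖y j‖) := by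
                gcongr
                exact hup j
            _ = 2 * C * ‖y j‖ := by ring
            _ ≤ _ := by gcongr
    · intro x j
      rw [Fin.sum_univ_succ]
      simp only [Fin.cons_zero, Fin.cons_succ]
      refine Fin.cases ?_ (fun j => ?_) j
      · simp only [Fin.cons_zero]
        refine (hcoef0 (x 0) (fun i => x i.succ)).trans ?_
        gcongr
      · simp only [Fin.cons_succ]
        refine (hcoef (x 0) (fun i => x i.succ) j).trans ?_
        gcongr

end Euclid

end Pool.Agent.H71.MB
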