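import Mathlib
import Pool.Agent.H71.MB.Red

set_option autoImplicit false

/-! Reduced bases of the lattices `W ∩ ℤⁿ`. -/

namespace Pool.Agent.H71.MB

open Finset

/-- `b` is a basis of `W ∩ ℤⁿ`, reduced up to the constant `C`, with the sizes `2 ^ l j`. -/
structure RedData (C : ℝ) {n k : ℕ} (W : Submodule ℚ (Fin n → ℚ)) (b : Matrix (Fin n) (Fin k) ℤ)
    (bm : Matrix (Fin k) (Fin n) ℤ) (bp : Matrix (Fin k) (Fin n) ℝ) (l : Fin k → ℕ) : Prop where
  left : bm * b = 1
  span : Submodule.span ℚ (Set.range fun (j : Fin k) (i : Fin n) => (b i j : ℚ)) = W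
  leftR : bp * b.map (fun z : ℤ => (z : ℝ)) = 1
  mono : Monotone l
  up : ∀ i j, |(b i j : ℝ)| ≤ C * 2 ^ l j
  low : ∀ j i, |bp j i| ≤ C * ((2 : ℝ) ^ l j)⁻¹

/-- The casts of integer vectors with an integer left inverse are linearly independent. -/
theorem linearIndependent_cast {F : Type*} [Field F] {n k : ℕ} {b : Matrix (Fin n) (Fin k) ℤ}
    {bm : Matrix (Fin k) (Fin n) ℤ} (h : bm * b = 1) :
    LinearIndependent F fun (j : Fin k) (i : Fin n) => (b i j : F) := by
  rw [Fintype.linearIndependent_iff]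
  intro g hg j
  have h1 : (bm.map (Int.castRingHom F)) * (b.map (Int.castRingHom F)) = 1 := by
    rw [← Matrix.map_mul, h, Matrix.map_one _ (map_zero _) (map_one _)]
  have h2 : (b.map (Int.castRingHom F)).mulVec g = 0 := by
    funext i
    have := congrFun hg i
    simp only [Finset.sum_apply, Pi.smul_apply, smul_eq_mul, Pi.zero_apply] at this
    simp only [Matrix.mulVec, dotProduct, Matrix.map_apply, Pi.zero_apply, eq_intCast]
    rw [← this]
    exact Finset.sum_congr rfl fun j _ => mul_comm _ _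
  have h3 := congrArg (fun v => (bm.map (Int.castRingHom F)).mulVec v) h2
  simp only [Matrix.mulVec_mulVec, h1, Matrix.one_mulVec, Matrix.mulVec_zero] at h3
  exact congrFun h3 j

/-- The integer vectors of `W`. -/
def latt {n : ℕ} (W : Submodule ℚ (Fin n → ℚ)) : Submodule ℤ (Fin n → ℤ) where
  carrier := {z | (fun i => (z i : ℚ)) ∈ W}
  add_mem' := by
    intro a b ha hb
    have := W.add_mem ha hb
    simpa [Pi.add_def] using this
  zero_mem' := by
    have : (0 : Fin n → ℚ) ∈ W := W.zero_mem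
    simpa [Pi.zero_def] using this
  smul_mem' := by
    intro c x hx
    have := W.smul_mem (c : ℚ) hx
    simpa [Pi.smul_def] using this

theorem mem_latt {n : ℕ} {W : Submodule ℚ (Fin n → ℚ)} {z : Fin n → ℤ} :
    z ∈ latt W ↔ (fun i => (z i : ℚ)) ∈ W := Iff.rfl

/-- There is a retraction of `ℤⁿ` onto `W ∩ ℤⁿ`. -/
theorem exists_retraction {n : ℕ} (W : Submodule ℚ (Fin n → ℚ)) :
    ∃ ρ : (Fin n → ℤ) →ₗ[ℤ] latt W, ∀ z : latt W, ρ z = z := by
  have hTF : Module.IsTorsionFree ℤ ((Fin n → ℤ) ⧸ latt W) := by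
    refine Module.IsTorsionFree.of_smul_eq_zero fun c x h => ?_
    obtain ⟨z, rfl⟩ := Submodule.Quotient.mk_surjective _ x
    rw [← Submodule.Quotient.mk_smul, Submodule.Quotient.mk_eq_zero, mem_latt] at h
    by_cases hc : c = 0
    · exact Or.inl hc
    right
    rw [Submodule.Quotient.mk_eq_zero, mem_latt]
    have h2 := W.smul_mem ((c : ℚ)⁻¹) h
    have h3 : (c : ℚ)⁻¹ • (fun i => (((c • z) i : ℤ) : ℚ)) = fun i => (z i : ℚ) := by
      funext i
      have : (c : ℚ) ≠ 0 := by exact_mod_cast hc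
      simp only [Pi.smul_apply, smul_eq_mul]
      push_cast
      field_simp
    rwa [h3] at h2
  have : Module.Free ℤ ((Fin n → ℤ) ⧸ latt W) := inferInstance
  obtain ⟨s, hs⟩ := Module.projective_lifting_property (latt W).mkQ
    (LinearMap.id : ((Fin n → ℤ) ⧸ latt W) →ₗ[ℤ] _) (Submodule.mkQ_surjective _)
  have hs' : ∀ x, (latt W).mkQ (s x) = x := fun x => LinearMap.congr_fun hs x
  refine ⟨LinearMap.codRestrict (latt W) (LinearMap.id - s ∘ₗ (latt W).mkQ) ?_, ?_⟩
  · intro z
    rw [← Submodule.Quotient.mk_eq_zero]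
    change (latt W).mkQ (z - s ((latt W).mkQ z)) = 0
    rw [map_sub, hs', sub_self]
  · intro z
    apply Subtype.ext
    have : (latt W).mkQ (z : Fin n → ℤ) = 0 := by
      rw [Submodule.mkQ_apply, Submodule.Quotient.mk_eq_zero]
      exact z.2
    simp [this]

/-- A basis of `W ∩ ℤⁿ` has an integer left inverse and spans `W`. -/
theorem basis_latt {n k : ℕ} (W : Submodule ℚ (Fin n → ℚ)) (β : Module.Basis (Fin k) ℤ (latt W)) :
    (∃ bm : Matrix (Fin k) (Fin n) ℤ,
      bm * (Matrix.of fun i j => (β j : Fin n → ℤ) i : Matrix (Fin n) (Fin k) ℤ) = 1) ∧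
    Submodule.span ℚ (Set.range fun (j : Fin k) (i : Fin n) => (((β j : Fin n → ℤ) i : ℤ) : ℚ)) = W := by
  classical
  constructor
  · obtain ⟨ρ, hρ⟩ := exists_retraction W
    refine ⟨Matrix.of fun j i => β.repr (ρ (Pi.single i 1)) j, ?_⟩
    ext j j'
    rw [Matrix.mul_apply]
    simp only [Matrix.of_apply]
    have h1 : (β j' : Fin n → ℤ) = ∑ i, (β j' : Fin n → ℤ) i • (Pi.single i 1 : Fin n → ℤ) := by
      rw [← pi_eq_sum_univ']
    have h2 : β.repr (ρ (β j')) j = ∑ i, (β j' : Fin n → ℤ) i * β.repr (ρ (Pi.single i 1)) j := by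
      conv_lhs => rw [h1]
      rw [map_sum, map_sum, Finsupp.finsetSum_apply]
      refine Finset.sum_congr rfl fun i _ => ?_
      rw [map_smul, map_smul, Finsupp.smul_apply, smul_eq_mul]
    rw [hρ, β.repr_self, Finsupp.single_apply] at h2
    rw [Matrix.one_apply]
    rw [show (∑ i, β.repr (ρ (Pi.single i 1)) j * (β j' : Fin n → ℤ) i) =
      ∑ i, (β j' : Fin n → ℤ) i * β.repr (ρ (Pi.single i 1)) j from
      Finset.sum_congr rfl fun i _ => mul_comm _ _, ← h2]
    by_cases h : j = j'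
    · simp [h]
    · simp [h, Ne.symm h]
  · apply le_antisymm
    · rw [Submodule.span_le]
      rintro _ ⟨j, rfl⟩
      exact (β j).2
    · intro w hw
      -- clear denominators
      set D : ℕ := ∏ i, (w i).den with hD
      have hD0 : (D : ℚ) ≠ 0 := by
        rw [hD]
        push_cast
        exact Finset.prod_ne_zero_iff.2 fun i _ => by exact_mod_cast (w i).den_nz
      have hint : ∀ i, ∃ z : ℤ, (z : ℚ) = D * w i := by
        intro i
        refine ⟨(∏ j ∈ Finset.univ.erase i, (w j).den : ℕ) * (w i).num, ?_⟩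
        have h1 : D = (∏ j ∈ Finset.univ.erase i, (w j).den) * (w i).den := by
          rw [hD, Finset.prod_erase_mul _ _ (Finset.mem_univ i)]
        rw [h1]
        push_cast
        rw [mul_assoc, Rat.den_mul_eq_num]
      choose z hz using hint
      have hzW : z ∈ latt W := by
        rw [mem_latt]
        have := W.smul_mem (D : ℚ) hw
        have h2 : (fun i => (z i : ℚ)) = (D : ℚ) • w := by
          funext i
          simp [hz]
        rwa [h2]
      have h3 := β.sum_repr ⟨z, hzW⟩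
      have h4 : ∀ i, (z i : ℚ) = ∑ j, (β.repr ⟨z, hzW⟩ j : ℚ) * (((β j : Fin n → ℤ) i : ℤ) : ℚ) := by
        intro i
        have h5 := congrFun (congrArg (fun x : latt W => (x : Fin n → ℤ)) h3) i
        simp only [Submodule.coe_sum, Submodule.coe_smul, Finset.sum_apply, Pi.smul_apply,
          smul_eq_mul] at h5
        rw [← h5]
        push_cast
        rfl
      have h6 : w = (D : ℚ)⁻¹ • ∑ j, (β.repr ⟨z, hzW⟩ j : ℚ) •
          (fun i => (((β j : Fin n → ℤ) i : ℤ) : ℚ)) := by
        funext i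
        simp only [Pi.smul_apply, Finset.sum_apply, smul_eq_mul]
        rw [← h4, hz]
        field_simp
      rw [h6]
      exact Submodule.smul_mem _ _ (Submodule.sum_mem _ fun j _ => Submodule.smul_mem _ _
        (Submodule.subset_span ⟨j, rfl⟩))

theorem exists_redData (n k : ℕ) : ∃ C : ℝ, 1 ≤ C ∧ ∀ W : Submodule ℚ (Fin n → ℚ),
    Module.finrank ℚ W = k → ∃ (b : Matrix (Fin n) (Fin k) ℤ) (bm : Matrix (Fin k) (Fin n) ℤ)
      (bp : Matrix (Fin k) (Fin n) ℝ) (l : Fin k → ℕ), RedData C W b bm bp l := by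
  classical
  obtain ⟨C, hC, hred⟩ := exists_red (E := EuclideanSpace ℝ (Fin n)) k
  refine ⟨2 * C ^ 2, by nlinarith, fun W hW => ?_⟩
  -- a basis of the lattice
  have : Module.Free ℤ (latt W) := inferInstance
  obtain ⟨r, ⟨β⟩⟩ : ∃ r, Nonempty (Module.Basis (Fin r) ℤ (latt W)) :=
    ⟨_, ⟨Module.finBasis ℤ (latt W)⟩⟩
  obtain ⟨⟨bm0, hbm0⟩, hspan0⟩ := basis_latt W β
  have hr : r = k := by
    have h0 : LinearIndependent ℚ fun (j : Fin r) (i : Fin n) => (((β j : Fin n → ℤ) i : ℤ) : ℚ) :=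
      linearIndependent_cast (F := ℚ) hbm0
    rw [← hW, ← hspan0, finrank_span_eq_card h0, Fintype.card_fin]
  subst hr
  -- embedding into the Euclidean space
  set emb : (Fin n → ℤ) →ₗ[ℤ] EuclideanSpace ℝ (Fin n) :=
    { toFun := fun z => WithLp.toLp 2 fun i => (z i : ℝ)
      map_add' := fun x y => by
        ext i
        simp
      map_smul' := fun c x => by
        ext i
        simp } with hemb
  have hembi : ∀ z i, emb z i = (z i : ℝ) := fun z i => rfl
  have hinj : Function.Injective emb := by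
    intro x y h
    funext i
    have h1 : emb x i = emb y i := by rw [h]
    rw [hembi, hembi] at h1
    exact Int.cast_injective h1
  have hlin0 : LinearIndependent ℝ fun j => emb (β j) := by
    have h1 := linearIndependent_cast (F := ℝ) hbm0
    rw [Fintype.linearIndependent_iff] at h1 ⊢
    intro g hg
    refine h1 g ?_
    funext i
    have := congrArg (fun v : EuclideanSpace ℝ (Fin n) => v i) hg
    simp only [PiLp.zero_apply, WithLp.ofLp_sum, WithLp.ofLp_smul, Finset.sum_apply, Pi.smul_apply,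
      smul_eq_mul, hembi] at this
    simpa using this
  obtain ⟨w, hwlin, hwspan, hwred⟩ := hred _ hlin0
  have himg : Submodule.span ℤ (Set.range fun j => emb (β j)) = (latt W).map emb := by
    have h1 := congrArg (Submodule.map (emb ∘ₗ (latt W).subtype)) β.span_eq
    rw [Submodule.map_span, Submodule.map_top, LinearMap.range_comp, Submodule.range_subtype,
      ← Set.range_comp] at h1
    exact h1
  rw [himg] at hwspan
  have hex : ∀ j, ∃ z ∈ latt W, emb z = w j := fun j => by
    have : w j ∈ (latt W).map emb := by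
      rw [← hwspan]
      exact Submodule.subset_span ⟨j, rfl⟩
    exact (Submodule.mem_map).1 this
  choose z hzW hzw using hex
  -- the new basis of the lattice
  have hzlin : LinearIndependent ℤ (fun j => (⟨z j, hzW j⟩ : latt W)) := by
    have h1 : LinearIndependent ℤ w := hwlin.restrict_scalars (by
      intro a b hab
      simpa using hab)
    have h2 : LinearIndependent ℤ ((emb ∘ₗ (latt W).subtype) ∘ fun j => (⟨z j, hzW j⟩ : latt W)) := by
      have : ((emb ∘ₗ (latt W).subtype) ∘ fun j => (⟨z j, hzW j⟩ : latt W)) = w := by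
        funext j
        exact hzw j
      rwa [this]
    exact LinearIndependent.of_comp _ h2
  have hzspan : ⊤ ≤ Submodule.span ℤ (Set.range fun j => (⟨z j, hzW j⟩ : latt W)) := by
    rintro ⟨x, hx⟩ _
    have h1 : emb x ∈ Submodule.span ℤ (Set.range w) := by
      rw [hwspan]
      exact Submodule.mem_map_of_mem hx
    obtain ⟨c, hc⟩ := (Submodule.mem_span_range_iff_exists_fun ℤ).1 h1
    refine (Submodule.mem_span_range_iff_exists_fun ℤ).2 ⟨c, ?_⟩
    apply Subtype.ext
    apply hinj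
    rw [← hc]
    simp only [Submodule.coe_sum, Submodule.coe_smul, map_sum, map_smul, hzw]
  set β' := Module.Basis.mk hzlin hzspan with hβ'
  have hβz : ∀ j, (β' j : Fin n → ℤ) = z j := fun j => by rw [hβ', Module.Basis.mk_apply]
  obtain ⟨⟨bm, hbm⟩, hspan⟩ := basis_latt W β'
  simp only [hβz] at hbm hspan
  -- norms
  have hwn : ∀ j, 1 ≤ ‖w j‖ := by
    intro j
    have h1 : w j ≠ 0 := hwlin.ne_zero j
    have h2 : ∃ i, z j i ≠ 0 := by
      by_contra hcon
      push Not at hcon
      apply h1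
      rw [← hzw]
      ext i
      rw [hembi, hcon]
      simp
    obtain ⟨i, hi⟩ := h2
    have h3 : (1 : ℝ) ≤ |(z j i : ℝ)| := by
      have : (1 : ℤ) ≤ |z j i| := Int.one_le_abs hi
      exact_mod_cast this
    have h4 := PiLp.norm_apply_le (w j) i
    rw [← hzw, hembi, Real.norm_eq_abs] at h4
    rw [← hzw]
    exact h3.trans h4
  set a : Fin r → ℕ := fun i => Nat.log 2 ⌊‖w i‖⌋₊ with ha
  have ha1 : ∀ i, (2 : ℝ) ^ a i ≤ ‖w i‖ := by
    intro i
    have h1 : (1 : ℕ) ≤ ⌊‖w i‖⌋₊ := Nat.one_le_floor_iff _ |>.2 (hwn i)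
    have h2 : 2 ^ a i ≤ ⌊‖w i‖⌋₊ := Nat.pow_log_le_self 2 (by omega)
    calc (2 : ℝ) ^ a i = ((2 ^ a i : ℕ) : ℝ) := by push_cast; rfl
      _ ≤ (⌊‖w i‖⌋₊ : ℝ) := by exact_mod_cast h2
      _ ≤ ‖w i‖ := Nat.floor_le (norm_nonneg _)
  have ha2 : ∀ i, ‖w i‖ ≤ 2 * (2 : ℝ) ^ a i := by
    intro i
    have h2 : ⌊‖w i‖⌋₊ < 2 ^ (a i + 1) := Nat.lt_pow_succ_log_self (by norm_num) _
    have h3 : ‖w i‖ < (⌊‖w i‖⌋₊ : ℝ) + 1 := Nat.lt_floor_add_one _
    have h4 : ((⌊‖w i‖⌋₊ + 1 : ℕ) : ℝ) ≤ ((2 ^ (a i + 1) : ℕ) : ℝ) := by exact_mod_cast h2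
    push_cast at h4
    rw [pow_succ] at h4
    linarith
  set l : Fin r → ℕ := fun j => (Finset.Iic j).sup a with hl
  have hlmono : Monotone l := fun i j hij => Finset.sup_mono (Finset.Iic_subset_Iic.2 hij)
  have hl1 : ∀ j, a j ≤ l j := fun j => Finset.le_sup (f := a) (Finset.mem_Iic.2 le_rfl)
  have hl2 : ∀ j, ∃ i ≤ j, l j = a i := by
    intro j
    obtain ⟨i, hi, h⟩ := Finset.exists_mem_eq_sup (Finset.Iic j) ⟨j, Finset.mem_Iic.2 le_rfl⟩ a
    exact ⟨i, Finset.mem_Iic.1 hi, h⟩
  have hlw : ∀ j, (2 : ℝ) ^ l j ≤ C * ‖w j‖ := by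
    intro j
    obtain ⟨i, hij, h⟩ := hl2 j
    rw [h]
    exact (ha1 i).trans (hwred.mono i j hij)
  have hwl : ∀ j, ‖w j‖ ≤ 2 * (2 : ℝ) ^ l j := by
    intro j
    refine (ha2 j).trans ?_
    have := pow_le_pow_right₀ (by norm_num : (1 : ℝ) ≤ 2) (hl1 j)
    linarith
  -- the real left inverse
  set S := Submodule.span ℝ (Set.range w) with hS
  set bs := Module.Basis.span hwlin with hbs
  have hbsw : ∀ j, (bs j : EuclideanSpace ℝ (Fin n)) = w j := fun j =>
    congrArg Subtype.val (Module.Basis.span_apply hwlin j) |>.trans rfl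
  set pr : EuclideanSpace ℝ (Fin n) →ₗ[ℝ] S := (S.orthogonalProjectionOnto).toLinearMap with hpr
  have hprw : ∀ j, pr (w j) = bs j := by
    intro j
    have h1 := Submodule.orthogonalProjectionOnto_mem_subspace_eq_self (bs j)
    rw [hbsw] at h1
    exact h1
  have hcoord : ∀ (y : EuclideanSpace ℝ (Fin n)) (j : Fin r), |bs.repr (pr y) j| * ‖w j‖ ≤ C * ‖y‖ := by
    intro y j
    have h1 := hwred.coef (fun j => bs.repr (pr y) j) j
    have h2 : ∑ i, bs.repr (pr y) i • w i = (pr y : EuclideanSpace ℝ (Fin n)) := by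
      have h3 := congrArg (fun x : S => (x : EuclideanSpace ℝ (Fin n))) (bs.sum_repr (pr y))
      simp only [Submodule.coe_sum, Submodule.coe_smul, hbsw] at h3
      exact h3
    rw [h2] at h1
    refine h1.trans ?_
    gcongr
    exact Submodule.norm_orthogonalProjectionOnto_apply_le S y
  refine ⟨Matrix.of fun i j => z j i, bm, Matrix.of fun j i => bs.repr (pr (EuclideanSpace.single i 1)) j,
    l, ⟨hbm, hspan, ?_, hlmono, ?_, ?_⟩⟩
  · ext j j'
    rw [Matrix.mul_apply]
    simp only [Matrix.of_apply, Matrix.map_apply]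
    have h1 : w j' = ∑ i, (z j' i : ℝ) • (EuclideanSpace.single i (1 : ℝ) : EuclideanSpace ℝ (Fin n)) := by
      rw [← hzw]
      ext i'
      simp only [hembi, WithLp.ofLp_sum, WithLp.ofLp_smul, Finset.sum_apply, Pi.smul_apply, smul_eq_mul]
      rw [Finset.sum_eq_single i']
      · simp
      · intro i _ hi
        simp [Ne.symm hi]
      · simp
    have h2 : bs.repr (pr (w j')) j = ∑ i, bs.repr (pr (EuclideanSpace.single i 1)) j * (z j' i : ℝ) := by
      rw [h1, map_sum, map_sum, Finsupp.finsetSum_apply]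
      refine Finset.sum_congr rfl fun i _ => ?_
      rw [map_smul, map_smul, Finsupp.smul_apply, smul_eq_mul, mul_comm]
    rw [← h2, hprw, bs.repr_self, Finsupp.single_apply, Matrix.one_apply]
    by_cases h : j = j'
    · simp [h]
    · simp [h, Ne.symm h]
  · intro i j
    simp only [Matrix.of_apply]
    have h4 := PiLp.norm_apply_le (w j) i
    rw [← hzw, hembi, Real.norm_eq_abs, hzw] at h4
    have h5 : (0 : ℝ) < 2 ^ l j := by positivity
    calc |(z j i : ℝ)| ≤ ‖w j‖ := h4
      _ ≤ 2 * 2 ^ l j := hwl j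
      _ ≤ 2 * C ^ 2 * 2 ^ l j := by
          have : (1 : ℝ) ≤ C ^ 2 := one_le_pow₀ hC
          nlinarith
  · intro j i
    simp only [Matrix.of_apply]
    have h1 := hcoord (EuclideanSpace.single i 1) j
    rw [PiLp.norm_single, norm_one, mul_one] at h1
    have h5 : (0 : ℝ) < 2 ^ l j := by positivity
    have h6 : 0 < ‖w j‖ := lt_of_lt_of_le one_pos (hwn j)
    rw [← div_eq_mul_inv, le_div_iff₀ h5]
    calc |bs.repr (pr (EuclideanSpace.single i 1)) j| * 2 ^ l j
        ≤ |bs.repr (pr (EuclideanSpace.single i 1)) j| * (C * ‖w j‖) := by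
          gcongr
          exact hlw j
      _ = C * (|bs.repr (pr (EuclideanSpace.single i 1)) j| * ‖w j‖) := by ring
      _ ≤ C * C := by gcongr
      _ ≤ 2 * C ^ 2 := by nlinarith

end Pool.Agent.H71.MB
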