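import Mathlib
import Pool.Agent.H71.MB.RedZ

set_option autoImplicit false

/-! The number of rational subspaces whose lattices have given sizes. -/

namespace Pool.Agent.H71.MB

open Finset

/-- The sum of the differences `l j - l i` over all pairs with `l i < l j`. -/
def uni {k : ℕ} (l : Fin k → ℕ) : ℕ := ∑ j, ∑ i, (l j - l i)

theorem span_cols {n k : ℕ} (b : Matrix (Fin n) (Fin k) ℤ) :
    Submodule.span ℚ (Set.range fun (j : Fin k) (i : Fin n) => (b i j : ℚ)) =
      LinearMap.range (b.map (Int.castRingHom ℚ)).mulVecLin := by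
  rw [Matrix.range_mulVecLin]
  rfl

/-- The unipotent matrix with the entries `c j i`. -/
def uMat {k : ℕ} (c : Fin k → Fin k → ℕ) : Matrix (Fin k) (Fin k) ℤ :=
  1 + Matrix.of fun i j => (c j i : ℤ)

theorem det_uMat {k : ℕ} (c : Fin k → Fin k → ℕ) (hc : ∀ i j, j ≤ i → c j i = 0) :
    (uMat c).det = 1 := by
  have h : (uMat c).BlockTriangular id := by
    intro i j hij
    simp only [id] at hij
    simp only [uMat, Matrix.add_apply, Matrix.of_apply]
    rw [Matrix.one_apply_ne (ne_of_gt hij), hc i j hij.le]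
    simp
  rw [Matrix.det_of_isUpperTriangular h]
  refine Finset.prod_eq_one fun i _ => ?_
  simp [uMat, hc i i le_rfl]

theorem count_subspaces (n k : ℕ) (C : ℝ) (hC : 1 ≤ C) (l : Fin k → ℕ)
    (S : Finset (Submodule ℚ (Fin n → ℚ)))
    (hS : ∀ W ∈ S, ∃ b bm bp, RedData C W b bm bp l) :
    (S.card : ℝ) * 2 ^ uni l ≤ (3 * ((k + 1) * C)) ^ (n * k) * 2 ^ (n * ∑ j, l j) := by
  classical
  by_cases hne : S.Nonempty
  swap
  · rw [Finset.not_nonempty_iff_eq_empty] at hne
    subst hne
    simp only [Finset.card_empty, Nat.cast_zero, zero_mul]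
    positivity
  choose! b bm bp hb using hS
  obtain ⟨W0, hW0⟩ := hne
  have hmono : Monotone l := (hb W0 hW0).mono
  set D : ℝ := (k + 1) * C with hD
  have hD1 : 1 ≤ D := by
    have : (0 : ℝ) ≤ k := Nat.cast_nonneg k
    nlinarith
  set m : Fin k → ℤ := fun j => ⌊D * 2 ^ l j⌋ with hm
  set T : Finset (Fin k → Fin k → ℕ) :=
    Fintype.piFinset fun j => Fintype.piFinset fun i => Finset.range (2 ^ (l j - l i)) with hT
  have hTcard : T.card = 2 ^ uni l := by
    rw [hT, Fintype.card_piFinset]
    simp only [Fintype.card_piFinset, Finset.card_range]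
    rw [uni, ← Finset.prod_pow_eq_pow_sum]
    refine Finset.prod_congr rfl fun j _ => ?_
    rw [← Finset.prod_pow_eq_pow_sum]
  have hTz : ∀ c ∈ T, ∀ i j, j ≤ i → c j i = 0 := by
    intro c hc i j hij
    rw [hT, Fintype.mem_piFinset] at hc
    have h1 := Fintype.mem_piFinset.1 (hc j) i
    rw [Nat.sub_eq_zero_of_le (hmono hij), pow_zero, Finset.mem_range] at h1
    omega
  set B : Finset (Fin n → Fin k → ℤ) :=
    Fintype.piFinset fun _ => Fintype.piFinset fun j => Finset.Icc (-(m j)) (m j) with hB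
  have hmaps : ∀ x ∈ S ×ˢ T, (fun i j => (b x.1 * uMat x.2) i j) ∈ B := by
    rintro ⟨W, c⟩ hx
    obtain ⟨hW, hc⟩ := Finset.mem_product.1 hx
    simp only at hW hc
    rw [hB, Fintype.mem_piFinset]
    intro i
    rw [Fintype.mem_piFinset]
    intro j
    have h1 : |(((b W * uMat c) i j : ℤ) : ℝ)| ≤ D * 2 ^ l j := by
      have h2 : (b W * uMat c) i j = b W i j + ∑ i', b W i i' * (c j i' : ℤ) := by
        rw [uMat, Matrix.mul_add, Matrix.mul_one, Matrix.add_apply, Matrix.mul_apply]
        simp
      rw [h2]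
      push_cast
      refine (abs_add_le _ _).trans ?_
      have h3 : |∑ i', (b W i i' : ℝ) * (c j i' : ℝ)| ≤ ∑ _i' : Fin k, C * 2 ^ l j := by
        refine (Finset.abs_sum_le_sum_abs _ _).trans (Finset.sum_le_sum fun i' _ => ?_)
        rw [abs_mul]
        have h4 := (hb W hW).up i i'
        have h5 : (c j i' : ℝ) ≤ 2 ^ (l j - l i') := by
          rw [hT, Fintype.mem_piFinset] at hc
          have h6 := Finset.mem_range.1 (Fintype.mem_piFinset.1 (hc j) i')
          exact_mod_cast h6.le
        rw [abs_of_nonneg (Nat.cast_nonneg (c j i') : (0 : ℝ) ≤ _)]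
        by_cases hle : l i' ≤ l j
        · calc |(b W i i' : ℝ)| * (c j i' : ℝ) ≤ (C * 2 ^ l i') * 2 ^ (l j - l i') := by gcongr
            _ = C * 2 ^ l j := by
                rw [mul_assoc, ← pow_add, Nat.add_sub_cancel' hle]
        · have h7 : c j i' = 0 := hTz c hc i' j (by
            by_contra hlt
            exact hle (hmono (not_le.1 hlt).le))
          rw [h7]
          simp only [Nat.cast_zero, mul_zero]
          positivity
      rw [Finset.sum_const, Finset.card_univ, Fintype.card_fin, nsmul_eq_mul] at h3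
      have h8 := (hb W hW).up i j
      rw [hD]
      linarith
    rw [Finset.mem_Icc]
    have h9 : |(b W * uMat c) i j| ≤ m j := by
      rw [hm]
      apply Int.le_floor.2
      rw [Int.cast_abs]
      exact h1
    exact abs_le.1 h9
  have hinj : ∀ x ∈ S ×ˢ T, ∀ y ∈ S ×ˢ T, (b x.1 * uMat x.2 : Matrix (Fin n) (Fin k) ℤ) =
      b y.1 * uMat y.2 → x = y := by
    rintro ⟨W, c⟩ hx ⟨W', c'⟩ hy h
    obtain ⟨hW, hc⟩ := Finset.mem_product.1 hx
    obtain ⟨hW', hc'⟩ := Finset.mem_product.1 hy
    simp only at hW hc hW' hc' h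
    have hrange : ∀ (W : Submodule ℚ (Fin n → ℚ)) (c : Fin k → Fin k → ℕ), W ∈ S → c ∈ T →
        LinearMap.range ((b W * uMat c).map (Int.castRingHom ℚ)).mulVecLin = W := by
      intro W c hW hc
      rw [Matrix.map_mul, Matrix.mulVecLin_mul, LinearMap.range_comp]
      have h1 : LinearMap.range ((uMat c).map (Int.castRingHom ℚ)).mulVecLin = ⊤ := by
        rw [LinearMap.range_eq_top]
        intro v
        have h2 : IsUnit ((uMat c).map (Int.castRingHom ℚ)).det := by
          rw [← RingHom.mapMatrix_apply, ← RingHom.map_det, det_uMat c (hTz c hc), map_one]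
          exact isUnit_one
        refine ⟨((uMat c).map (Int.castRingHom ℚ))⁻¹.mulVec v, ?_⟩
        rw [Matrix.mulVecLin_apply, Matrix.mulVec_mulVec, Matrix.mul_nonsing_inv _ h2,
          Matrix.one_mulVec]
      rw [h1, Submodule.map_top, ← span_cols, (hb W hW).span]
    have hWW : W = W' := by
      rw [← hrange W c hW hc, h, hrange W' c' hW' hc']
    subst hWW
    have h2 : uMat c = uMat c' := by
      have h3 := congrArg (fun M => bm W * M) h
      simpa only [← Matrix.mul_assoc, (hb W hW).left, Matrix.one_mul] using h3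
    have h4 : c = c' := by
      funext j i
      have h5 := congrFun (congrFun h2 i) j
      simp only [uMat, Matrix.add_apply, Matrix.of_apply, add_right_inj] at h5
      exact_mod_cast h5
    rw [h4]
  have hcard : (S ×ˢ T).card ≤ B.card :=
    Finset.card_le_card_of_injOn (fun x => fun i j => (b x.1 * uMat x.2) i j) hmaps
      (fun x hx y hy h => hinj x hx y hy (by
        ext i j
        exact congrFun (congrFun h i) j))
  rw [Finset.card_product, hTcard] at hcard
  have h1 : (S.card : ℝ) * 2 ^ uni l ≤ (B.card : ℝ) := by exact_mod_cast hcard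
  refine h1.trans ?_
  rw [hB, Fintype.card_piFinset, Finset.prod_const, Finset.card_univ, Fintype.card_fin,
    Fintype.card_piFinset]
  push_cast
  have h2 : ∀ j, (((Finset.Icc (-(m j)) (m j)).card : ℕ) : ℝ) ≤ 3 * D * 2 ^ l j := by
    intro j
    have h3 : (1 : ℝ) ≤ D * 2 ^ l j := by
      have := one_le_pow₀ (M₀ := ℝ) (one_le_two) (n := l j)
      nlinarith
    have h4 : 0 ≤ m j := by
      rw [hm]
      exact Int.floor_nonneg.2 (by linarith)
    rw [Int.card_Icc]
    have h5 : (((m j + 1 - -(m j)).toNat : ℕ) : ℝ) = 2 * (m j : ℝ) + 1 := by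
      have h6 : (((m j + 1 - -(m j)).toNat : ℤ)) = 2 * m j + 1 := by
        rw [Int.toNat_of_nonneg (by omega)]
        ring
      exact_mod_cast h6
    rw [h5]
    have h7 : (m j : ℝ) ≤ D * 2 ^ l j := Int.floor_le _
    linarith
  calc (∏ j, (((Finset.Icc (-(m j)) (m j)).card : ℕ) : ℝ)) ^ n
      ≤ (∏ j, (3 * D * 2 ^ l j)) ^ n :=
        pow_le_pow_left₀ (Finset.prod_nonneg fun j _ => Nat.cast_nonneg _)
          (Finset.prod_le_prod (fun j _ => Nat.cast_nonneg _) fun j _ => h2 j) n
    _ = (3 * D) ^ (n * k) * 2 ^ (n * ∑ j, l j) := by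
        rw [Finset.prod_mul_distrib, Finset.prod_const, Finset.card_univ, Fintype.card_fin,
          Finset.prod_pow_eq_pow_sum, mul_pow, ← pow_mul, ← pow_mul, mul_comm k n,
          mul_comm (∑ j, l j) n]

end Pool.Agent.H71.MB
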