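import Mathlib
import Pool.Agent.H71.MB.Act
import Pool.Agent.H71.MB.Jac

set_option autoImplicit false

/-! If the translates of a coordinate subspace `V_J` are dense in `V` then the coordinates outside of
`J` can be matched with roots. -/

namespace Pool.Agent.H71.MB

open MvPolynomial

/-! ### Dual numbers -/

section Dual

variable {σ : Type} [Fintype σ]

/-- The directional derivative of `p` at `a` in the direction `u`. -/
noncomputable def dd (a u : σ → ℚ) (p : MvPolynomial σ ℚ) : ℚ := ∑ j, eval a (pderiv j p) * u j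

theorem dd_add (a u : σ → ℚ) (p q : MvPolynomial σ ℚ) : dd a u (p + q) = dd a u p + dd a u q := by
  simp [dd, add_mul, Finset.sum_add_distrib]

theorem dd_C_mul (a u : σ → ℚ) (c : ℚ) (p : MvPolynomial σ ℚ) :
    dd a u (C c * p) = c * dd a u p := by
  simp only [dd, Derivation.leibniz, pderiv_C, smul_eq_mul, mul_zero, add_zero, map_mul, eval_C,
    Finset.mul_sum]
  exact Finset.sum_congr rfl fun j _ => by ring

theorem dd_sum {ι : Type*} (s : Finset ι) (a u : σ → ℚ) (p : ι → MvPolynomial σ ℚ) :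
    dd a u (∑ i ∈ s, p i) = ∑ i ∈ s, dd a u (p i) := by
  simp only [dd, map_sum, Finset.sum_mul]
  exact Finset.sum_comm

theorem dd_dir {ι : Type*} (s : Finset ι) (a : σ → ℚ) (c : ι → ℚ) (u : ι → σ → ℚ)
    (p : MvPolynomial σ ℚ) : dd a (fun j => ∑ i ∈ s, c i * u i j) p = ∑ i ∈ s, c i * dd a (u i) p := by
  simp only [dd, Finset.mul_sum]
  rw [Finset.sum_comm]
  exact Finset.sum_congr rfl fun i _ => Finset.sum_congr rfl fun j _ => by ring

/-- Evaluation at `a + ε u`. -/
noncomputable def evε (a u : σ → ℚ) : MvPolynomial σ ℚ →ₐ[ℚ] TrivSqZeroExt ℚ ℚ :=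
  aeval fun j => TrivSqZeroExt.inl (a j) + TrivSqZeroExt.inr (u j)

theorem evε_eq (a u : σ → ℚ) (p : MvPolynomial σ ℚ) :
    evε a u p = TrivSqZeroExt.inl (eval a p) + TrivSqZeroExt.inr (dd a u p) := by
  classical
  induction p using MvPolynomial.induction_on with
  | C c =>
    rw [evε, aeval_C, eval_C]
    simp [dd]
    rfl
  | add p q hp hq =>
    rw [map_add, hp, hq, map_add, dd_add, TrivSqZeroExt.inl_add, TrivSqZeroExt.inr_add]
    abel
  | mul_X p j hp =>
    rw [map_mul, hp, evε, aeval_X]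
    have h : dd a u (p * X j) = dd a u p * a j + eval a p * u j := by
      simp only [dd, Derivation.leibniz, pderiv_X, smul_eq_mul, map_add, map_mul, eval_X, add_mul,
        Finset.sum_add_distrib]
      rw [Finset.sum_eq_single j]
      · simp only [Pi.single_eq_same, map_one, mul_one, Finset.sum_mul]
        rw [add_comm]
        congr 1
        exact Finset.sum_congr rfl fun i _ => by ring
      · intro i _ hi
        simp [Ne.symm hi]
      · simp
    rw [h]
    ext
    · simp
    · simp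
      ring

end Dual

/-! ### The infinitesimal action -/

section Inf

variable {κ μ : Type} [Fintype κ] [DecidableEq κ] {d : ℕ}

/-- The infinitesimal action of a matrix. -/
def inf (Y : Matrix κ κ ℚ) (q : Ten κ d μ ℚ) : Ten κ d μ ℚ :=
  fun x => ∑ s, ∑ b, Y (x.1 s) b * q (Function.update x.1 s b, x.2)

theorem snd_prod {ι : Type*} [DecidableEq ι] (t : Finset ι) (a b : ι → ℚ) :
    (∏ s ∈ t, (TrivSqZeroExt.inl (a s) + TrivSqZeroExt.inr (b s) : TrivSqZeroExt ℚ ℚ)) =
      TrivSqZeroExt.inl (∏ s ∈ t, a s) + TrivSqZeroExt.inr (∑ s ∈ t, b s * ∏ s' ∈ t.erase s, a s') := by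
  induction t using Finset.induction_on with
  | empty =>
    simp
  | insert i t hi ih =>
    rw [Finset.prod_insert hi, ih, Finset.prod_insert hi, Finset.sum_insert hi]
    have h1 : ∑ s ∈ t, b s * ∏ s' ∈ (insert i t).erase s, a s' =
        a i * ∑ s ∈ t, b s * ∏ s' ∈ t.erase s, a s' := by
      rw [Finset.mul_sum]
      refine Finset.sum_congr rfl fun s hs => ?_
      have hne : i ≠ s := fun h => hi (h ▸ hs)
      rw [Finset.erase_insert_of_ne hne, Finset.prod_insert
        (fun h => hi (Finset.mem_of_mem_erase h))]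
      ring
    rw [h1, Finset.erase_insert hi]
    ext
    · simp
    · simp
      ring

/-- The matrix `1 + ε Y`. -/
def epsMat (Y : Matrix κ κ ℚ) : Matrix κ κ (TrivSqZeroExt ℚ ℚ) :=
  fun i j => TrivSqZeroExt.inl ((1 : Matrix κ κ ℚ) i j) + TrivSqZeroExt.inr (Y i j)

theorem act_eps (Y : Matrix κ κ ℚ) (q v : Ten κ d μ ℚ) (x : (Fin d → κ) × μ) :
    act (epsMat Y) (fun y => TrivSqZeroExt.inl (q y) + TrivSqZeroExt.inr (v y)) x =
      TrivSqZeroExt.inl (q x) + TrivSqZeroExt.inr (v x + inf Y q x) := by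
  have h1 : ∀ i j : κ, epsMat Y i j =
      TrivSqZeroExt.inl ((1 : Matrix κ κ ℚ) i j) + TrivSqZeroExt.inr (Y i j) := fun i j => rfl
  rw [act_apply]
  simp only [h1, snd_prod]
  have h2 : ∀ y : Fin d → κ, (TrivSqZeroExt.inl (∏ s, (1 : Matrix κ κ ℚ) (x.1 s) (y s)) +
      TrivSqZeroExt.inr (∑ s, Y (x.1 s) (y s) * ∏ s' ∈ Finset.univ.erase s,
        (1 : Matrix κ κ ℚ) (x.1 s') (y s')) : TrivSqZeroExt ℚ ℚ) *
      (TrivSqZeroExt.inl (q (y, x.2)) + TrivSqZeroExt.inr (v (y, x.2))) =
      TrivSqZeroExt.inl ((∏ s, (1 : Matrix κ κ ℚ) (x.1 s) (y s)) * q (y, x.2)) +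
      TrivSqZeroExt.inr ((∏ s, (1 : Matrix κ κ ℚ) (x.1 s) (y s)) * v (y, x.2) +
        ∑ s, (Y (x.1 s) (y s) * ∏ s' ∈ Finset.univ.erase s,
        (1 : Matrix κ κ ℚ) (x.1 s') (y s')) * q (y, x.2)) := by
    intro y
    ext
    · simp
    · simp only [TrivSqZeroExt.snd_mul, TrivSqZeroExt.snd_add, TrivSqZeroExt.fst_add,
        TrivSqZeroExt.fst_inl, TrivSqZeroExt.fst_inr, TrivSqZeroExt.snd_inl,
        TrivSqZeroExt.snd_inr, smul_eq_mul, MulOpposite.smul_eq_mul_unop, MulOpposite.unop_op,
        add_zero, zero_add, ← Finset.sum_mul]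
  simp only [h2, Finset.sum_add_distrib]
  rw [← TrivSqZeroExt.inl_sum, ← TrivSqZeroExt.inr_sum]
  have h3 : ∀ T : Ten κ d μ ℚ, ∑ y : Fin d → κ, (∏ s, (1 : Matrix κ κ ℚ) (x.1 s) (y s)) * T (y, x.2) =
      T x := fun T => by
    rw [← act_apply, act_one]
  rw [h3 q, Finset.sum_add_distrib, h3 v]
  congr 3
  rw [Finset.sum_comm, inf]
  refine Finset.sum_congr rfl fun s _ => ?_
  -- the sum over `y` is over the `y` which differ from `x` at most at `s`
  rw [← Finset.sum_subset (Finset.subset_univ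
    (Finset.univ.image fun b => Function.update x.1 s b))]
  · rw [Finset.sum_image]
    · refine Finset.sum_congr rfl fun b _ => ?_
      rw [Function.update_self]
      have : ∏ s' ∈ Finset.univ.erase s, (1 : Matrix κ κ ℚ) (x.1 s') (Function.update x.1 s b s') =
          1 := by
        refine Finset.prod_eq_one fun s' hs' => ?_
        rw [Function.update_of_ne (Finset.ne_of_mem_erase hs'), Matrix.one_apply_eq]
      rw [this, mul_one]
    · intro b _ b' _ h
      exact Function.update_injective x.1 s h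
  · intro y _ hy
    have hex : ∃ s', s' ≠ s ∧ x.1 s' ≠ y s' := by
      by_contra hcon
      push Not at hcon
      apply hy
      rw [Finset.mem_image]
      refine ⟨y s, Finset.mem_univ _, ?_⟩
      funext s'
      by_cases h : s' = s
      · subst h
        rw [Function.update_self]
      · rw [Function.update_of_ne h, hcon s' h]
    obtain ⟨s', hs', hne⟩ := hex
    have h0 : ∏ s'' ∈ Finset.univ.erase s, (1 : Matrix κ κ ℚ) (x.1 s'') (y s'') = 0 :=
      Finset.prod_eq_zero (Finset.mem_erase.2 ⟨hs', Finset.mem_univ _⟩) (Matrix.one_apply_ne hne)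
    rw [h0, mul_zero, zero_mul]

end Inf

/-! ### The matching -/

section Matching

variable {κ μ γ : Type} [Fintype κ] [DecidableEq κ] [Fintype μ] [DecidableEq μ] [DecidableEq γ]
  {d N : ℕ}

theorem eval_aeval' {σ ι : Type} (a : σ → ℚ) (f : ι → MvPolynomial σ ℚ) (P : MvPolynomial ι ℚ) :
    eval a (aeval f P) = eval (fun i => eval a (f i)) P := by
  induction P using MvPolynomial.induction_on with
  | C c => simp
  | add p q hp hq => rw [map_add, map_add, map_add, hp, hq]
  | mul_X p i hp => rw [map_mul, map_mul, map_mul, hp, aeval_X, eval_X]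

/-- A polynomial vanishes on all translates of the coordinate subspace `V_J`, but not on `V`. -/
def Bad (col : κ → γ) (V : Submodule ℚ (Ten κ d μ ℚ)) (J : Set ((Fin d → κ) × μ))
    (P : MvPolynomial ((Fin d → κ) × μ) ℚ) : Prop :=
  (∀ g : Matrix κ κ ℚ, IsBlock col col g → ∀ q ∈ V, (∀ x, x ∉ J → q x = 0) →
    eval (act g q) P = 0) ∧ ∃ q ∈ V, eval q P ≠ 0

theorem exists_matching (col : κ → γ) (V : Submodule ℚ (Ten κ d μ ℚ))
    (hV : ∀ g : Matrix κ κ ℚ, IsBlock col col g → ∀ q ∈ V, act g q ∈ V)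
    (ν : Fin N → (Fin d → κ) × μ) (hinj : ∀ q ∈ V, (∀ i, q (ν i) = 0) → q = 0)
    (hsurj : ∀ z : Fin N → ℚ, ∃ q ∈ V, ∀ i, q (ν i) = z i)
    (J : Set ((Fin d → κ) × μ)) (hbad : ∀ P, ¬ Bad col V J P) :
    ∃ φ : {i : Fin N // ν i ∉ J} → κ × κ, Function.Injective φ ∧
      ∀ i, col (φ i).1 = col (φ i).2 ∧
        ∃ s, (ν i).1 s = (φ i).1 ∧ (Function.update (ν i).1 s (φ i).2, (ν i).2) ∈ J := by
  classical
  -- the subspace `V_J` and a projection onto it
  set VJ : Submodule ℚ (Ten κ d μ ℚ) :=
    { carrier := {q | q ∈ V ∧ ∀ x, x ∉ J → q x = 0}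
      add_mem' := fun {a b} ha hb => ⟨V.add_mem ha.1 hb.1, fun x hx => by
        rw [Pi.add_apply, ha.2 x hx, hb.2 x hx, add_zero]⟩
      zero_mem' := ⟨V.zero_mem, fun x _ => rfl⟩
      smul_mem' := fun c a ha => ⟨V.smul_mem c ha.1, fun x hx => by
        rw [Pi.smul_apply, ha.2 x hx, smul_zero]⟩ } with hVJ
  have hmemVJ : ∀ q, q ∈ VJ ↔ q ∈ V ∧ ∀ x, x ∉ J → q x = 0 := fun q => Iff.rfl
  obtain ⟨pr0, hpr0⟩ := LinearMap.exists_leftInverse_of_injective VJ.subtype (Submodule.ker_subtype _)
  set pr : Ten κ d μ ℚ →ₗ[ℚ] Ten κ d μ ℚ := VJ.subtype ∘ₗ pr0 with hpr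
  have hprm : ∀ y, pr y ∈ VJ := fun y => (pr0 y).2
  have hprq : ∀ q ∈ VJ, pr q = q := by
    intro q hq
    have := LinearMap.congr_fun hpr0 ⟨q, hq⟩
    simp only [LinearMap.comp_apply, Submodule.subtype_apply, LinearMap.id_apply] at this
    rw [hpr, LinearMap.comp_apply, this, Submodule.subtype_apply]
  have hprs : ∀ y x, pr y x = ∑ z, pr (Pi.single z 1) x * y z := by
    intro y x
    conv_lhs => rw [pi_eq_sum_univ' y, map_sum, Finset.sum_apply]
    refine Finset.sum_congr rfl fun z _ => ?_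
    rw [map_smul, Pi.smul_apply, smul_eq_mul, mul_comm]
  -- generic elements
  set G : Matrix κ κ (MvPolynomial ((κ × κ) ⊕ ((Fin d → κ) × μ)) ℚ) :=
    fun a b => if col a = col b then X (Sum.inl (a, b)) else 0 with hG
  set Yp : Ten κ d μ (MvPolynomial ((κ × κ) ⊕ ((Fin d → κ) × μ)) ℚ) :=
    fun x => ∑ z, C (pr (Pi.single z 1) x) * X (Sum.inr z) with hYp
  set gOf : ((κ × κ) ⊕ ((Fin d → κ) × μ) → ℚ) → Matrix κ κ ℚ :=
    fun a i j => if col i = col j then a (Sum.inl (i, j)) else 0 with hgOf
  set yOf : ((κ × κ) ⊕ ((Fin d → κ) × μ) → ℚ) → Ten κ d μ ℚ := fun a z => a (Sum.inr z) with hyOf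
  have hgB : ∀ a, IsBlock col col (gOf a) := fun a i j h => by simp [hgOf, h]
  set Φ := act G Yp with hΦ
  have hGe : ∀ a, G.map (eval a) = gOf a := by
    intro a
    ext i j
    rw [Matrix.map_apply]
    by_cases h : col i = col j
    · simp [hG, hgOf, h]
    · simp [hG, hgOf, h]
  have hYe : ∀ a, (fun y => eval a (Yp y)) = pr (yOf a) := by
    intro a
    funext x
    rw [hprs]
    simp [hYp, hyOf]
  have hΦe : ∀ a x, eval a (Φ x) = act (gOf a) (pr (yOf a)) x := by
    intro a x
    rw [hΦ, act_map, hGe, hYe]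
  have hΦV : ∀ a, act (gOf a) (pr (yOf a)) ∈ V := fun a => hV _ (hgB a) _ (hprm _).1
  -- algebraic independence
  have hind : AlgebraicIndependent ℚ fun i => Φ (ν i) := by
    rw [algebraicIndependent_iff]
    intro P hP
    by_contra hP0
    obtain ⟨z, hz⟩ : ∃ z, eval z P ≠ 0 := by
      by_contra hcon
      push Not at hcon
      exact hP0 (MvPolynomial.funext fun z => by rw [hcon, map_zero])
    refine hbad (rename ν P) ⟨?_, ?_⟩
    · intro g hg q hq hqJ
      rw [eval_rename]
      set a : (κ × κ) ⊕ ((Fin d → κ) × μ) → ℚ := Sum.elim (fun p => g p.1 p.2) q with ha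
      have h1 : gOf a = g := by
        ext i j
        by_cases h : col i = col j
        · simp [hgOf, ha, h]
        · simp [hgOf, h, hg i j h]
      have h2 : pr (yOf a) = q := by
        have : yOf a = q := rfl
        rw [this]
        exact hprq q ⟨hq, hqJ⟩
      have h3 := congrArg (eval a) hP
      rw [map_zero, eval_aeval'] at h3
      have h4 : (fun i => (eval a) (Φ (ν i))) = (act g q) ∘ ν := by
        funext i
        rw [hΦe, h1, h2]
        rfl
      rw [← h4]
      exact h3
    · obtain ⟨q, hq, hqz⟩ := hsurj z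
      refine ⟨q, hq, ?_⟩
      rw [eval_rename]
      have : (q ∘ ν) = z := funext hqz
      rwa [this]
  obtain ⟨δ, R, hδ, hR⟩ := exists_jacobian_inverse _ hind
  -- a good point
  have hdet : G.det ≠ 0 := by
    intro h0
    have h1 := congrArg (eval (Sum.elim (fun p => (1 : Matrix κ κ ℚ) p.1 p.2) 0)) h0
    rw [map_zero, RingHom.map_det, RingHom.mapMatrix_apply, hGe] at h1
    have h2 : gOf (Sum.elim (fun p => (1 : Matrix κ κ ℚ) p.1 p.2) 0) = 1 := by
      ext i j
      by_cases h : col i = col j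
      · simp [hgOf, h]
      · have : i ≠ j := fun h' => h (by rw [h'])
        simp [hgOf, h, this]
    rw [h2, Matrix.det_one] at h1
    exact one_ne_zero h1
  obtain ⟨a, ha⟩ : ∃ a, eval a (δ * G.det) ≠ 0 := by
    by_contra hcon
    push Not at hcon
    exact mul_ne_zero hδ hdet (MvPolynomial.funext fun z => by rw [hcon, map_zero])
  rw [map_mul] at ha
  have haδ : eval a δ ≠ 0 := left_ne_zero_of_mul ha
  have hadet : (gOf a).det ≠ 0 := by
    have := right_ne_zero_of_mul ha
    rwa [RingHom.map_det, RingHom.mapMatrix_apply, hGe] at this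
  set g := gOf a with hg
  set q := pr (yOf a) with hq
  have hqJ : q ∈ VJ := hprm _
  have hgu : IsUnit g.det := isUnit_iff_ne_zero.2 hadet
  -- the differential
  set dΦ : ((κ × κ) ⊕ ((Fin d → κ) × μ) → ℚ) → Ten κ d μ ℚ := fun u x => dd a u (Φ x) with hdΦ
  have hdV : ∀ u, dΦ u ∈ V := by
    intro u
    by_contra hnot
    obtain ⟨ψ, hψ1, hψ2⟩ := Submodule.exists_le_ker_of_notMem hnot
    have hψs : ∀ y : Ten κ d μ ℚ, ψ y = ∑ x, ψ (Pi.single x 1) * y x := by
      intro y
      conv_lhs => rw [pi_eq_sum_univ' y, map_sum]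
      refine Finset.sum_congr rfl fun z _ => ?_
      rw [map_smul, smul_eq_mul, mul_comm]
    have h1 : ∑ x, C (ψ (Pi.single x 1)) * Φ x = 0 := by
      apply MvPolynomial.funext
      intro b
      rw [map_sum, map_zero]
      simp only [map_mul, eval_C, hΦe]
      rw [← hψs]
      exact hψ2 (hΦV b)
    have h2 : dd a u (∑ x, C (ψ (Pi.single x 1)) * Φ x) = 0 := by
      rw [h1]
      simp [dd]
    rw [dd_sum] at h2
    simp only [dd_C_mul] at h2
    apply hψ1
    rw [hψs]
    exact h2
  set Ym : ((κ × κ) ⊕ ((Fin d → κ) × μ) → ℚ) → Matrix κ κ ℚ := fun u => g⁻¹ * gOf u with hYm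
  have hdf : ∀ u, dΦ u = act g (pr (yOf u) + inf (Ym u) q) := by
    intro u
    funext x
    have h1 : evε a u (Φ x) = act (G.map (evε a u)) (fun y => evε a u (Yp y)) x := by
      rw [hΦ]
      exact act_map (evε a u).toRingHom G Yp x
    have h2 : G.map (evε a u) = (g.map (TrivSqZeroExt.inlHom ℚ ℚ)) * epsMat (Ym u) := by
      ext i j : 1
      rw [Matrix.map_apply, Matrix.mul_apply]
      simp only [Matrix.map_apply, epsMat, TrivSqZeroExt.inlHom_apply]
      have h3 : evε a u (G i j) = TrivSqZeroExt.inl (g i j) + TrivSqZeroExt.inr (gOf u i j) := by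
        by_cases h : col i = col j
        · simp [hG, hg, hgOf, h, evε]
        · simp [hG, hg, hgOf, h]
      rw [h3]
      have h4 : gOf u = g * Ym u := by
        rw [hYm, ← Matrix.mul_assoc, Matrix.mul_nonsing_inv _ hgu, Matrix.one_mul]
      have h5 : g i j = ∑ k, g i k * (1 : Matrix κ κ ℚ) k j := by
        rw [← Matrix.mul_apply, Matrix.mul_one]
      conv_lhs => rw [h4, Matrix.mul_apply, h5]
      ext
      · simp [TrivSqZeroExt.fst_sum]
      · simp [TrivSqZeroExt.snd_sum]
    have h6 : (fun y => evε a u (Yp y)) = fun y => TrivSqZeroExt.inl (q y) +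
        TrivSqZeroExt.inr (pr (yOf u) y) := by
      funext y
      rw [evε_eq]
      have h7 : eval a (Yp y) = q y := congrFun (hYe a) y
      rw [h7]
      congr 2
      rw [hprs (yOf u), hYp]
      simp only
      rw [dd_sum]
      refine Finset.sum_congr rfl fun z _ => ?_
      rw [dd_C_mul]
      congr 1
      rw [dd, Finset.sum_eq_single (Sum.inr z)]
      · simp [hyOf]
      · intro i _ hi
        rw [pderiv_X_of_ne (Ne.symm hi)]
        simp
      · simp
    rw [h2, h6, ← act_act] at h1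
    have h8 : (fun y => act (epsMat (Ym u)) (fun y => TrivSqZeroExt.inl (q y) +
        TrivSqZeroExt.inr (pr (yOf u) y)) y) = fun y => TrivSqZeroExt.inl (q y) +
        TrivSqZeroExt.inr (pr (yOf u) y + inf (Ym u) q y) := by
      funext y
      exact act_eps _ _ _ _
    have h9 : act (epsMat (Ym u)) (fun y => TrivSqZeroExt.inl (q y) +
        TrivSqZeroExt.inr (pr (yOf u) y)) = fun y => TrivSqZeroExt.inl (q y) +
        TrivSqZeroExt.inr (pr (yOf u) y + inf (Ym u) q y) := h8
    rw [h9] at h1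
    have h10 := congrArg TrivSqZeroExt.snd h1
    rw [evε_eq] at h10
    simp only [TrivSqZeroExt.snd_add, TrivSqZeroExt.snd_inl, TrivSqZeroExt.snd_inr, zero_add] at h10
    rw [hdΦ]
    simp only
    rw [h10, act_apply, act_apply, TrivSqZeroExt.snd_sum]
    refine Finset.sum_congr rfl fun y _ => ?_
    have h11 : (∏ s, g.map (TrivSqZeroExt.inlHom ℚ ℚ) (x.1 s) (y s)) =
        TrivSqZeroExt.inl (∏ s, g (x.1 s) (y s)) := by
      simp only [Matrix.map_apply]
      rw [← map_prod]
      rfl
    rw [h11]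
    simp
  -- surjectivity
  have hsur : ∀ z ∈ V, ∃ u, dΦ u = z := by
    intro z hz
    set ui : Fin N → ((κ × κ) ⊕ ((Fin d → κ) × μ)) → ℚ := fun i' j => eval a (R j i') / eval a δ
      with hui
    have h1 : ∀ i i', dd a (ui i') (Φ (ν i)) = if i = i' then 1 else 0 := by
      intro i i'
      have h2 := congrArg (eval a) (hR i i')
      rw [map_sum] at h2
      simp only [map_mul] at h2
      have h3 : dd a (ui i') (Φ (ν i)) =
          (∑ j, eval a (pderiv j (Φ (ν i))) * eval a (R j i')) / eval a δ := by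
        rw [dd, Finset.sum_div]
        exact Finset.sum_congr rfl fun j _ => by rw [hui]; ring
      rw [h3, h2]
      by_cases h : i = i'
      · simp [h, haδ]
      · simp [h]
    refine ⟨fun j => ∑ i, z (ν i) * ui i j, ?_⟩
    rw [← sub_eq_zero]
    refine hinj _ (V.sub_mem (hdV _) hz) fun i => ?_
    rw [Pi.sub_apply, sub_eq_zero, hdΦ]
    simp only
    rw [dd_dir]
    simp [h1]
  have hkey : ∀ z ∈ V, ∃ Y : Matrix κ κ ℚ, IsBlock col col Y ∧ ∀ x, x ∉ J → inf Y q x = z x := by
    intro z hz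
    obtain ⟨u, hu⟩ := hsur (act g z) (hV g (hgB a) z hz)
    rw [hdf] at hu
    have h1 := congrArg (act g⁻¹) hu
    rw [act_act, act_act, Matrix.nonsing_inv_mul _ hgu, act_one, act_one] at h1
    refine ⟨Ym u, ?_, fun x hx => ?_⟩
    · -- the inverse of a block matrix is a block matrix
      have hginv : IsBlock col col g⁻¹ := by
        -- use the block projections
        have hD : ∀ c : γ, Matrix.diagonal (fun i => if col i = c then (1 : ℚ) else 0) * g =
            g * Matrix.diagonal (fun i => if col i = c then (1 : ℚ) else 0) := by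
          intro c
          ext i j
          rw [Matrix.diagonal_mul, Matrix.mul_diagonal]
          by_cases h : col i = col j
          · rw [h]; ring
          · have h0 : g i j = 0 := hgB a i j h
            rw [h0]; ring
        intro i j hij
        have h2 : Matrix.diagonal (fun i' => if col i' = col i then (1 : ℚ) else 0) * g⁻¹ =
            g⁻¹ * Matrix.diagonal (fun i' => if col i' = col i then (1 : ℚ) else 0) := by
          have h3 := congrArg (fun M => g⁻¹ * M * g⁻¹) (hD (col i))
          simp only [← Matrix.mul_assoc] at h3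
          rw [Matrix.nonsing_inv_mul _ hgu, Matrix.one_mul, Matrix.mul_assoc, Matrix.mul_assoc,
            Matrix.mul_nonsing_inv _ hgu, Matrix.mul_one] at h3
          exact h3.symm
        have h3 := congrFun (congrFun h2 i) j
        rw [Matrix.diagonal_mul, Matrix.mul_diagonal] at h3
        simpa [Ne.symm hij] using h3
      intro i j hij
      rw [hYm]
      simp only
      rw [Matrix.mul_apply]
      refine Finset.sum_eq_zero fun k _ => ?_
      by_cases h : col i = col k
      · rw [hgB u k j (fun h' => hij (h.trans h')), mul_zero]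
      · rw [hginv i k h, zero_mul]
    · have h2 := congrFun h1 x
      rw [Pi.add_apply, (hprm (yOf u)).2 x hx, zero_add] at h2
      exact h2
  -- the theorem of Hall
  set S := {i : Fin N // ν i ∉ J} with hS
  set t : S → Finset (κ × κ) := fun i => Finset.univ.filter fun p => col p.1 = col p.2 ∧
    ∃ s, (ν i).1 s = p.1 ∧ q (Function.update (ν i).1 s p.2, (ν i).2) ≠ 0 with ht
  set cf : S → κ × κ → ℚ := fun i p => ∑ s, if (ν i).1 s = p.1 then
    q (Function.update (ν i).1 s p.2, (ν i).2) else 0 with hcf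
  have hinf : ∀ (Y : Matrix κ κ ℚ) (i : S), inf Y q (ν i) = ∑ p : κ × κ, Y p.1 p.2 * cf i p := by
    intro Y i
    rw [inf, Fintype.sum_prod_type]
    simp only [hcf, Finset.mul_sum]
    have h1 : ∑ a', ∑ b, ∑ s, Y a' b * (if (ν i).1 s = a' then
        q (Function.update (ν i).1 s b, (ν i).2) else 0) = ∑ s, ∑ b, ∑ a', Y a' b *
        (if (ν i).1 s = a' then q (Function.update (ν i).1 s b, (ν i).2) else 0) := by
      rw [Finset.sum_comm]
      have : ∀ b, ∑ a', ∑ s, Y a' b * (if (ν i).1 s = a' then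
          q (Function.update (ν i).1 s b, (ν i).2) else 0) = ∑ s, ∑ a', Y a' b *
          (if (ν i).1 s = a' then q (Function.update (ν i).1 s b, (ν i).2) else 0) :=
        fun b => Finset.sum_comm
      simp only [this]
      exact Finset.sum_comm
    rw [h1]
    refine Finset.sum_congr rfl fun s _ => Finset.sum_congr rfl fun b _ => ?_
    simp
  have hcf0 : ∀ i p, col p.1 = col p.2 → p ∉ t i → cf i p = 0 := by
    intro i p hp hpt
    rw [hcf]
    refine Finset.sum_eq_zero fun s _ => ?_
    by_cases h : (ν i).1 s = p.1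
    · rw [if_pos h]
      by_contra hne
      exact hpt (Finset.mem_filter.2 ⟨Finset.mem_univ _, hp, s, h, hne⟩)
    · rw [if_neg h]
  have hhall : ∀ A : Finset S, A.card ≤ (A.biUnion t).card := by
    intro A
    by_contra hlt
    push Not at hlt
    set B := A.biUnion t with hB
    set L : (B → ℚ) →ₗ[ℚ] (A → ℚ) :=
      { toFun := fun w i => ∑ p : B, w p * cf i.1 p.1
        map_add' := fun w w' => by
          funext i
          simp [add_mul, Finset.sum_add_distrib]
        map_smul' := fun c w => by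
          funext i
          simp [Finset.mul_sum, mul_assoc] } with hL
    have hLs : Function.Surjective L := by
      intro y
      obtain ⟨z, hz, hzy⟩ := hsurj fun i => if h : ∃ hi : ν i ∉ J, (⟨i, hi⟩ : S) ∈ A then
        y ⟨⟨i, h.1⟩, h.2⟩ else 0
      obtain ⟨Y, hY, hYz⟩ := hkey z hz
      refine ⟨fun p => Y p.1.1 p.1.2, ?_⟩
      funext i
      have h1 := hYz (ν i.1) i.1.2
      rw [hinf Y i.1, hzy, dif_pos ⟨i.1.2, i.2⟩] at h1
      rw [hL]
      simp only [LinearMap.coe_mk, AddHom.coe_mk]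
      rw [← h1]
      rw [← Finset.sum_subset (Finset.subset_univ B)]
      · rw [← Finset.sum_coe_sort B (fun p => Y p.1 p.2 * cf i.1 p)]
      · intro p _ hp
        by_cases h : col p.1 = col p.2
        · rw [hcf0 i.1 p h (fun hpt => hp (Finset.mem_biUnion.2 ⟨i.1, i.2, hpt⟩)), mul_zero]
        · rw [hY _ _ h, zero_mul]
    have h2 := LinearMap.finrank_le_finrank_of_surjective hLs
    rw [Module.finrank_fintype_fun_eq_card, Module.finrank_fintype_fun_eq_card, Fintype.card_coe,
      Fintype.card_coe] at h2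
    omega
  obtain ⟨φ, hφi, hφt⟩ := (Finset.all_card_le_biUnion_card_iff_exists_injective t).1 hhall
  refine ⟨φ, hφi, fun i => ?_⟩
  obtain ⟨-, h1, s, hs, hne⟩ := Finset.mem_filter.1 (hφt i)
  refine ⟨h1, s, hs, ?_⟩
  by_contra hnJ
  exact hne (hqJ.2 _ hnJ)

end Matching

end Pool.Agent.H71.MB
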