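import Mathlib
import Pool.Agent.H71.MB.Match

set_option autoImplicit false

/-! The number of integral elements of `V` with given sizes of the coordinates. -/

namespace Pool.Agent.H71.MB

open Finset

variable {κ μ γ : Type} [Fintype κ] [DecidableEq κ] [Fintype μ] [DecidableEq μ] [DecidableEq γ]
  {d N : ℕ}

/-- The weight of a coordinate. -/
def pr {κ μ : Type} {d : ℕ} (l : κ → ℕ) (x : (Fin d → κ) × μ) : ℕ := ∑ s, l (x.1 s)

/-- The sum of the differences `l a - l b` over all pairs with the same colour. -/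
def uniC (col : κ → γ) (l : κ → ℕ) : ℕ :=
  ∑ p : κ × κ, if col p.1 = col p.2 then l p.1 - l p.2 else 0

theorem sum_outside_le (col : κ → γ) (V : Submodule ℚ (Ten κ d μ ℚ))
    (hV : ∀ g : Matrix κ κ ℚ, IsBlock col col g → ∀ q ∈ V, act g q ∈ V)
    (ν : Fin N → (Fin d → κ) × μ) (hinj : ∀ q ∈ V, (∀ i, q (ν i) = 0) → q = 0)
    (hsurj : ∀ z : Fin N → ℚ, ∃ q ∈ V, ∀ i, q (ν i) = z i) (l : κ → ℕ) (R : ℕ)
    (hbad : ∀ P, ¬ Bad col V {x | pr l x ≤ R} P) :
    ∑ i, (pr l (ν i) - R) ≤ uniC col l := by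
  classical
  obtain ⟨φ, hφi, hφ⟩ := exists_matching col V hV ν hinj hsurj {x | pr l x ≤ R} hbad
  have h1 : ∀ i : {i : Fin N // ν i ∉ {x | pr l x ≤ R}},
      pr l (ν i) - R ≤ if col (φ i).1 = col (φ i).2 then l (φ i).1 - l (φ i).2 else 0 := by
    intro i
    obtain ⟨hc, s, hs, hJ⟩ := hφ i
    rw [if_pos hc]
    have hJ' : pr l ((Function.update (ν i).1 s (φ i).2, (ν i).2) : (Fin d → κ) × μ) ≤ R := hJ
    have h2 : pr l ((Function.update (ν i).1 s (φ i).2, (ν i).2) : (Fin d → κ) × μ) + l (φ i).1 =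
        pr l (ν i) + l (φ i).2 := by
      simp only [pr]
      rw [← Finset.add_sum_erase _ _ (Finset.mem_univ s), ← Finset.add_sum_erase _ (fun s =>
        l ((ν i).1 s)) (Finset.mem_univ s), Function.update_self, hs]
      have h3 : ∑ x ∈ Finset.univ.erase s, l (Function.update (ν i).1 s (φ i).2 x) =
          ∑ x ∈ Finset.univ.erase s, l ((ν i).1 x) := by
        refine Finset.sum_congr rfl fun x hx => ?_
        rw [Function.update_of_ne (Finset.ne_of_mem_erase hx)]
      rw [h3]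
      ring
    omega
  have h2 : ∑ i, (pr l (ν i) - R) = ∑ i : {i : Fin N // ν i ∉ {x | pr l x ≤ R}}, (pr l (ν i) - R) := by
    have h3 : ∑ i, (pr l (ν i) - R) =
        ∑ i ∈ Finset.univ.filter (fun i => ν i ∉ {x | pr l x ≤ R}), (pr l (ν i) - R) := by
      symm
      apply Finset.sum_subset (Finset.subset_univ _)
      intro i _ hi
      have h4 : pr l (ν i) ≤ R := by
        by_contra hcon
        exact hi (Finset.mem_filter.2 ⟨Finset.mem_univ _, hcon⟩)
      exact Nat.sub_eq_zero_of_le h4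
    rw [h3]
    exact Finset.sum_subtype _ (fun i => by simp) _
  rw [h2]
  calc ∑ i : {i : Fin N // ν i ∉ {x | pr l x ≤ R}}, (pr l (ν i) - R)
      ≤ ∑ i : {i : Fin N // ν i ∉ {x | pr l x ≤ R}},
        (if col (φ i).1 = col (φ i).2 then l (φ i).1 - l (φ i).2 else 0) :=
        Finset.sum_le_sum fun i _ => h1 i
    _ = ∑ p ∈ Finset.univ.map ⟨φ, hφi⟩, (if col p.1 = col p.2 then l p.1 - l p.2 else 0) := by
        rw [Finset.sum_map]
        rfl
    _ ≤ uniC col l := Finset.sum_le_sum_of_subset (Finset.subset_univ _)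

/-- The main bound for the number of integral elements of `V`. -/
theorem count_q (col : κ → γ) (V : Submodule ℚ (Ten κ d μ ℚ))
    (hV : ∀ g : Matrix κ κ ℚ, IsBlock col col g → ∀ q ∈ V, act g q ∈ V)
    (ν : Fin N → (Fin d → κ) × μ) (hinj : ∀ q ∈ V, (∀ i, q (ν i) = 0) → q = 0)
    (hsurj : ∀ z : Fin N → ℚ, ∃ q ∈ V, ∀ i, q (ν i) = z i) (l : κ → ℕ) (R : ℕ)
    (hbad : ∀ P, ¬ Bad col V {x | pr l x ≤ R} P) (F : Finset ((Fin d → κ) × μ → ℤ))
    (hF : ∀ q ∈ F, (fun x => (q x : ℚ)) ∈ V ∧ ∀ x, |q x| * 2 ^ pr l x ≤ 2 ^ R) :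
    F.card * 2 ^ (∑ i, pr l (ν i)) ≤ 4 ^ N * 2 ^ (N * R + uniC col l) := by
  classical
  have hout := sum_outside_le col V hV ν hinj hsurj l R hbad
  -- the box
  set m : Fin N → ℤ := fun i => if pr l (ν i) ≤ R then 2 ^ (R - pr l (ν i)) else 0 with hm
  set B : Finset (Fin N → ℤ) := Fintype.piFinset fun i => Finset.Icc (-(m i)) (m i) with hB
  have hcard : F.card ≤ B.card := by
    refine Finset.card_le_card_of_injOn (fun q i => q (ν i)) ?_ ?_
    · intro q hq
      have h1 := (hF q hq).2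
      rw [hB]
      refine Fintype.mem_piFinset.2 fun i => ?_
      rw [Finset.mem_Icc]
      apply abs_le.1
      have h2 := h1 (ν i)
      rw [hm]
      simp only
      split_ifs with h
      · have h3 : (2 : ℤ) ^ R = 2 ^ (R - pr l (ν i)) * 2 ^ pr l (ν i) := by
          rw [← pow_add, Nat.sub_add_cancel h]
        rw [h3] at h2
        exact le_of_mul_le_mul_right h2 (by positivity)
      · have h4 : (2 : ℤ) ^ R < 2 ^ pr l (ν i) := pow_lt_pow_right₀ (by norm_num) (not_le.1 h)
        by_contra hcon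
        have h5 : 1 ≤ |q (ν i)| := by omega
        nlinarith [pow_pos (show (0 : ℤ) < 2 by norm_num) (pr l (ν i))]
    · intro q hq q' hq' h
      have h1 : (fun x => (q x : ℚ)) - (fun x => (q' x : ℚ)) = 0 := by
        refine hinj _ (V.sub_mem (hF q hq).1 (hF q' hq').1) fun i => ?_
        have := congrFun h i
        simp only at this
        simp [this]
      funext x
      have h2 := congrFun h1 x
      simp only [Pi.sub_apply, Pi.zero_apply, sub_eq_zero, Int.cast_inj] at h2
      exact h2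
  have hBc : B.card ≤ ∏ i, (4 * 2 ^ (R - pr l (ν i))) := by
    rw [hB, Fintype.card_piFinset]
    refine Finset.prod_le_prod' fun i _ => ?_
    rw [Int.card_Icc, hm]
    simp only
    split_ifs with h
    · have h5 : ((2 : ℤ) ^ (R - pr l (ν i)) + 1 - -(2 ^ (R - pr l (ν i)))).toNat =
          2 * 2 ^ (R - pr l (ν i)) + 1 := by
        have : ((2 : ℤ) ^ (R - pr l (ν i)) + 1 - -(2 ^ (R - pr l (ν i)))) =
          ((2 * 2 ^ (R - pr l (ν i)) + 1 : ℕ) : ℤ) := by
          push_cast
          ring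
        rw [this, Int.toNat_natCast]
      rw [h5]
      have := Nat.one_le_two_pow (n := R - pr l (ν i))
      omega
    · have := Nat.one_le_two_pow (n := R - pr l (ν i))
      simp
      omega
  have hprod : ∏ i, (4 * 2 ^ (R - pr l (ν i))) = 4 ^ N * 2 ^ (∑ i, (R - pr l (ν i))) := by
    rw [Finset.prod_mul_distrib, Finset.prod_const, Finset.card_univ, Fintype.card_fin,
      Finset.prod_pow_eq_pow_sum]
  have hsum : ∑ i, (R - pr l (ν i)) + ∑ i, pr l (ν i) ≤ N * R + uniC col l := by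
    have h1 : ∑ i, (R - pr l (ν i)) + ∑ i, pr l (ν i) = N * R + ∑ i, (pr l (ν i) - R) := by
      have h2 : N * R = ∑ _i : Fin N, R := by simp
      rw [h2, ← Finset.sum_add_distrib, ← Finset.sum_add_distrib]
      refine Finset.sum_congr rfl fun i _ => ?_
      omega
    omega
  calc F.card * 2 ^ (∑ i, pr l (ν i)) ≤ (4 ^ N * 2 ^ (∑ i, (R - pr l (ν i)))) *
        2 ^ (∑ i, pr l (ν i)) := by
        gcongr
        rw [← hprod]
        exact hcard.trans hBc
    _ = 4 ^ N * 2 ^ (∑ i, (R - pr l (ν i)) + ∑ i, pr l (ν i)) := by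
        rw [pow_add]
        ring
    _ ≤ 4 ^ N * 2 ^ (N * R + uniC col l) := by
        gcongr
        norm_num

end Pool.Agent.H71.MB
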