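import Mathlib
import Pool.Agent.H71.MB.RedZ

set_option autoImplicit false

/-! Heights of the points of projective spaces and of Grassmannians over the rational numbers. -/

namespace Pool.Agent.H71.MB

open Finset

section Proj

variable {ι : Type} [Fintype ι]

theorem mulHeight_int [Nonempty ι] (x : ι → ℤ) (hx : Finset.univ.gcd x = 1) :
    ∃ i, Height.mulHeight (fun i => (x i : ℚ)) = |(x i : ℝ)| ∧ ∀ j, |(x j : ℝ)| ≤ |(x i : ℝ)| := by
  have h := Rat.mulHeight_eq_max_abs_of_gcd_eq_one hx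
  obtain ⟨i, hi⟩ := exists_eq_ciSup_of_finite (f := fun i ↦ |x i|)
  refine ⟨i, ?_, fun j => ?_⟩
  · change Height.mulHeight (((↑) : ℤ → ℚ) ∘ x) = _
    rw [h, ← hi, Int.cast_abs]
  · have h1 : |x j| ≤ |x i| := by
      rw [hi]
      exact Finite.le_ciSup_of_le (f := fun i ↦ |x i|) j le_rfl
    exact_mod_cast h1

theorem exists_primitive (v : ι → ℚ) (hv : v ≠ 0) :
    ∃ x : ι → ℤ, Finset.univ.gcd x = 1 ∧ ∃ c : ℚ, c ≠ 0 ∧ v = c • fun i => (x i : ℚ) := by
  classical
  set D : ℕ := ∏ i, (v i).den with hD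
  have hD0 : (D : ℚ) ≠ 0 := by
    rw [hD]
    push_cast
    exact Finset.prod_ne_zero_iff.2 fun i _ => by exact_mod_cast (v i).den_nz
  have hint : ∀ i, ∃ z : ℤ, (z : ℚ) = D * v i := by
    intro i
    refine ⟨(∏ j ∈ Finset.univ.erase i, (v j).den : ℕ) * (v i).num, ?_⟩
    have h1 : D = (∏ j ∈ Finset.univ.erase i, (v j).den) * (v i).den := by
      rw [hD, Finset.prod_erase_mul _ _ (Finset.mem_univ i)]
    rw [h1]
    push_cast
    rw [mul_assoc, Rat.den_mul_eq_num]
  choose z hz using hint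
  have hne : (Finset.univ : Finset ι).Nonempty := by
    obtain ⟨i, hi⟩ := Function.ne_iff.1 hv
    exact ⟨i, Finset.mem_univ i⟩
  obtain ⟨x, hx, hx1⟩ := Finset.extract_gcd z hne
  set g := Finset.univ.gcd z with hg
  have hg0 : g ≠ 0 := by
    intro h0
    apply hv
    funext i
    have h1 := hx i (Finset.mem_univ i)
    rw [h0, zero_mul] at h1
    have h2 := hz i
    rw [h1, Int.cast_zero] at h2
    exact (mul_eq_zero.1 h2.symm).resolve_left hD0
  refine ⟨x, hx1, (D : ℚ)⁻¹ * g, mul_ne_zero (inv_ne_zero hD0) (by exact_mod_cast hg0), ?_⟩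
  funext i
  have h1 := hx i (Finset.mem_univ i)
  have h2 := hz i
  rw [h1] at h2
  push_cast at h2
  simp only [Pi.smul_apply, smul_eq_mul]
  rw [mul_assoc, h2, ← mul_assoc, inv_mul_cancel₀ hD0, one_mul]

end Proj

section Pluecker

variable {R : Type} [CommRing R] {n k : ℕ}

/-- The minors of order `k`. -/
def pl (b : Matrix (Fin n) (Fin k) R) : (Fin k → Fin n) → R := fun S => (b.submatrix S id).det

theorem det_expand (p : Matrix (Fin k) (Fin n) R) (b : Matrix (Fin n) (Fin k) R) :
    (p * b).det = ∑ S : Fin k → Fin n, (∏ j, p j (S j)) * pl b S := by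
  have h1 : (p * b) = fun j => ∑ i, p j i • b i := by
    funext j
    funext j'
    rw [Matrix.mul_apply]
    simp
  have h2 : (p * b).det = Matrix.detRowAlternating (p * b) := rfl
  rw [h2, h1]
  change (Matrix.detRowAlternating : (Fin k → R) [⋀^Fin k]→ₗ[R] R).toMultilinearMap
    (fun j => ∑ i, p j i • b i) = _
  rw [MultilinearMap.map_sum]
  refine Finset.sum_congr rfl fun S _ => ?_
  rw [MultilinearMap.map_smul_univ, smul_eq_mul]
  rfl

theorem pl_mul (b : Matrix (Fin n) (Fin k) R) (g : Matrix (Fin k) (Fin k) R) :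
    pl (b * g) = g.det • pl b := by
  funext S
  have h : (b * g).submatrix S id = b.submatrix S id * g := by
    ext i j
    simp [Matrix.mul_apply]
  rw [pl, h, Matrix.det_mul, Pi.smul_apply, smul_eq_mul, mul_comm]
  rfl

end Pluecker

/-- The height of the point `W` of a Grassmannian, in the Plücker embedding. -/
noncomputable def grH {n : ℕ} (W : Submodule ℚ (Fin n → ℚ)) : ℝ :=
  Height.mulHeight (pl (Matrix.of fun i j => (Module.finBasis ℚ W j : Fin n → ℚ) i))

theorem grH_eq {n k : ℕ} (W : Submodule ℚ (Fin n → ℚ)) (b : Matrix (Fin n) (Fin k) ℚ)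
    (hb : LinearIndependent ℚ fun (j : Fin k) (i : Fin n) => b i j)
    (hW : Submodule.span ℚ (Set.range fun (j : Fin k) (i : Fin n) => b i j) = W) :
    grH W = Height.mulHeight (pl b) := by
  classical
  have hk : k = Module.finrank ℚ W := by
    rw [← hW, finrank_span_eq_card hb, Fintype.card_fin]
  subst hk
  set b0 : Matrix (Fin n) (Fin (Module.finrank ℚ W)) ℚ :=
    Matrix.of fun i j => (Module.finBasis ℚ W j : Fin n → ℚ) i with hb0
  have hmem : ∀ j, (fun i => b i j) ∈ W := by
    intro j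
    have : (fun i => b i j) ∈ Submodule.span ℚ (Set.range fun (j : Fin (Module.finrank ℚ W))
        (i : Fin n) => b i j) := Submodule.subset_span ⟨j, rfl⟩
    rwa [hW] at this
  set g : Matrix (Fin (Module.finrank ℚ W)) (Fin (Module.finrank ℚ W)) ℚ :=
    Matrix.of fun i j => (Module.finBasis ℚ W).repr ⟨_, hmem j⟩ i with hg
  have hbg : b = b0 * g := by
    ext i j
    rw [Matrix.mul_apply]
    have h1 := (Module.finBasis ℚ W).sum_repr ⟨_, hmem j⟩
    have h2 := congrFun (congrArg (fun x : W => (x : Fin n → ℚ)) h1) i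
    simp only [Submodule.coe_sum, Submodule.coe_smul, Finset.sum_apply, Pi.smul_apply,
      smul_eq_mul] at h2
    rw [← h2]
    exact Finset.sum_congr rfl fun x _ => mul_comm _ _
  have hdet : g.det ≠ 0 := by
    intro h0
    obtain ⟨v, hv, hgv⟩ := Matrix.exists_mulVec_eq_zero_iff.2 h0
    apply hv
    have h1 : b.mulVec v = 0 := by
      rw [hbg, ← Matrix.mulVec_mulVec, hgv, Matrix.mulVec_zero]
    have h2 := Fintype.linearIndependent_iff.1 hb v (by
      funext i
      have := congrFun h1 i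
      simp only [Matrix.mulVec, dotProduct, Pi.zero_apply] at this
      simp only [Finset.sum_apply, Pi.smul_apply, smul_eq_mul, Pi.zero_apply]
      rw [← this]
      exact Finset.sum_congr rfl fun x _ => mul_comm _ _)
    exact funext h2
  rw [hbg, pl_mul, Height.mulHeight_smul_eq_mulHeight _ hdet]
  rfl

/-- The height of `W` is, up to constants, `2` to the sum of the sizes. -/
theorem grH_bounds {C : ℝ} (hC : 1 ≤ C) {n k : ℕ} {W : Submodule ℚ (Fin n → ℚ)}
    {b : Matrix (Fin n) (Fin k) ℤ} {bm : Matrix (Fin k) (Fin n) ℤ} {bp : Matrix (Fin k) (Fin n) ℝ}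
    {l : Fin k → ℕ} (h : RedData C W b bm bp l) :
    grH W ≤ (Nat.factorial k * C ^ k) * 2 ^ (∑ j, l j) ∧
    2 ^ (∑ j, l j) ≤ ((n : ℝ) ^ k * C ^ k) * grH W := by
  classical
  have hC0 : 0 < C := by linarith
  have hlin := linearIndependent_cast (F := ℚ) h.left
  have h1 : grH W = Height.mulHeight (fun S => ((pl b S : ℤ) : ℚ)) := by
    rw [grH_eq W (b.map (Int.castRingHom ℚ)) hlin h.span]
    congr 1
    funext S
    simp only [pl]
    rw [← eq_intCast (Int.castRingHom ℚ) (b.submatrix S id).det, RingHom.map_det]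
    rfl
  have hne : Nonempty (Fin k → Fin n) := by
    by_cases hk : k = 0
    · subst hk
      exact ⟨fun i => i.elim0⟩
    · have hk' : 0 < k := Nat.pos_of_ne_zero hk
      by_cases hn : n = 0
      · subst hn
        exfalso
        have h2 := congrFun (congrFun h.left ⟨0, hk'⟩) ⟨0, hk'⟩
        rw [Matrix.mul_apply] at h2
        simp at h2
      · exact ⟨fun _ => ⟨0, Nat.pos_of_ne_zero hn⟩⟩
  have hgcd : Finset.univ.gcd (pl b) = 1 := by
    have h2 := det_expand bm b
    rw [h.left, Matrix.det_one] at h2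
    have h3 : Finset.univ.gcd (pl b) ∣ 1 := by
      rw [h2]
      exact Finset.dvd_sum fun S _ => Dvd.dvd.mul_left (Finset.gcd_dvd (Finset.mem_univ S)) _
    have h4 := Int.isUnit_iff.1 (isUnit_of_dvd_one h3)
    have h5 : normalize (Finset.univ.gcd (pl b)) = Finset.univ.gcd (pl b) := Finset.normalize_gcd
    rcases h4 with h4 | h4
    · exact h4
    · rw [h4, Int.normalize_of_nonpos (by norm_num)] at h5
      norm_num at h5
  obtain ⟨S0, hS0, hmax⟩ := mulHeight_int (pl b) hgcd
  rw [h1, hS0]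
  have hent : ∀ S, |((pl b S : ℤ) : ℝ)| ≤ (Nat.factorial k * C ^ k) * 2 ^ (∑ j, l j) := by
    intro S
    rw [pl, Matrix.det_apply]
    push_cast
    refine (Finset.abs_sum_le_sum_abs _ _).trans ?_
    have h2 : ∀ σ : Equiv.Perm (Fin k), |((Equiv.Perm.sign σ • ∏ i, (b.submatrix S id) (σ i) i : ℤ) : ℝ)| ≤
        C ^ k * 2 ^ (∑ j, l j) := by
      intro σ
      rw [Units.smul_def, smul_eq_mul]
      push_cast
      rw [abs_mul]
      have h3 : |(((Equiv.Perm.sign σ : ℤˣ) : ℤ) : ℝ)| = 1 := by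
        rcases Int.units_eq_one_or (Equiv.Perm.sign σ) with h4 | h4 <;> simp [h4]
      rw [h3, one_mul, Finset.abs_prod]
      calc ∏ i, |((b.submatrix S id (σ i) i : ℤ) : ℝ)| ≤ ∏ i, (C * 2 ^ l i) :=
            Finset.prod_le_prod (fun i _ => abs_nonneg _) fun i _ => h.up _ _
        _ = C ^ k * 2 ^ (∑ j, l j) := by
            rw [Finset.prod_mul_distrib, Finset.prod_const, Finset.card_univ, Fintype.card_fin,
              Finset.prod_pow_eq_pow_sum]
    refine (Finset.sum_le_sum fun σ _ => h2 σ).trans ?_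
    rw [Finset.sum_const, Finset.card_univ, Fintype.card_perm, Fintype.card_fin, nsmul_eq_mul]
    exact le_of_eq (by ring)
  refine ⟨hent S0, ?_⟩
  have h2 := det_expand bp (b.map (fun z : ℤ => (z : ℝ)))
  rw [h.leftR, Matrix.det_one] at h2
  have h3 : ∀ S, pl (b.map (fun z : ℤ => (z : ℝ))) S = ((pl b S : ℤ) : ℝ) := by
    intro S
    simp only [pl]
    rw [← eq_intCast (Int.castRingHom ℝ) (b.submatrix S id).det, RingHom.map_det]
    rfl
  have h4 : (1 : ℝ) ≤ (n : ℝ) ^ k * ((C ^ k * (2 ^ (∑ j, l j))⁻¹) * |((pl b S0 : ℤ) : ℝ)|) := by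
    calc (1 : ℝ) = |∑ S : Fin k → Fin n, (∏ j, bp j (S j)) * pl (b.map (fun z : ℤ => (z : ℝ))) S| := by
          rw [← h2, abs_one]
      _ ≤ ∑ _S : Fin k → Fin n, (C ^ k * (2 ^ (∑ j, l j))⁻¹) * |((pl b S0 : ℤ) : ℝ)| := by
          refine (Finset.abs_sum_le_sum_abs _ _).trans (Finset.sum_le_sum fun S _ => ?_)
          rw [abs_mul, Finset.abs_prod, h3]
          refine mul_le_mul ?_ (hmax S) (abs_nonneg _) (by positivity)
          calc ∏ j, |bp j (S j)| ≤ ∏ j, (C * (2 ^ l j)⁻¹) :=
                Finset.prod_le_prod (fun i _ => abs_nonneg _) fun i _ => h.low _ _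
            _ = C ^ k * (2 ^ (∑ j, l j))⁻¹ := by
                rw [Finset.prod_mul_distrib, Finset.prod_const, Finset.card_univ, Fintype.card_fin,
                  Finset.prod_inv_distrib, Finset.prod_pow_eq_pow_sum]
      _ = _ := by
          rw [Finset.sum_const, Finset.card_univ, Fintype.card_fun, Fintype.card_fin,
            Fintype.card_fin, nsmul_eq_mul]
          push_cast
          ring
  have h5 : (0 : ℝ) < 2 ^ (∑ j, l j) := by positivity
  calc (2 : ℝ) ^ (∑ j, l j) = 2 ^ (∑ j, l j) * 1 := by ring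
    _ ≤ 2 ^ (∑ j, l j) * ((n : ℝ) ^ k * ((C ^ k * (2 ^ (∑ j, l j))⁻¹) * |((pl b S0 : ℤ) : ℝ)|)) := by
        gcongr
    _ = _ := by
        field_simp

end Pool.Agent.H71.MB
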