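import Mathlib
import Pool.Agent.H71.MB.CountQ
import Pool.Agent.H71.MB.Heights
import Pool.Agent.H71.MB.Count

set_option autoImplicit false

/-! The coordinates of a tensor in a reduced basis. -/

namespace Pool.Agent.H71.MB

open Finset

/-- The coordinates of `ℚ ^ (n 0) ⊕ ... ⊕ ℚ ^ (n (r - 1))`. -/
abbrev Idx {r : ℕ} (n : Fin r → ℕ) := (c : Fin r) × Fin (n c)

/-- Tensors. -/
abbrev Tensor {r : ℕ} (n : Fin r → ℕ) (d m : ℕ) (R : Type) := Ten (Idx n) d (Fin m) R

section

variable {R S : Type} [CommRing R] [CommRing S] {r : ℕ} {n k k' : Fin r → ℕ} {d m : ℕ}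

/-- The action of a family of matrices. -/
def tact (A : ∀ c, Matrix (Fin (n c)) (Fin (k c)) R) (T : Tensor k d m R) : Tensor n d m R :=
  act (Matrix.blockDiagonal' A) T

theorem tact_tact (A : ∀ c, Matrix (Fin (n c)) (Fin (k c)) R)
    (B : ∀ c, Matrix (Fin (k c)) (Fin (k' c)) R) (T : Tensor k' d m R) :
    tact A (tact B T) = tact (fun c => A c * B c) T := by
  rw [tact, tact, tact, act_act, Matrix.blockDiagonal'_mul]

theorem tact_one (T : Tensor k d m R) :
    tact (fun c => (1 : Matrix (Fin (k c)) (Fin (k c)) R)) T = T := by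
  have h : Matrix.blockDiagonal' (fun c => (1 : Matrix (Fin (k c)) (Fin (k c)) R)) = 1 :=
    Matrix.blockDiagonal'_one
  rw [tact, h, act_one]

theorem tact_smul (A : ∀ c, Matrix (Fin (n c)) (Fin (k c)) R) (t : R) (T : Tensor k d m R) :
    tact A (t • T) = t • tact A T := act_smul _ _ _

theorem tact_map (φ : R →+* S) (A : ∀ c, Matrix (Fin (n c)) (Fin (k c)) R) (T : Tensor k d m R)
    (x : (Fin d → Idx n) × Fin m) :
    φ (tact A T x) = tact (fun c => (A c).map φ) (fun y => φ (T y)) x := by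
  rw [tact, act_map, tact, Matrix.blockDiagonal'_map _ _ (map_zero φ)]

theorem isBlock_blockDiagonal' (A : ∀ c, Matrix (Fin (n c)) (Fin (k c)) R) :
    IsBlock (Sigma.fst : Idx n → Fin r) (Sigma.fst : Idx k → Fin r) (Matrix.blockDiagonal' A) := by
  rintro ⟨c, i⟩ ⟨c', j⟩ h
  exact Matrix.blockDiagonal'_apply_ne _ _ _ h

theorem eq_blockDiagonal' (A : Matrix (Idx n) (Idx k) R)
    (hA : IsBlock (Sigma.fst : Idx n → Fin r) (Sigma.fst : Idx k → Fin r) A) :
    A = Matrix.blockDiagonal' fun c => Matrix.of fun i j => A ⟨c, i⟩ ⟨c, j⟩ := by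
  ext ⟨c, i⟩ ⟨c', j⟩
  by_cases h : c = c'
  · subst h
    rw [Matrix.blockDiagonal'_apply_eq]
    rfl
  · rw [Matrix.blockDiagonal'_apply_ne _ _ _ h]
    exact hA _ _ h

end

section Point

variable {r : ℕ} {n k : Fin r → ℕ} {d m : ℕ}

/-- The sizes of the vectors of the bases as a function of the coordinate. -/
def szs {r : ℕ} {k : Fin r → ℕ} (l : ∀ c, Fin (k c) → ℕ) : Idx k → ℕ := fun x => l x.1 x.2

theorem coords_of_point {C : ℝ} (hC : 1 ≤ C) (V : Submodule ℚ (Tensor k d m ℚ))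
    (hV : ∀ g : ∀ c, Matrix (Fin (k c)) (Fin (k c)) ℚ, ∀ q ∈ V, tact g q ∈ V)
    (W : ∀ c, Submodule ℚ (Fin (n c) → ℚ)) (b : ∀ c, Matrix (Fin (n c)) (Fin (k c)) ℤ)
    (bm : ∀ c, Matrix (Fin (k c)) (Fin (n c)) ℤ) (bp : ∀ c, Matrix (Fin (k c)) (Fin (n c)) ℝ)
    (l : ∀ c, Fin (k c) → ℕ) (h : ∀ c, RedData C (W c) (b c) (bm c) (bp c) (l c))
    (T : Tensor n d m ℤ) (b' : ∀ c, Matrix (Fin (n c)) (Fin (k c)) ℚ)
    (hb' : ∀ c, LinearMap.range (b' c).mulVecLin = W c) (q' : Tensor k d m ℚ) (hq' : q' ∈ V)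
    (hT : tact b' q' = fun x => (T x : ℚ)) :
    (fun x => ((tact bm T x : ℤ) : ℚ)) ∈ V ∧ tact b (tact bm T) = T ∧
    ∀ A : ℝ, (∀ y, |(T y : ℝ)| ≤ A) → ∀ x, |((tact bm T x : ℤ) : ℝ)| * 2 ^ pr (szs l) x ≤
      ((Fintype.card (Idx n) : ℝ) ^ d * C ^ d) * A := by
  classical
  set φ := Int.castRingHom ℚ with hφ
  have hbb : ∀ c, (b c).map φ * ((bm c).map φ * b' c) = b' c := by
    intro c
    have h1 : ∀ j, ∃ v, ((b c).map φ).mulVec v = fun i => b' c i j := by
      intro j
      have h2 : (fun i => b' c i j) ∈ W c := by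
        rw [← hb' c]
        refine ⟨Pi.single j 1, ?_⟩
        rw [Matrix.mulVecLin_apply, Matrix.mulVec_single_one]
        rfl
      rw [← (h c).span, span_cols] at h2
      obtain ⟨v, hv⟩ := h2
      exact ⟨v, hv⟩
    choose v hv using h1
    have h3 : b' c = (b c).map φ * Matrix.of fun i j => v j i := by
      ext i j
      rw [Matrix.mul_apply]
      exact (congrFun (hv j) i).symm
    have h4 : (bm c).map φ * (b c).map φ = 1 := by
      rw [← Matrix.map_mul, (h c).left, Matrix.map_one _ (map_zero _) (map_one _)]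
    rw [h3, ← Matrix.mul_assoc ((bm c).map φ), h4, Matrix.one_mul]
  have hbmb : ∀ c, (bm c).map φ * (b c).map φ = 1 := by
    intro c
    rw [← Matrix.map_mul, (h c).left, Matrix.map_one _ (map_zero _) (map_one _)]
  have hq1 : (fun x => ((tact bm T x : ℤ) : ℚ)) = tact (fun c => (bm c).map φ * b' c) q' := by
    rw [← tact_tact, hT]
    funext x
    exact tact_map φ bm T x
  have hq2 : tact (fun c => (b c).map φ) (fun x => ((tact bm T x : ℤ) : ℚ)) = fun x => (T x : ℚ) := by
    rw [hq1, tact_tact, ← hT]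
    congr 1
    funext c
    exact hbb c
  have hq3 : tact b (tact bm T) = T := by
    funext x
    have h1 := tact_map φ b (tact bm T) x
    have h2 := congrFun hq2 x
    have h3 : φ (tact b (tact bm T) x) = φ (T x) := h1.trans h2
    exact Int.cast_injective h3
  refine ⟨?_, hq3, ?_⟩
  · rw [hq1]
    exact hV _ q' hq'
  · intro A hA x
    set ψ := Int.castRingHom ℝ with hψ
    have hbpb : ∀ c, bp c * (b c).map ψ = 1 := fun c => (h c).leftR
    have h1 : (fun x => ((tact bm T x : ℤ) : ℝ)) = tact bp (fun x => (T x : ℝ)) := by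
      have h2 : (fun x => (T x : ℝ)) = tact (fun c => (b c).map ψ)
          (fun x => ((tact bm T x : ℤ) : ℝ)) := by
        funext x
        conv_lhs => rw [← hq3]
        exact tact_map ψ b (tact bm T) x
      rw [h2, tact_tact]
      simp only [hbpb]
      rw [tact_one]
    have h2 : ((tact bm T x : ℤ) : ℝ) = tact bp (fun x => (T x : ℝ)) x := congrFun h1 x
    rw [h2]
    have hC0 : 0 ≤ C := by linarith
    have h3 := abs_act_le (Matrix.blockDiagonal' bp) (fun x => (T x : ℝ))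
      (fun i => C * ((2 : ℝ) ^ szs l i)⁻¹) A (by
        rintro ⟨c, i⟩ ⟨c', j⟩
        by_cases hcc : c = c'
        · subst hcc
          rw [Matrix.blockDiagonal'_apply_eq]
          exact (h c).low i j
        · rw [Matrix.blockDiagonal'_apply_ne _ _ _ hcc, abs_zero]
          positivity) hA x
    have h4 : ∏ s, (C * ((2 : ℝ) ^ szs l (x.1 s))⁻¹) = C ^ d * (2 ^ pr (szs l) x)⁻¹ := by
      rw [Finset.prod_mul_distrib, Finset.prod_const, Finset.card_univ, Fintype.card_fin,
        Finset.prod_inv_distrib, Finset.prod_pow_eq_pow_sum]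
      rfl
    rw [h4] at h3
    have h5 : (0 : ℝ) < 2 ^ pr (szs l) x := by positivity
    calc |tact bp (fun x => (T x : ℝ)) x| * 2 ^ pr (szs l) x
        ≤ ((Fintype.card (Idx n) : ℝ) ^ d * (C ^ d * (2 ^ pr (szs l) x)⁻¹) * A) *
          2 ^ pr (szs l) x := by
          gcongr
          exact h3
      _ = _ := by
          field_simp

end Point

end Pool.Agent.H71.MB
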