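import Mathlib
import Pool.Agent.H71.MB.Point

set_option autoImplicit false

/-! The open subset: polynomials on tensors which avoid the bad strata; semi-invariants. -/

namespace Pool.Agent.H71.MB

open MvPolynomial

section Pull

variable {r : ℕ} {n k : Fin r → ℕ} {d m : ℕ}

/-- The pullback of a polynomial by `tact A`. -/
noncomputable def pull (A : ∀ c, Matrix (Fin (k c)) (Fin (n c)) ℚ)
    (p : MvPolynomial ((Fin d → Idx k) × Fin m) ℚ) : MvPolynomial ((Fin d → Idx n) × Fin m) ℚ :=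
  aeval (fun x : (Fin d → Idx k) × Fin m => ∑ y : Fin d → Idx n,
    C (∏ s, Matrix.blockDiagonal' A (x.1 s) (y s)) * X ((y, x.2) : (Fin d → Idx n) × Fin m)) p

theorem eval_pull (A : ∀ c, Matrix (Fin (k c)) (Fin (n c)) ℚ)
    (p : MvPolynomial ((Fin d → Idx k) × Fin m) ℚ) (T : Tensor n d m ℚ) :
    eval T (pull A p) = eval (tact A T) p := by
  rw [pull, eval_aeval']
  have h : (fun x : (Fin d → Idx k) × Fin m => (eval T) (∑ y : Fin d → Idx n,
      C (∏ s, Matrix.blockDiagonal' A (x.1 s) (y s)) * X ((y, x.2) : (Fin d → Idx n) × Fin m))) =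
      tact A T := by
    funext x
    rw [map_sum, tact, act_apply]
    refine Finset.sum_congr rfl fun y _ => ?_
    rw [map_mul, eval_C, eval_X]
  rw [h]

theorem pull_isHomogeneous (A : ∀ c, Matrix (Fin (k c)) (Fin (n c)) ℚ)
    (p : MvPolynomial ((Fin d → Idx k) × Fin m) ℚ) (D : ℕ) (hp : p.IsHomogeneous D) :
    (pull (n := n) A p).IsHomogeneous D := by
  have h := hp.aeval (fun x : (Fin d → Idx k) × Fin m => ∑ y : Fin d → Idx n,
    C (∏ s, Matrix.blockDiagonal' A (x.1 s) (y s)) * X ((y, x.2) : (Fin d → Idx n) × Fin m)) (n := 1)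
    (fun x => IsHomogeneous.sum _ _ _ fun y _ => isHomogeneous_C_mul_X _ _)
  rw [one_mul] at h
  exact h

end Pull

section Nonvanish

variable {X : Type}

theorem exists_ne_zero_mul (V : Submodule ℚ (X → ℚ)) (P Q : MvPolynomial X ℚ)
    (hP : ∃ q ∈ V, eval q P ≠ 0) (hQ : ∃ q ∈ V, eval q Q ≠ 0) : ∃ q ∈ V, eval q (P * Q) ≠ 0 := by
  obtain ⟨q1, hq1, h1⟩ := hP
  obtain ⟨q2, hq2, h2⟩ := hQ
  -- restrict to the line through `q1` and `q2`
  set L : MvPolynomial X ℚ →ₐ[ℚ] Polynomial ℚ :=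
    aeval fun x => Polynomial.C (q1 x) + Polynomial.X * Polynomial.C (q2 x - q1 x) with hL
  have hLe : ∀ (t : ℚ) (F : MvPolynomial X ℚ), Polynomial.eval t (L F) =
      eval (fun x => q1 x + t * (q2 x - q1 x)) F := by
    intro t F
    induction F using MvPolynomial.induction_on with
    | C c => simp [hL]
    | add p q hp hq => rw [map_add, Polynomial.eval_add, hp, hq, map_add]
    | mul_X p i hp =>
      rw [map_mul, Polynomial.eval_mul, hp, map_mul, eval_X]
      congr 1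
      simp [hL]
  have hLP : L P ≠ 0 := by
    intro h0
    have := hLe 0 P
    rw [h0, Polynomial.eval_zero] at this
    apply h1
    rw [this]
    congr 2
    funext x
    ring
  have hLQ : L Q ≠ 0 := by
    intro h0
    have := hLe 1 Q
    rw [h0, Polynomial.eval_zero] at this
    apply h2
    rw [this]
    congr 2
    funext x
    ring
  have hne : L (P * Q) ≠ 0 := by
    rw [map_mul]
    exact mul_ne_zero hLP hLQ
  obtain ⟨t, ht⟩ : ∃ t : ℚ, Polynomial.eval t (L (P * Q)) ≠ 0 := by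
    by_contra hcon
    push Not at hcon
    exact hne (Polynomial.funext fun t => by rw [hcon, Polynomial.eval_zero])
  rw [hLe] at ht
  refine ⟨_, ?_, ht⟩
  have : (fun x => q1 x + t * (q2 x - q1 x)) = q1 + t • (q2 - q1) := by
    funext x
    simp
  rw [this]
  exact V.add_mem hq1 (V.smul_mem _ (V.sub_mem hq2 hq1))

theorem exists_ne_zero_prod {ι : Type} (V : Submodule ℚ (X → ℚ)) (s : Finset ι)
    (P : ι → MvPolynomial X ℚ) (hP : ∀ i ∈ s, ∃ q ∈ V, eval q (P i) ≠ 0) :
    ∃ q ∈ V, eval q (∏ i ∈ s, P i) ≠ 0 := by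
  classical
  induction s using Finset.induction_on with
  | empty => exact ⟨0, V.zero_mem, by simp⟩
  | insert i s hi ih =>
    rw [Finset.prod_insert hi]
    exact exists_ne_zero_mul V _ _ (hP i (Finset.mem_insert_self _ _))
      (ih fun j hj => hP j (Finset.mem_insert_of_mem hj))

theorem eval_smul_hom {F : MvPolynomial X ℚ} {j : ℕ} (hF : F.IsHomogeneous j) (t : ℚ) (y : X → ℚ) :
    eval (t • y) F = t ^ j * eval y F := by
  rw [eval_eq, eval_eq, Finset.mul_sum]
  refine Finset.sum_congr rfl fun s hs => ?_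
  rw [hF.degree_eq_sum_deg_support hs]
  simp only [Pi.smul_apply, smul_eq_mul, mul_pow, Finset.prod_mul_distrib, Finset.prod_pow_eq_pow_sum]
  ring

/-- The homogeneous components of a polynomial which vanishes on a line vanish there. -/
theorem component_eq_zero (P : MvPolynomial X ℚ) (y : X → ℚ) (h : ∀ t : ℚ, eval (t • y) P = 0)
    (i : ℕ) : eval y (homogeneousComponent i P) = 0 := by
  have hhom : ∀ (j : ℕ) (t : ℚ), eval (t • y) (homogeneousComponent j P) =
      t ^ j * eval y (homogeneousComponent j P) := by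
    intro j t
    exact eval_smul_hom (homogeneousComponent_isHomogeneous j P) t y
  set L : Polynomial ℚ := ∑ j ∈ Finset.range (P.totalDegree + 1),
    Polynomial.C (eval y (homogeneousComponent j P)) * Polynomial.X ^ j with hL
  have hL0 : L = 0 := by
    apply Polynomial.funext
    intro t
    rw [Polynomial.eval_zero, ← h t]
    conv_rhs => rw [← sum_homogeneousComponent P]
    rw [hL, Polynomial.eval_finsetSum, map_sum]
    refine Finset.sum_congr rfl fun j _ => ?_
    rw [hhom]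
    simp
    ring
  by_cases hi : i < P.totalDegree + 1
  · have h1 := congrArg (fun p => Polynomial.coeff p i) hL0
    simp only [hL, Polynomial.finsetSum_coeff, Polynomial.coeff_C_mul, Polynomial.coeff_X_pow,
      Polynomial.coeff_zero] at h1
    rw [Finset.sum_eq_single i] at h1
    · simpa using h1
    · intro j _ hj
      simp [Ne.symm hj]
    · intro h2
      exact absurd (Finset.mem_range.2 hi) h2
  · rw [homogeneousComponent_eq_zero _ _ (by omega), map_zero]

end Nonvanish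

section BadHom

variable {κ μ γ : Type} [Fintype κ] [DecidableEq κ] [Fintype μ] [DecidableEq μ] [DecidableEq γ]
  {d : ℕ}

theorem bad_hom {col : κ → γ} {V : Submodule ℚ (Ten κ d μ ℚ)} {J : Set ((Fin d → κ) × μ)}
    {P : MvPolynomial ((Fin d → κ) × μ) ℚ} (h : Bad col V J P) :
    ∃ i, Bad col V J (homogeneousComponent i P) := by
  obtain ⟨h1, q0, hq0, h2⟩ := h
  obtain ⟨i, hi⟩ : ∃ i, eval q0 (homogeneousComponent i P) ≠ 0 := by
    by_contra hcon
    push Not at hcon
    apply h2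
    rw [← sum_homogeneousComponent P, map_sum]
    exact Finset.sum_eq_zero fun i _ => hcon i
  refine ⟨i, ?_, q0, hq0, hi⟩
  intro g hg q hq hqJ
  refine component_eq_zero P _ (fun t => ?_) i
  rw [← act_smul]
  exact h1 g hg _ (V.smul_mem t hq) fun x hx => by rw [Pi.smul_apply, hqJ x hx, smul_zero]

end BadHom

section OpenPoly

variable {r : ℕ} {n k : Fin r → ℕ} {d m : ℕ}

/-- The inclusion of the first `k c` coordinates. -/
def incl (n k : Fin r → ℕ) : ∀ c, Matrix (Fin (n c)) (Fin (k c)) ℚ :=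
  fun _ => Matrix.of fun i j => if i.val = j.val then 1 else 0

/-- The projection to the first `k c` coordinates. -/
def prj (n k : Fin r → ℕ) : ∀ c, Matrix (Fin (k c)) (Fin (n c)) ℚ :=
  fun _ => Matrix.of fun j i => if i.val = j.val then 1 else 0

theorem prj_incl (hkn : ∀ c, k c ≤ n c) (c : Fin r) : prj n k c * incl n k c = 1 := by
  ext j j'
  rw [Matrix.mul_apply, Matrix.one_apply]
  simp only [prj, incl, Matrix.of_apply]
  rw [Finset.sum_eq_single (⟨j.val, lt_of_lt_of_le j.2 (hkn c)⟩ : Fin (n c))]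
  · simp [Fin.ext_iff]
  · intro i _ hi
    have : ¬ (i.val = j.val) := fun h => hi (Fin.ext h)
    simp [this]
  · simp

theorem exists_open_poly (hkn : ∀ c, k c ≤ n c) (V : Submodule ℚ (Tensor k d m ℚ))
    (f : MvPolynomial ((Fin d → Idx k) × Fin m) ℚ) (M : ℕ) (hf : f.IsHomogeneous M)
    (hf0 : ∃ q ∈ V, eval q f ≠ 0) :
    ∃ (D : ℕ) (P : MvPolynomial ((Fin d → Idx n) × Fin m) ℚ), P.IsHomogeneous D ∧
      (∃ q ∈ V, eval (tact (incl n k) q) P ≠ 0) ∧
      ∀ T : Tensor n d m ℚ, eval T P ≠ 0 → eval (tact (prj n k) T) f ≠ 0 ∧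
        ∀ J P', Bad (Sigma.fst : Idx k → Fin r) V J P' →
          ∃ P'', Bad (Sigma.fst : Idx k → Fin r) V J P'' ∧ eval (tact (prj n k) T) P'' ≠ 0 := by
  classical
  have hch : ∀ J : Set ((Fin d → Idx k) × Fin m), ∃ (DP : ℕ × MvPolynomial ((Fin d → Idx k) × Fin m) ℚ),
      DP.2.IsHomogeneous DP.1 ∧ (∃ q ∈ V, eval q DP.2 ≠ 0) ∧
      ((∃ P', Bad (Sigma.fst : Idx k → Fin r) V J P') → Bad (Sigma.fst : Idx k → Fin r) V J DP.2) := by
    intro J
    by_cases h : ∃ P', Bad (Sigma.fst : Idx k → Fin r) V J P'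
    · obtain ⟨P', hP'⟩ := h
      obtain ⟨i, hi⟩ := bad_hom hP'
      exact ⟨⟨i, _⟩, homogeneousComponent_isHomogeneous i P', hi.2, fun _ => hi⟩
    · exact ⟨⟨0, 1⟩, isHomogeneous_one _ _, ⟨0, V.zero_mem, by simp⟩, fun h' => absurd h' h⟩
  choose DP h1 h2 h3 using hch
  set Q : MvPolynomial ((Fin d → Idx k) × Fin m) ℚ :=
    f * ∏ J : Set ((Fin d → Idx k) × Fin m), (DP J).2 with hQ
  have hQh : Q.IsHomogeneous (M + ∑ J : Set ((Fin d → Idx k) × Fin m), (DP J).1) :=
    hf.mul (IsHomogeneous.prod _ _ _ fun J _ => h1 J)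
  refine ⟨_, pull (prj n k) Q, pull_isHomogeneous _ _ _ hQh, ?_, ?_⟩
  · obtain ⟨q, hq, hqQ⟩ := exists_ne_zero_mul V f (∏ J : Set ((Fin d → Idx k) × Fin m), (DP J).2) hf0
      (exists_ne_zero_prod V _ _ fun J _ => h2 J)
    refine ⟨q, hq, ?_⟩
    rw [eval_pull, tact_tact]
    have : (fun c => prj n k c * incl n k c) = fun c => 1 := funext (prj_incl hkn)
    rw [this, tact_one]
    exact hqQ
  · intro T hT
    rw [eval_pull, hQ, map_mul, map_prod] at hT
    refine ⟨left_ne_zero_of_mul hT, fun J P' hP' => ⟨(DP J).2, h3 J ⟨P', hP'⟩, ?_⟩⟩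
    have h4 := right_ne_zero_of_mul hT
    exact Finset.prod_ne_zero_iff.1 h4 J (Finset.mem_univ _)

/-- If `P(T) ≠ 0` then the support of the coordinates of `T` is not bad. -/
theorem not_bad_of_open (V : Submodule ℚ (Tensor k d m ℚ)) (J : Set ((Fin d → Idx k) × Fin m))
    (T : Tensor n d m ℚ)
    (hT : ∀ P', Bad (Sigma.fst : Idx k → Fin r) V J P' →
          ∃ P'', Bad (Sigma.fst : Idx k → Fin r) V J P'' ∧ eval (tact (prj n k) T) P'' ≠ 0)
    (b : ∀ c, Matrix (Fin (n c)) (Fin (k c)) ℚ) (q : Tensor k d m ℚ) (hq : q ∈ V)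
    (hqJ : ∀ x, x ∉ J → q x = 0) (hTq : tact b q = T) :
    ∀ P', ¬ Bad (Sigma.fst : Idx k → Fin r) V J P' := by
  intro P' hP'
  obtain ⟨P'', hP'', hne⟩ := hT P' hP'
  apply hne
  rw [← hTq, tact_tact]
  exact hP''.1 _ (isBlock_blockDiagonal' _) q hq hqJ

end OpenPoly

section Semi

theorem eval_int_bounds {X : Type} [Fintype X] (f : MvPolynomial X ℚ) (M : ℕ)
    (hf : f.IsHomogeneous M) : ∃ (Cf : ℝ) (D : ℕ), 0 ≤ Cf ∧ 0 < D ∧
      (∀ (p : X → ℤ) (A : ℝ), (∀ x, |(p x : ℝ)| ≤ A) →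
        |((eval (fun x => (p x : ℚ)) f : ℚ) : ℝ)| ≤ Cf * A ^ M) ∧
      ∀ q : X → ℤ, eval (fun x => (q x : ℚ)) f ≠ 0 →
        (1 : ℝ) ≤ D * |((eval (fun x => (q x : ℚ)) f : ℚ) : ℝ)| := by
  classical
  refine ⟨∑ s ∈ f.support, |((coeff s f : ℚ) : ℝ)|, ∏ s ∈ f.support, (coeff s f).den,
    Finset.sum_nonneg fun s _ => abs_nonneg _, Finset.prod_pos fun s _ => (coeff s f).pos, ?_, ?_⟩
  · intro p A hA
    rw [eval_eq]
    push_cast
    refine (Finset.abs_sum_le_sum_abs _ _).trans ?_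
    rw [Finset.sum_mul]
    refine Finset.sum_le_sum fun s hs => ?_
    rw [abs_mul]
    gcongr
    rw [Finset.abs_prod, hf.degree_eq_sum_deg_support hs, ← Finset.prod_pow_eq_pow_sum]
    refine Finset.prod_le_prod (fun i _ => abs_nonneg _) fun i _ => ?_
    rw [abs_pow]
    gcongr
    exact hA i
  · intro q hq
    set D : ℕ := ∏ s ∈ f.support, (coeff s f).den with hD
    have hint : ∃ z : ℤ, (z : ℚ) = D * eval (fun x => (q x : ℚ)) f := by
      refine ⟨∑ s ∈ f.support, ((∏ s' ∈ f.support.erase s, (coeff s' f).den : ℕ) : ℤ) *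
        (coeff s f).num * ∏ i ∈ s.support, q i ^ s i, ?_⟩
      rw [eval_eq, Finset.mul_sum]
      push_cast
      refine Finset.sum_congr rfl fun s hs => ?_
      have h1 : (D : ℚ) = (∏ s' ∈ f.support.erase s, ((coeff s' f).den : ℚ)) * (coeff s f).den := by
        rw [hD, ← Finset.prod_erase_mul _ _ hs]
        push_cast
        rfl
      rw [h1]
      have h2 := Rat.den_mul_eq_num (coeff s f)
      rw [← h2]
      ring
    obtain ⟨z, hz⟩ := hint
    have hD0 : (D : ℚ) ≠ 0 := by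
      rw [hD]
      push_cast
      exact Finset.prod_ne_zero_iff.2 fun i _ => by exact_mod_cast (coeff i f).den_nz
    have hz0 : z ≠ 0 := by
      intro h0
      rw [h0, Int.cast_zero] at hz
      exact mul_ne_zero hD0 hq hz.symm
    have h1 : (1 : ℤ) ≤ |z| := Int.one_le_abs hz0
    have h2 : ((|z| : ℤ) : ℚ) = D * |eval (fun x => (q x : ℚ)) f| := by
      rw [Int.cast_abs, hz, abs_mul, Nat.abs_cast]
    have h3 : (1 : ℚ) ≤ D * |eval (fun x => (q x : ℚ)) f| := by
      rw [← h2]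
      exact_mod_cast h1
    exact_mod_cast h3

variable {r : ℕ} {k : Fin r → ℕ} {d m : ℕ}

theorem semi_bound (V : Submodule ℚ (Tensor k d m ℚ))
    (f : MvPolynomial ((Fin d → Idx k) × Fin m) ℚ) (M : ℕ) (hf : f.IsHomogeneous M)
    (e : Fin r → ℕ) (hinv : ∀ g : ∀ c, Matrix (Fin (k c)) (Fin (k c)) ℚ, ∀ q ∈ V,
      eval (tact g q) f = (∏ c, (g c).det ^ e c) * eval q f) :
    ∃ K : ℝ, 0 < K ∧ ∀ (l : ∀ c, Fin (k c) → ℕ) (q : Tensor k d m ℤ) (A : ℝ),
      (fun x => (q x : ℚ)) ∈ V → eval (fun x => (q x : ℚ)) f ≠ 0 →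
      (∀ x, |(q x : ℝ)| * 2 ^ pr (szs l) x ≤ A) → (2 : ℝ) ^ (∑ c, e c * ∑ j, l c j) ≤ K * A ^ M := by
  classical
  obtain ⟨Cf, D, hCf, hD, hup, hlow⟩ := eval_int_bounds f M hf
  refine ⟨D * Cf + 1, by positivity, ?_⟩
  intro l q A hqV hq0 hA
  have hA0 : 0 ≤ A ^ M := by
    by_cases hX : Nonempty ((Fin d → Idx k) × Fin m)
    · obtain ⟨x⟩ := hX
      have : 0 ≤ A := le_trans (by positivity) (hA x)
      positivity
    · have hM : M = 0 := by
        by_contra hM
        apply hq0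
        have : IsEmpty ((Fin d → Idx k) × Fin m) := not_nonempty_iff.1 hX
        have hf0 : f = 0 := by
          by_contra hne
          exact hM ((isHomogeneous_of_isEmpty _ _ f).inj_right hf hne).symm
        rw [hf0, map_zero]
      rw [hM, pow_zero]
      exact zero_le_one
  have h1 := hinv (fun c => Matrix.diagonal fun j => (2 : ℚ) ^ l c j) _ hqV
  have h2 : tact (fun c => Matrix.diagonal fun j => (2 : ℚ) ^ l c j) (fun x => (q x : ℚ)) =
      fun x => (((2 ^ pr (szs l) x * q x : ℤ)) : ℚ) := by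
    funext x
    rw [tact, Matrix.blockDiagonal'_diagonal (fun c => fun j => (2 : ℚ) ^ l c j), act_diagonal,
      Finset.prod_pow_eq_pow_sum]
    push_cast
    rfl
  have h3 : (∏ c, (Matrix.diagonal fun j => (2 : ℚ) ^ l c j).det ^ e c) =
      2 ^ (∑ c, e c * ∑ j, l c j) := by
    rw [← Finset.prod_pow_eq_pow_sum]
    refine Finset.prod_congr rfl fun c _ => ?_
    rw [Matrix.det_diagonal, Finset.prod_pow_eq_pow_sum, ← pow_mul, mul_comm]
  rw [h2, h3] at h1
  have h4 := hup (fun x => 2 ^ pr (szs l) x * q x) A (by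
    intro x
    push_cast
    rw [abs_mul, abs_of_nonneg (by positivity : (0 : ℝ) ≤ 2 ^ pr (szs l) x), mul_comm]
    exact hA x)
  rw [h1] at h4
  push_cast at h4
  rw [abs_mul, abs_of_nonneg (by positivity : (0 : ℝ) ≤ 2 ^ (∑ c, e c * ∑ j, l c j))] at h4
  have h5 := hlow q hq0
  have h6 : (0 : ℝ) < 2 ^ (∑ c, e c * ∑ j, l c j) := by positivity
  calc (2 : ℝ) ^ (∑ c, e c * ∑ j, l c j)
      ≤ 2 ^ (∑ c, e c * ∑ j, l c j) * (D * |((eval (fun x => (q x : ℚ)) f : ℚ) : ℝ)|) := by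
        nlinarith
    _ = D * (2 ^ (∑ c, e c * ∑ j, l c j) * |((eval (fun x => (q x : ℚ)) f : ℚ) : ℝ)|) := by ring
    _ ≤ D * (Cf * A ^ M) := by gcongr
    _ ≤ (D * Cf + 1) * A ^ M := by nlinarith

end Semi

end Pool.Agent.H71.MB
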