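import Mathlib
import Pool.Agent.H71.MB.Open

set_option autoImplicit false

/-! From invertible matrices to all matrices. -/

namespace Pool.Agent.H71.MB

variable {r : ℕ} {k : Fin r → ℕ} {d m : ℕ}

/-- The family of matrices `g + X`. -/
noncomputable def gX (g : ∀ c, Matrix (Fin (k c)) (Fin (k c)) ℚ) (c : Fin r) :
    Matrix (Fin (k c)) (Fin (k c)) (Polynomial ℚ) :=
  (g c).map Polynomial.C + (Polynomial.X : Polynomial ℚ) • 1

theorem det_gX_ne (g : ∀ c, Matrix (Fin (k c)) (Fin (k c)) ℚ) (c : Fin r) : (gX g c).det ≠ 0 := by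
  have h : gX g c = (-(g c)).charmatrix := by
    rw [Matrix.charmatrix, gX]
    ext i j
    by_cases hij : i = j
    · subst hij
      simp [Matrix.scalar_apply, add_comm]
    · simp [Matrix.scalar_apply, hij]
  rw [h]
  exact (Matrix.charpoly_monic (-(g c))).ne_zero

theorem gX_map (g : ∀ c, Matrix (Fin (k c)) (Fin (k c)) ℚ) (t : ℚ) (c : Fin r) :
    (gX g c).map (Polynomial.evalRingHom t) = g c + t • 1 := by
  ext i j
  by_cases hij : i = j
  · subst hij
    simp [gX]
  · simp [gX, hij]

theorem stable_all (V : Submodule ℚ (Tensor k d m ℚ))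
    (hV : ∀ g : ∀ c, Matrix (Fin (k c)) (Fin (k c)) ℚ, (∀ c, (g c).det ≠ 0) →
      ∀ q ∈ V, tact g q ∈ V) :
    ∀ g : ∀ c, Matrix (Fin (k c)) (Fin (k c)) ℚ, ∀ q ∈ V, tact g q ∈ V := by
  classical
  intro g q hq
  by_contra hnot
  obtain ⟨ψ, hψ1, hψ2⟩ := Submodule.exists_le_ker_of_notMem hnot
  have hψs : ∀ y : Tensor k d m ℚ, ψ y = ∑ x, ψ (Pi.single x 1) * y x := by
    intro y
    conv_lhs => rw [pi_eq_sum_univ' y, map_sum]
    refine Finset.sum_congr rfl fun z _ => ?_
    rw [map_smul, smul_eq_mul, mul_comm]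
  set F : Polynomial ℚ := ∑ x, Polynomial.C (ψ (Pi.single x 1)) *
    tact (gX g) (fun y => Polynomial.C (q y)) x with hF
  have hFe : ∀ t : ℚ, F.eval t = ψ (tact (fun c => g c + t • 1) q) := by
    intro t
    rw [hψs, hF, Polynomial.eval_finsetSum]
    refine Finset.sum_congr rfl fun x _ => ?_
    rw [Polynomial.eval_mul, Polynomial.eval_C]
    congr 1
    have h1 := tact_map (Polynomial.evalRingHom t) (gX g) (fun y => Polynomial.C (q y)) x
    rw [Polynomial.coe_evalRingHom] at h1
    rw [h1]
    have h2 : (fun c => (gX g c).map (Polynomial.eval t)) = fun c => g c + t • 1 :=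
      funext fun c => gX_map g t c
    rw [h2]
    simp
  have hprod : F * ∏ c, (gX g c).det = 0 := by
    apply Polynomial.funext
    intro t
    rw [Polynomial.eval_mul, Polynomial.eval_zero, Polynomial.eval_prod]
    by_cases hall : ∀ c, (g c + t • 1).det ≠ 0
    · rw [hFe, hψ2 (hV _ hall q hq), zero_mul]
    · push Not at hall
      obtain ⟨c, hc⟩ := hall
      rw [Finset.prod_eq_zero (Finset.mem_univ c), mul_zero]
      have h1 := RingHom.map_det (Polynomial.evalRingHom t) (gX g c)
      rw [RingHom.mapMatrix_apply, gX_map, hc] at h1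
      exact h1
  have hF0 : F = 0 := by
    rcases mul_eq_zero.1 hprod with h | h
    · exact h
    · exact absurd h (Finset.prod_ne_zero_iff.2 fun c _ => det_gX_ne g c)
  have h1 := hFe 0
  rw [hF0, Polynomial.eval_zero] at h1
  apply hψ1
  rw [h1]
  congr 2
  funext c
  rw [zero_smul, add_zero]

theorem semi_all (V : Submodule ℚ (Tensor k d m ℚ))
    (f : MvPolynomial ((Fin d → Idx k) × Fin m) ℚ) (e : Fin r → ℕ)
    (hinv : ∀ g : ∀ c, Matrix (Fin (k c)) (Fin (k c)) ℚ, (∀ c, (g c).det ≠ 0) → ∀ q ∈ V,
      MvPolynomial.eval (tact g q) f = (∏ c, (g c).det ^ e c) * MvPolynomial.eval q f) :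
    ∀ g : ∀ c, Matrix (Fin (k c)) (Fin (k c)) ℚ, ∀ q ∈ V,
      MvPolynomial.eval (tact g q) f = (∏ c, (g c).det ^ e c) * MvPolynomial.eval q f := by
  classical
  intro g q hq
  set F : Polynomial ℚ := MvPolynomial.aeval (tact (gX g) (fun y => Polynomial.C (q y))) f -
    (∏ c, (gX g c).det ^ e c) * Polynomial.C (MvPolynomial.eval q f) with hF
  have hdete : ∀ (t : ℚ) (c : Fin r), ((gX g c).det).eval t = (g c + t • 1).det := by
    intro t c
    have h1 := RingHom.map_det (Polynomial.evalRingHom t) (gX g c)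
    rw [RingHom.mapMatrix_apply, gX_map] at h1
    exact h1
  have hFe : ∀ t : ℚ, F.eval t = MvPolynomial.eval (tact (fun c => g c + t • 1) q) f -
      (∏ c, (g c + t • 1).det ^ e c) * MvPolynomial.eval q f := by
    intro t
    rw [hF, Polynomial.eval_sub, Polynomial.eval_mul, Polynomial.eval_C, Polynomial.eval_prod]
    simp only [Polynomial.eval_pow, hdete]
    congr 1
    have h2 : ∀ p : MvPolynomial ((Fin d → Idx k) × Fin m) ℚ,
        (MvPolynomial.aeval (tact (gX g) (fun y => Polynomial.C (q y))) p).eval t =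
        MvPolynomial.eval (tact (fun c => g c + t • 1) q) p := by
      intro p
      induction p using MvPolynomial.induction_on with
      | C c => simp
      | add p q hp hq => rw [map_add, Polynomial.eval_add, hp, hq, map_add]
      | mul_X p x hp =>
        rw [map_mul, Polynomial.eval_mul, hp, map_mul, MvPolynomial.eval_X, MvPolynomial.aeval_X]
        congr 1
        have h1 := tact_map (Polynomial.evalRingHom t) (gX g) (fun y => Polynomial.C (q y)) x
        rw [Polynomial.coe_evalRingHom] at h1
        rw [h1]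
        have h2 : (fun c => (gX g c).map (Polynomial.eval t)) = fun c => g c + t • 1 :=
          funext fun c => gX_map g t c
        rw [h2]
        simp
    exact h2 f
  have hprod : F * ∏ c, (gX g c).det = 0 := by
    apply Polynomial.funext
    intro t
    rw [Polynomial.eval_mul, Polynomial.eval_zero, Polynomial.eval_prod]
    by_cases hall : ∀ c, (g c + t • 1).det ≠ 0
    · rw [hFe, hinv _ hall q hq, sub_self, zero_mul]
    · push Not at hall
      obtain ⟨c, hc⟩ := hall
      rw [Finset.prod_eq_zero (Finset.mem_univ c), mul_zero]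
      rw [hdete, hc]
  have hF0 : F = 0 := by
    rcases mul_eq_zero.1 hprod with h | h
    · exact h
    · exact absurd h (Finset.prod_ne_zero_iff.2 fun c _ => det_gX_ne g c)
  have h1 := hFe 0
  rw [hF0, Polynomial.eval_zero] at h1
  have h2 : (fun c => g c + (0 : ℚ) • 1) = g := funext fun c => by rw [zero_smul, add_zero]
  have h3 : ∀ c, g c + (0 : ℚ) • 1 = g c := fun c => congrFun h2 c
  rw [h2] at h1
  simp only [h3] at h1
  linarith

end Pool.Agent.H71.MB
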