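import Mathlib
import Pool.Agent.H71.MB.Open
import Pool.Agent.H71.MB.Weights

set_option autoImplicit false

/-! Relations between the weights and the degrees. -/

namespace Pool.Agent.H71.MB

open MvPolynomial

variable {r : ℕ} {n k : Fin r → ℕ} {d m N : ℕ}

theorem isBlock_stable (V : Submodule ℚ (Tensor k d m ℚ))
    (hV : ∀ g : ∀ c, Matrix (Fin (k c)) (Fin (k c)) ℚ, ∀ q ∈ V, tact g q ∈ V) :
    ∀ g : Matrix (Idx k) (Idx k) ℚ, IsBlock (Sigma.fst : Idx k → Fin r) (Sigma.fst : Idx k → Fin r) g →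
      ∀ q ∈ V, act g q ∈ V := by
  intro g hg q hq
  rw [eq_blockDiagonal' g hg]
  exact hV _ q hq

theorem sum_pr (ν : Fin N → (Fin d → Idx k) × Fin m) (l : Idx k → ℕ) :
    ∑ i, pr l (ν i) = ∑ x, l x * wt ν x := by
  classical
  simp only [wt, Finset.mul_sum]
  rw [Finset.sum_comm]
  refine Finset.sum_congr rfl fun i _ => ?_
  rw [pr, ← Finset.sum_fiberwise Finset.univ (fun s => (ν i).1 s) (fun s => l ((ν i).1 s))]
  refine Finset.sum_congr rfl fun x _ => ?_
  rw [Finset.sum_congr rfl (g := fun _ => l x) (fun s hs => by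
    rw [(Finset.mem_filter.1 hs).2]), Finset.sum_const, smul_eq_mul, mul_comm]

theorem wt_mul (V : Submodule ℚ (Tensor k d m ℚ))
    (hV : ∀ g : ∀ c, Matrix (Fin (k c)) (Fin (k c)) ℚ, ∀ q ∈ V, tact g q ∈ V)
    (δ : Fin r → ℕ) (hδ : ∀ q ∈ V, ∀ x, q x ≠ 0 → ∀ c,
      (Finset.univ.filter fun s => (x.1 s).1 = c).card = δ c)
    (ν : Fin N → (Fin d → Idx k) × Fin m) (hinj : ∀ q ∈ V, (∀ i, q (ν i) = 0) → q = 0)
    (hsurj : ∀ z : Fin N → ℚ, ∃ q ∈ V, ∀ i, q (ν i) = z i) (x : Idx k) :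
    k x.1 * wt ν x = N * δ x.1 := by
  classical
  have h1 : ∀ i, ∀ c, (Finset.univ.filter fun s => ((ν i).1 s).1 = c).card = δ c := by
    intro i c
    obtain ⟨q, hq, hqi⟩ := hsurj fun _ => 1
    exact hδ q hq (ν i) (by rw [hqi]; exact one_ne_zero) c
  have h2 : ∑ j, wt ν ⟨x.1, j⟩ = N * δ x.1 := by
    simp only [wt]
    rw [Finset.sum_comm]
    have h3 : ∀ i, ∑ j, (Finset.univ.filter fun s => (ν i).1 s = ⟨x.1, j⟩).card = δ x.1 := by
      intro i
      rw [← h1 i x.1, ← Finset.card_biUnion]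
      · congr 1
        ext s
        simp only [Finset.mem_biUnion, Finset.mem_univ, true_and, Finset.mem_filter]
        constructor
        · rintro ⟨j, hj⟩
          rw [hj]
        · intro h
          obtain ⟨c, j⟩ := x
          generalize hy : (ν i).1 s = y at h
          obtain ⟨c', j'⟩ := y
          simp only at h
          subst h
          exact ⟨j', rfl⟩
      · intro j _ j' _ hjj
        refine Finset.disjoint_left.2 ?_
        intro s hs hs'
        have h4 : (ν i).1 s = ⟨x.1, j⟩ := (Finset.mem_filter.1 hs).2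
        have h5 : (ν i).1 s = ⟨x.1, j'⟩ := (Finset.mem_filter.1 hs').2
        rw [h4] at h5
        simp at h5
        exact hjj h5
    simp only [h3]
    simp
  have h3 : ∀ j, wt ν ⟨x.1, j⟩ = wt ν x := fun j =>
    wt_eq (Sigma.fst : Idx k → Fin r) V (isBlock_stable V hV) ν hinj hsurj _ _ rfl
  simp only [h3] at h2
  simpa using h2

theorem degree_relation (V : Submodule ℚ (Tensor k d m ℚ))
    (δ : Fin r → ℕ) (hδ : ∀ q ∈ V, ∀ x, q x ≠ 0 → ∀ c,
      (Finset.univ.filter fun s => (x.1 s).1 = c).card = δ c)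
    (f : MvPolynomial ((Fin d → Idx k) × Fin m) ℚ) (M : ℕ) (hf : f.IsHomogeneous M)
    (hf0 : ∃ q ∈ V, eval q f ≠ 0)
    (e : Fin r → ℕ) (hinv : ∀ g : ∀ c, Matrix (Fin (k c)) (Fin (k c)) ℚ, ∀ q ∈ V,
      eval (tact g q) f = (∏ c, (g c).det ^ e c) * eval q f) (c : Fin r) :
    M * δ c = k c * e c := by
  classical
  obtain ⟨q, hq, hq0⟩ := hf0
  set t : ∀ c', Fin (k c') → ℚ := fun c' _ => if c' = c then 2 else 1 with ht
  have h1 := hinv (fun c' => Matrix.diagonal (t c')) q hq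
  have h2 : tact (fun c' => Matrix.diagonal (t c')) q = (2 : ℚ) ^ δ c • q := by
    funext x
    rw [tact, Matrix.blockDiagonal'_diagonal, act_diagonal, Pi.smul_apply, smul_eq_mul]
    by_cases hx : q x = 0
    · rw [hx, mul_zero, mul_zero]
    · congr 1
      simp only [ht]
      rw [Finset.prod_ite, Finset.prod_const, Finset.prod_const_one, mul_one, hδ q hq x hx c]
  have h3 : (∏ c', (Matrix.diagonal (t c')).det ^ e c') = (2 : ℚ) ^ (k c * e c) := by
    rw [Finset.prod_eq_single c]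
    · rw [Matrix.det_diagonal]
      simp [ht, pow_mul]
    · intro c' _ hc'
      rw [Matrix.det_diagonal]
      simp [ht, hc']
    · simp
  rw [h2, h3, eval_smul_hom hf, ← pow_mul] at h1
  have h4 := mul_right_cancel₀ hq0 h1
  have h5 : δ c * M = k c * e c :=
    pow_right_injective₀ (by norm_num : (0 : ℚ) < 2) (by norm_num) h4
  rw [← h5, mul_comm]

/-- For real coefficients. -/
theorem uniC_eq (l : ∀ c, Fin (k c) → ℕ) : uniC (Sigma.fst : Idx k → Fin r) (szs l) = ∑ c, uni (l c) := by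
  classical
  rw [uniC, Fintype.sum_prod_type, Fintype.sum_sigma]
  refine Finset.sum_congr rfl fun c _ => ?_
  rw [uni]
  refine Finset.sum_congr rfl fun i _ => ?_
  rw [Fintype.sum_sigma, Finset.sum_eq_single c]
  · simp [szs]
  · intro c' _ hc'
    simp [Ne.symm hc']
  · simp

end Pool.Agent.H71.MB
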