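import Mathlib
import Pool.Agent.H71.MB.Rel

set_option autoImplicit false

/-! The number of points in a class. -/

namespace Pool.Agent.H71.MB

open MvPolynomial

variable {r : ℕ} {n k : Fin r → ℕ} {d m : ℕ}

/-- The points `(W, [T])`. -/
def IsPt (V : Submodule ℚ (Tensor k d m ℚ))
    (x : (∀ c, Submodule ℚ (Fin (n c) → ℚ)) × Projectivization ℚ (Tensor n d m ℚ)) : Prop :=
  (∀ c, Module.finrank ℚ (x.1 c) = k c) ∧
    ∃ b : ∀ c, Matrix (Fin (n c)) (Fin (k c)) ℚ, (∀ c, LinearMap.range (b c).mulVecLin = x.1 c) ∧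
      ∃ q ∈ V, tact b q = x.2.rep

theorem RedData.mono_C {C C' : ℝ} (hCC : C ≤ C') {n k : ℕ} {W : Submodule ℚ (Fin n → ℚ)}
    {b : Matrix (Fin n) (Fin k) ℤ} {bm : Matrix (Fin k) (Fin n) ℤ} {bp : Matrix (Fin k) (Fin n) ℝ}
    {l : Fin k → ℕ} (h : RedData C W b bm bp l) : RedData C' W b bm bp l :=
  ⟨h.left, h.span, h.leftR, h.mono, fun i j => (h.up i j).trans (by gcongr),
    fun j i => (h.low j i).trans (by gcongr)⟩

/-- A choice of reduced bases for all subspaces. -/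
theorem exists_redFun (n k : Fin r → ℕ) : ∃ (C : ℝ) (Bf : ∀ c, Submodule ℚ (Fin (n c) → ℚ) →
      Matrix (Fin (n c)) (Fin (k c)) ℤ) (Bm : ∀ c, Submodule ℚ (Fin (n c) → ℚ) →
      Matrix (Fin (k c)) (Fin (n c)) ℤ) (Bp : ∀ c, Submodule ℚ (Fin (n c) → ℚ) →
      Matrix (Fin (k c)) (Fin (n c)) ℝ) (lf : ∀ c, Submodule ℚ (Fin (n c) → ℚ) → Fin (k c) → ℕ),
      1 ≤ C ∧ ∀ (c : Fin r) (W : Submodule ℚ (Fin (n c) → ℚ)), Module.finrank ℚ W = k c → RedData C W (Bf c W) (Bm c W) (Bp c W) (lf c W) := by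
  choose C hC h using fun c => exists_redData (n c) (k c)
  have h' : ∀ c, ∀ W : Submodule ℚ (Fin (n c) → ℚ), ∃ (b : Matrix (Fin (n c)) (Fin (k c)) ℤ)
      (bm : Matrix (Fin (k c)) (Fin (n c)) ℤ) (bp : Matrix (Fin (k c)) (Fin (n c)) ℝ)
      (l : Fin (k c) → ℕ), Module.finrank ℚ W = k c → RedData (C c) W b bm bp l := by
    intro c W
    by_cases hW : Module.finrank ℚ W = k c
    · obtain ⟨b, bm, bp, l, hh⟩ := h c W hW
      exact ⟨b, bm, bp, l, fun _ => hh⟩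
    · exact ⟨0, 0, 0, 0, fun hW' => absurd hW' hW⟩
  choose b bm bp l hh using h'
  refine ⟨1 + ∑ c, C c, b, bm, bp, l, ?_, fun c W hW => (hh c W hW).mono_C ?_⟩
  · have : 0 ≤ ∑ c, C c := Finset.sum_nonneg fun c _ => by linarith [hC c]
    linarith
  · have : C c ≤ ∑ c, C c := Finset.single_le_sum (fun c _ => by linarith [hC c]) (Finset.mem_univ c)
    linarith

/-- The class of a point and the coordinates of its tensor. -/
theorem exists_class (V : Submodule ℚ (Tensor k d m ℚ))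
    (hV : ∀ g : ∀ c, Matrix (Fin (k c)) (Fin (k c)) ℚ, ∀ q ∈ V, tact g q ∈ V)
    (f : MvPolynomial ((Fin d → Idx k) × Fin m) ℚ)
    (e : Fin r → ℕ) (hinv : ∀ g : ∀ c, Matrix (Fin (k c)) (Fin (k c)) ℚ, ∀ q ∈ V,
      eval (tact g q) f = (∏ c, (g c).det ^ e c) * eval q f)
    (C : ℝ) (hC : 1 ≤ C) (Bf : ∀ c, Submodule ℚ (Fin (n c) → ℚ) →
      Matrix (Fin (n c)) (Fin (k c)) ℤ) (Bm : ∀ c, Submodule ℚ (Fin (n c) → ℚ) →
      Matrix (Fin (k c)) (Fin (n c)) ℤ) (Bp : ∀ c, Submodule ℚ (Fin (n c) → ℚ) →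
      Matrix (Fin (k c)) (Fin (n c)) ℝ) (lf : ∀ c, Submodule ℚ (Fin (n c) → ℚ) → Fin (k c) → ℕ)
    (hred : ∀ (c : Fin r) (W : Submodule ℚ (Fin (n c) → ℚ)), Module.finrank ℚ W = k c → RedData C W (Bf c W) (Bm c W) (Bp c W) (lf c W))
    (D : ℕ) (P : MvPolynomial ((Fin d → Idx n) × Fin m) ℚ) (hPh : P.IsHomogeneous D)
    (hP : ∀ T : Tensor n d m ℚ, eval T P ≠ 0 → eval (tact (prj n k) T) f ≠ 0 ∧
        ∀ J P', Bad (Sigma.fst : Idx k → Fin r) V J P' →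
          ∃ P'', Bad (Sigma.fst : Idx k → Fin r) V J P'' ∧ eval (tact (prj n k) T) P'' ≠ 0)
    (κ0 : ℕ) (hκ0 : (Fintype.card (Idx n) : ℝ) ^ d * C ^ d ≤ 2 ^ κ0)
    (x : (∀ c, Submodule ℚ (Fin (n c) → ℚ)) × Projectivization ℚ (Tensor n d m ℚ))
    (hx : IsPt V x) (hxP : eval x.2.rep P ≠ 0) :
    ∃ (q : Tensor k d m ℤ) (ρ : ℕ) (l : ∀ c, Fin (k c) → ℕ), l = (fun c => lf c (x.1 c)) ∧
      (2 : ℝ) ^ ρ ≤ x.2.mulHeight ∧ x.2.mulHeight ≤ 2 ^ (ρ + 1) ∧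
      (fun y => (q y : ℚ)) ∈ V ∧ (∀ y, |q y| * 2 ^ pr (szs l) y ≤ 2 ^ (ρ + κ0 + 1)) ∧
      eval (fun y => (q y : ℚ)) f ≠ 0 ∧
      (∀ P', ¬ Bad (Sigma.fst : Idx k → Fin r) V {y | pr (szs l) y ≤ ρ + κ0 + 1} P') ∧
      ∃ t : ℚ, x.2.rep = t • fun y => ((tact (fun c => Bf c (x.1 c)) q y : ℤ) : ℚ) := by
  classical
  obtain ⟨hfin, b', hb', q', hq', hT'⟩ := hx
  have hrep : x.2.rep ≠ 0 := x.2.rep_nonzero
  obtain ⟨T, hgcd, t, ht, hTt⟩ := exists_primitive x.2.rep hrep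
  have hred' : ∀ c, RedData C (x.1 c) (Bf c (x.1 c)) (Bm c (x.1 c)) (Bp c (x.1 c)) (lf c (x.1 c)) :=
    fun c => hred c _ (hfin c)
  have hTq : tact b' (t⁻¹ • q') = fun y => (T y : ℚ) := by
    rw [tact_smul, hT', hTt, smul_smul, inv_mul_cancel₀ ht, one_smul]
  obtain ⟨h1, h2, h3⟩ := coords_of_point hC V hV x.1 _ _ _ _ hred' T b' hb' (t⁻¹ • q')
    (V.smul_mem _ hq') hTq
  -- the height
  have hne : Nonempty ((Fin d → Idx n) × Fin m) := by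
    obtain ⟨y, hy⟩ := Function.ne_iff.1 hrep
    exact ⟨y⟩
  obtain ⟨i0, hi0, hmax⟩ := mulHeight_int T hgcd
  have hH : x.2.mulHeight = |(T i0 : ℝ)| := by
    have h4 : x.2.mulHeight = Height.mulHeight x.2.rep := by
      conv_lhs => rw [← x.2.mk_rep]
      rw [Projectivization.mulHeight_mk]
    rw [h4, hTt, Height.mulHeight_smul_eq_mulHeight _ ht, hi0]
  have hnat : |(T i0 : ℝ)| = (((T i0).natAbs : ℕ) : ℝ) := by
    rw [Nat.cast_natAbs, Int.cast_abs]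
  have hpos : 1 ≤ (T i0).natAbs := by
    have h5 := x.2.one_le_mulHeight
    rw [hH, hnat] at h5
    exact_mod_cast h5
  set ρ := Nat.log 2 (T i0).natAbs with hρ
  have hρ1 : (2 : ℝ) ^ ρ ≤ x.2.mulHeight := by
    rw [hH, hnat]
    exact_mod_cast Nat.pow_log_le_self 2 (by omega)
  have hρ2 : x.2.mulHeight ≤ 2 ^ (ρ + 1) := by
    rw [hH, hnat]
    exact_mod_cast (Nat.lt_pow_succ_log_self (by norm_num) _).le
  set l : ∀ c, Fin (k c) → ℕ := fun c => lf c (x.1 c) with hl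
  set q := tact (fun c => Bm c (x.1 c)) T with hq
  have hbd : ∀ y, |q y| * 2 ^ pr (szs l) y ≤ 2 ^ (ρ + κ0 + 1) := by
    intro y
    have h6 := h3 _ (fun y => hmax y) y
    have h7 : |(q y : ℝ)| * 2 ^ pr (szs l) y ≤ 2 ^ (ρ + κ0 + 1) := by
      refine h6.trans ?_
      rw [← hH]
      calc (Fintype.card (Idx n) : ℝ) ^ d * C ^ d * x.2.mulHeight ≤ 2 ^ κ0 * 2 ^ (ρ + 1) := by
            gcongr
        _ = 2 ^ (ρ + κ0 + 1) := by ring
    have h8 : ((|q y| * 2 ^ pr (szs l) y : ℤ) : ℝ) ≤ ((2 ^ (ρ + κ0 + 1) : ℤ) : ℝ) := by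
      push_cast
      exact h7
    exact_mod_cast h8
  -- the polynomial
  have hPT : eval (fun y => (T y : ℚ)) P ≠ 0 := by
    intro h0
    apply hxP
    rw [hTt, eval_smul_hom hPh, h0, mul_zero]
  obtain ⟨hf1, hf2⟩ := hP _ hPT
  have hTq2 : tact (fun c => (Bf c (x.1 c)).map (Int.castRingHom ℚ)) (fun y => (q y : ℚ)) =
      fun y => (T y : ℚ) := by
    funext y
    have h9 := tact_map (Int.castRingHom ℚ) (fun c => Bf c (x.1 c)) q y
    rw [h2] at h9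
    exact h9.symm
  refine ⟨q, ρ, l, rfl, hρ1, hρ2, h1, hbd, ?_, ?_, t, ?_⟩
  · intro h0
    apply hf1
    rw [← hTq2, tact_tact, hinv _ _ h1, h0, mul_zero]
  · refine not_bad_of_open V _ _ (hf2 _) _ _ h1 ?_ hTq2
    intro y hy
    have h10 := hbd y
    have h11 : ρ + κ0 + 1 < pr (szs l) y := by
      by_contra hcon
      exact hy (not_lt.1 hcon)
    have h12 : (2 : ℤ) ^ (ρ + κ0 + 1) < 2 ^ pr (szs l) y := pow_lt_pow_right₀ (by norm_num) h11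
    have h13 : q y = 0 := by
      by_contra hne0
      have h14 : 1 ≤ |q y| := Int.one_le_abs hne0
      nlinarith [pow_pos (show (0 : ℤ) < 2 by norm_num) (pr (szs l) y)]
    rw [h13, Int.cast_zero]
  · rw [h2]
    exact hTt

/-- The number of points in a class. -/
theorem fiber_card (V : Submodule ℚ (Tensor k d m ℚ))
    (hV : ∀ g : ∀ c, Matrix (Fin (k c)) (Fin (k c)) ℚ, ∀ q ∈ V, tact g q ∈ V) {N : ℕ}
    (ν : Fin N → (Fin d → Idx k) × Fin m) (hinj : ∀ q ∈ V, (∀ i, q (ν i) = 0) → q = 0)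
    (hsurj : ∀ z : Fin N → ℚ, ∃ q ∈ V, ∀ i, q (ν i) = z i)
    (C : ℝ) (hC : 1 ≤ C) (Bf : ∀ c, Submodule ℚ (Fin (n c) → ℚ) →
      Matrix (Fin (n c)) (Fin (k c)) ℤ) (Bm : ∀ c, Submodule ℚ (Fin (n c) → ℚ) →
      Matrix (Fin (k c)) (Fin (n c)) ℤ) (Bp : ∀ c, Submodule ℚ (Fin (n c) → ℚ) →
      Matrix (Fin (k c)) (Fin (n c)) ℝ) (lf : ∀ c, Submodule ℚ (Fin (n c) → ℚ) → Fin (k c) → ℕ)
    (hred : ∀ (c : Fin r) (W : Submodule ℚ (Fin (n c) → ℚ)), Module.finrank ℚ W = k c →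
      RedData C W (Bf c W) (Bm c W) (Bp c W) (lf c W))
    (l : ∀ c, Fin (k c) → ℕ) (R : ℕ)
    (hbad : ∀ P', ¬ Bad (Sigma.fst : Idx k → Fin r) V {y | pr (szs l) y ≤ R} P')
    (F : Finset ((∀ c, Submodule ℚ (Fin (n c) → ℚ)) × Projectivization ℚ (Tensor n d m ℚ)))
    (hF : ∀ x ∈ F, (∀ c, Module.finrank ℚ (x.1 c) = k c) ∧ (∀ c, lf c (x.1 c) = l c) ∧
      ∃ q : Tensor k d m ℤ, (fun y => (q y : ℚ)) ∈ V ∧ (∀ y, |q y| * 2 ^ pr (szs l) y ≤ 2 ^ R) ∧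
      ∃ t : ℚ, x.2.rep = t • fun y => ((tact (fun c => Bf c (x.1 c)) q y : ℤ) : ℚ)) :
    (F.card : ℝ) * 2 ^ (∑ i, pr (szs l) (ν i)) ≤ (∏ c, (3 * ((k c + 1) * C)) ^ (n c * k c)) * 4 ^ N *
      2 ^ (∑ c, n c * ∑ j, l c j + N * R) := by
  classical
  have hF1 : ∀ x ∈ F, ∀ c, Module.finrank ℚ (x.1 c) = k c := fun x hx => (hF x hx).1
  have hF2 : ∀ x ∈ F, ∀ c, lf c (x.1 c) = l c := fun x hx => (hF x hx).2.1
  have hF3 : ∀ x ∈ F, ∃ q : Tensor k d m ℤ, (fun y => (q y : ℚ)) ∈ V ∧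
      (∀ y, |q y| * 2 ^ pr (szs l) y ≤ 2 ^ R) ∧
      ∃ t : ℚ, x.2.rep = t • fun y => ((tact (fun c => Bf c (x.1 c)) q y : ℤ) : ℚ) :=
    fun x hx => (hF x hx).2.2
  choose! qf hq1 hq2 hq3 using hF3
  set FW : ∀ c, Finset (Submodule ℚ (Fin (n c) → ℚ)) := fun c => F.image fun x => x.1 c with hFW
  set Fq : Finset (Tensor k d m ℤ) := F.image qf with hFq
  have hcard : F.card ≤ (∏ c, (FW c).card) * Fq.card := by
    have h1 : F.card ≤ ((Fintype.piFinset FW) ×ˢ Fq).card := by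
      refine Finset.card_le_card_of_injOn (fun x => (x.1, qf x)) ?_ ?_
      · intro x hx
        refine Finset.mem_product.2 ⟨Fintype.mem_piFinset.2 fun c => ?_, ?_⟩
        · exact Finset.mem_image.2 ⟨x, hx, rfl⟩
        · exact Finset.mem_image.2 ⟨x, hx, rfl⟩
      · intro x hx x' hx' h
        simp only [Prod.mk.injEq] at h
        obtain ⟨h1, h2⟩ := h
        refine Prod.ext h1 ?_
        obtain ⟨t, ht⟩ := hq3 x hx
        obtain ⟨t', ht'⟩ := hq3 x' hx'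
        rw [h1, h2] at ht
        have ht0 : t ≠ 0 := by
          rintro rfl
          rw [zero_smul] at ht
          exact x.2.rep_nonzero ht
        have ht0' : t' ≠ 0 := by
          rintro rfl
          rw [zero_smul] at ht'
          exact x'.2.rep_nonzero ht'
        rw [← x.2.mk_rep, ← x'.2.mk_rep, Projectivization.mk_eq_mk_iff']
        refine ⟨t * t'⁻¹, ?_⟩
        rw [ht, ht', smul_smul, mul_assoc, inv_mul_cancel₀ ht0', mul_one]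
    rwa [Finset.card_product, Fintype.card_piFinset] at h1
  have hW : ∀ c, ((FW c).card : ℝ) * 2 ^ uni (l c) ≤
      (3 * ((k c + 1) * C)) ^ (n c * k c) * 2 ^ (n c * ∑ j, l c j) := by
    intro c
    refine count_subspaces (n c) (k c) C hC (l c) (FW c) ?_
    intro W hW
    obtain ⟨x, hx, rfl⟩ := Finset.mem_image.1 hW
    have h0 := hred c (x.1 c) (hF1 x hx c)
    rw [hF2 x hx c] at h0
    exact ⟨_, _, _, h0⟩
  have hQ := count_q (Sigma.fst : Idx k → Fin r) V (isBlock_stable V hV) ν hinj hsurj (szs l) R hbad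
    Fq (by
      intro q hq
      obtain ⟨x, hx, rfl⟩ := Finset.mem_image.1 hq
      exact ⟨hq1 x hx, hq2 x hx⟩)
  have hQ' : (Fq.card : ℝ) * 2 ^ (∑ i, pr (szs l) (ν i)) ≤
      4 ^ N * 2 ^ (N * R + ∑ c, uni (l c)) := by
    rw [uniC_eq] at hQ
    exact_mod_cast hQ
  have hcard' : (F.card : ℝ) ≤ (∏ c, ((FW c).card : ℝ)) * Fq.card := by exact_mod_cast hcard
  have hprod : (∏ c, ((FW c).card : ℝ)) * 2 ^ (∑ c, uni (l c)) ≤
      (∏ c, (3 * ((k c + 1) * C)) ^ (n c * k c)) * 2 ^ (∑ c, n c * ∑ j, l c j) := by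
    rw [← Finset.prod_pow_eq_pow_sum, ← Finset.prod_pow_eq_pow_sum, ← Finset.prod_mul_distrib,
      ← Finset.prod_mul_distrib]
    exact Finset.prod_le_prod (fun c _ => by positivity) fun c _ => hW c
  have hu : (0 : ℝ) < 2 ^ (∑ c, uni (l c)) := by positivity
  refine le_of_mul_le_mul_right ?_ hu
  calc (F.card : ℝ) * 2 ^ (∑ i, pr (szs l) (ν i)) * 2 ^ (∑ c, uni (l c))
      ≤ ((∏ c, ((FW c).card : ℝ)) * Fq.card) * 2 ^ (∑ i, pr (szs l) (ν i)) *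
        2 ^ (∑ c, uni (l c)) := by gcongr
    _ = ((∏ c, ((FW c).card : ℝ)) * 2 ^ (∑ c, uni (l c))) *
        (Fq.card * 2 ^ (∑ i, pr (szs l) (ν i))) := by ring
    _ ≤ ((∏ c, (3 * ((k c + 1) * C)) ^ (n c * k c)) * 2 ^ (∑ c, n c * ∑ j, l c j)) *
        (4 ^ N * 2 ^ (N * R + ∑ c, uni (l c))) := by
        refine mul_le_mul hprod hQ' (by positivity) ?_
        have : ∀ c, (0 : ℝ) ≤ 3 * ((k c + 1) * C) := fun c => by positivity
        exact mul_nonneg (Finset.prod_nonneg fun c _ => pow_nonneg (this c) _) (by positivity)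
    _ = _ := by
        rw [pow_add, pow_add]
        ring

end Pool.Agent.H71.MB
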