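import Mathlib

set_option autoImplicit false

/-! The optimisation problem. -/

namespace Pool.Agent.H71.MB

open Finset

theorem finite_of_forall_finset {α : Type*} (S : Set α) (X : ℝ)
    (h : ∀ F : Finset α, (F : Set α) ⊆ S → (F.card : ℝ) ≤ X) : S.Finite ∧ (S.ncard : ℝ) ≤ X := by
  have hfin : S.Finite := by
    by_contra hinf
    obtain ⟨F, hF, hcard⟩ := Set.Infinite.exists_subset_card_eq hinf (⌊X⌋₊ + 1)
    have h1 := h F hF
    rw [hcard] at h1
    push_cast at h1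
    linarith [Nat.lt_floor_add_one X]
  refine ⟨hfin, ?_⟩
  rw [Set.ncard_eq_toFinset_card S hfin]
  exact h _ (by simp)

/-- The exponents. -/
theorem exponents {r : ℕ} (ρ α N a κ Λ : ℝ) (lam β s nn : Fin r → ℝ) (hα : 0 < α)
    (hlam : ∀ c, 0 ≤ lam c) (hs : ∀ c, 0 ≤ s c) (hγ : ∀ c, 0 < β c + s c * α) (hN0 : 0 ≤ N)
    (hN : N ≤ a * α) (hn : ∀ c, nn c ≤ a * (β c + s c * α))
    (hθ : -κ ≤ ρ - ∑ c, s c * lam c) (hΛ : α * ρ + ∑ c, β c * lam c ≤ Λ) :
    N * ρ + ∑ c, (nn c - N * s c) * lam c ≤ a * Λ + (a * α - N) * κ ∧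
    (∀ c, lam c ≤ (Λ + α * κ) / (β c + s c * α)) ∧
    ρ ≤ Λ / α + ∑ c, s c * ((Λ + α * κ) / (β c + s c * α)) := by
  set θ := ρ - ∑ c, s c * lam c with hθd
  have ha : 0 ≤ a := by
    by_contra hneg
    push Not at hneg
    nlinarith
  have h1 : α * ρ + ∑ c, β c * lam c = α * θ + ∑ c, (β c + s c * α) * lam c := by
    rw [hθd, mul_sub, Finset.mul_sum]
    simp only [add_mul, Finset.sum_add_distrib]
    have : ∑ c, α * (s c * lam c) = ∑ c, s c * α * lam c :=
      Finset.sum_congr rfl fun c _ => by ring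
    rw [this]
    ring
  have h2 : N * ρ + ∑ c, (nn c - N * s c) * lam c = N * θ + ∑ c, nn c * lam c := by
    rw [hθd, mul_sub, Finset.mul_sum]
    simp only [sub_mul, Finset.sum_sub_distrib]
    have : ∑ c, N * (s c * lam c) = ∑ c, N * s c * lam c :=
      Finset.sum_congr rfl fun c _ => by ring
    rw [this]
    ring
  rw [h1] at hΛ
  have hγl : ∀ c, 0 ≤ (β c + s c * α) * lam c := fun c => mul_nonneg (hγ c).le (hlam c)
  have hlamb : ∀ c, lam c ≤ (Λ + α * κ) / (β c + s c * α) := by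
    intro c
    rw [le_div_iff₀ (hγ c)]
    have h3 : (β c + s c * α) * lam c ≤ ∑ c, (β c + s c * α) * lam c :=
      Finset.single_le_sum (fun c _ => hγl c) (Finset.mem_univ c)
    nlinarith
  refine ⟨?_, hlamb, ?_⟩
  · rw [h2]
    have h3 : ∑ c, nn c * lam c ≤ ∑ c, a * ((β c + s c * α) * lam c) := by
      refine Finset.sum_le_sum fun c _ => ?_
      rw [← mul_assoc]
      exact mul_le_mul_of_nonneg_right (hn c) (hlam c)
    rw [← Finset.mul_sum] at h3
    have h4 : 0 ≤ (a * α - N) * (θ + κ) := mul_nonneg (by linarith) (by linarith)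
    have h5 : a * (α * θ + ∑ c, (β c + s c * α) * lam c) ≤ a * Λ := mul_le_mul_of_nonneg_left hΛ ha
    nlinarith
  · have h3 : ρ = θ + ∑ c, s c * lam c := by rw [hθd]; ring
    have h4 : θ ≤ Λ / α := by
      rw [le_div_iff₀ hα]
      have : 0 ≤ ∑ c, (β c + s c * α) * lam c := Finset.sum_nonneg fun c _ => hγl c
      nlinarith
    have h5 : ∑ c, s c * lam c ≤ ∑ c, s c * ((Λ + α * κ) / (β c + s c * α)) :=
      Finset.sum_le_sum fun c _ => mul_le_mul_of_nonneg_left (hlamb c) (hs c)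
    linarith

end Pool.Agent.H71.MB
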