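import Mathlib
import Pool.Agent.H71.MB.Fiber
import Pool.Agent.H71.MB.Numeric

set_option autoImplicit false

/-! The main theorem. -/

namespace Pool.Agent.H71.MB

open MvPolynomial

variable {r : ℕ} {n k : Fin r → ℕ} {d m : ℕ}

theorem eval_rep_ne (P : MvPolynomial ((Fin d → Idx n) × Fin m) ℚ) (D : ℕ) (hP : P.IsHomogeneous D)
    (v : Tensor n d m ℚ) (hv : v ≠ 0) (h : eval v P ≠ 0) :
    eval (Projectivization.mk ℚ v hv).rep P ≠ 0 := by
  obtain ⟨a, ha⟩ := Projectivization.exists_smul_eq_mk_rep ℚ v hv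
  rw [← ha, Units.smul_def, eval_smul_hom hP]
  exact mul_ne_zero (pow_ne_zero _ a.ne_zero) h

theorem exists_point (hkn : ∀ c, k c ≤ n c) (V : Submodule ℚ (Tensor k d m ℚ))
    (P : MvPolynomial ((Fin d → Idx n) × Fin m) ℚ) (D : ℕ) (hPh : P.IsHomogeneous D)
    (f : MvPolynomial ((Fin d → Idx k) × Fin m) ℚ) (M : ℕ) (hM : 0 < M) (hf : f.IsHomogeneous M)
    (h : ∃ q ∈ V, eval (tact (incl n k) q) P ≠ 0)
    (hP : ∀ T : Tensor n d m ℚ, eval T P ≠ 0 → eval (tact (prj n k) T) f ≠ 0) :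
    ∃ x : (∀ c, Submodule ℚ (Fin (n c) → ℚ)) × Projectivization ℚ (Tensor n d m ℚ),
      IsPt V x ∧ eval x.2.rep P ≠ 0 := by
  obtain ⟨q, hq, hqP⟩ := h
  have hf1 := hP _ hqP
  rw [tact_tact] at hf1
  have h2 : (fun c => prj n k c * incl n k c) = fun c => 1 := funext (prj_incl hkn)
  rw [h2, tact_one] at hf1
  have hT0 : tact (incl n k) q ≠ 0 := by
    intro h0
    have h3 := congrArg (tact (prj n k)) h0
    rw [tact_tact, h2, tact_one] at h3
    have h4 : tact (prj n k) (0 : Tensor n d m ℚ) = 0 := by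
      have := tact_smul (prj n k) (0 : ℚ) (0 : Tensor n d m ℚ)
      rwa [zero_smul, zero_smul] at this
    rw [h4] at h3
    apply hf1
    rw [h3]
    have := eval_smul_hom hf (0 : ℚ) (0 : Tensor k d m ℚ)
    rw [zero_smul, zero_pow hM.ne', zero_mul] at this
    exact this
  refine ⟨(fun c => LinearMap.range (incl n k c).mulVecLin, Projectivization.mk ℚ _ hT0), ⟨?_, ?_⟩,
    eval_rep_ne P D hPh _ hT0 hqP⟩
  · intro c
    have hinj : Function.Injective (incl n k c).mulVecLin := by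
      intro v w hvw
      have h5 := congrArg (fun u => (prj n k c).mulVec u) hvw
      simp only [Matrix.mulVecLin_apply, Matrix.mulVec_mulVec, prj_incl hkn, Matrix.one_mulVec] at h5
      exact h5
    rw [LinearMap.finrank_range_of_inj hinj, Module.finrank_fintype_fun_eq_card, Fintype.card_fin]
  · obtain ⟨a, ha⟩ := Projectivization.exists_smul_eq_mk_rep ℚ _ hT0
    refine ⟨incl n k, fun c => rfl, (a : ℚ) • q, V.smul_mem _ hq, ?_⟩
    rw [tact_smul]
    exact ha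

theorem main (n k : Fin r → ℕ) (hk : ∀ c, 1 ≤ k c) (hkn : ∀ c, k c ≤ n c) (d m : ℕ)
    (V : Submodule ℚ (Tensor k d m ℚ))
    (hV : ∀ g : ∀ c, Matrix (Fin (k c)) (Fin (k c)) ℚ, ∀ q ∈ V, tact g q ∈ V)
    (δ : Fin r → ℕ) (hδ : ∀ q ∈ V, ∀ x, q x ≠ 0 → ∀ c,
      (Finset.univ.filter fun s => (x.1 s).1 = c).card = δ c)
    (f : MvPolynomial ((Fin d → Idx k) × Fin m) ℚ) (M : ℕ) (hM : 0 < M) (hf : f.IsHomogeneous M)
    (hf0 : ∃ q ∈ V, eval q f ≠ 0)
    (e : Fin r → ℕ) (hinv : ∀ g : ∀ c, Matrix (Fin (k c)) (Fin (k c)) ℚ, ∀ q ∈ V,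
      eval (tact g q) f = (∏ c, (g c).det ^ e c) * eval q f) :
    ∃ (D : ℕ) (P : MvPolynomial ((Fin d → Idx n) × Fin m) ℚ), P.IsHomogeneous D ∧
      (∃ x : (∀ c, Submodule ℚ (Fin (n c) → ℚ)) × Projectivization ℚ (Tensor n d m ℚ),
        IsPt V x ∧ eval x.2.rep P ≠ 0) ∧
      ∀ (α : ℝ) (β : Fin r → ℝ) (a : ℝ), 0 < α → (∀ c, 0 < β c + δ c / k c * α) →
        (Module.finrank ℚ V : ℝ) ≤ a * α → (∀ c, (n c : ℝ) ≤ a * (β c + δ c / k c * α)) →
        ∃ K : ℝ, ∀ B : ℝ, 2 ≤ B →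
          {x : (∀ c, Submodule ℚ (Fin (n c) → ℚ)) × Projectivization ℚ (Tensor n d m ℚ) |
            IsPt V x ∧ eval x.2.rep P ≠ 0 ∧ x.2.mulHeight ^ α * ∏ c, grH (x.1 c) ^ β c ≤ B}.Finite ∧
          ({x : (∀ c, Submodule ℚ (Fin (n c) → ℚ)) × Projectivization ℚ (Tensor n d m ℚ) |
            IsPt V x ∧ eval x.2.rep P ≠ 0 ∧
              x.2.mulHeight ^ α * ∏ c, grH (x.1 c) ^ β c ≤ B}.ncard : ℝ) ≤
            K * B ^ a * (Real.log B) ^ (∑ c, k c + 1) := by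
  classical
  obtain ⟨C, Bf, Bm, Bp, lf, hC, hred⟩ := exists_redFun n k
  obtain ⟨κ0, hκ0⟩ : ∃ κ0 : ℕ, (Fintype.card (Idx n) : ℝ) ^ d * C ^ d ≤ 2 ^ κ0 := by
    obtain ⟨κ0, h⟩ := pow_unbounded_of_one_lt ((Fintype.card (Idx n) : ℝ) ^ d * C ^ d)
      (one_lt_two : (1 : ℝ) < 2)
    exact ⟨κ0, h.le⟩
  set N := Module.finrank ℚ V with hNdef
  obtain ⟨ν, hinj, hsurj⟩ : ∃ ν : Fin N → (Fin d → Idx k) × Fin m,
      (∀ q ∈ V, (∀ i, q (ν i) = 0) → q = 0) ∧ ∀ z : Fin N → ℚ, ∃ q ∈ V, ∀ i, q (ν i) = z i :=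
    exists_coords V
  obtain ⟨D, P, hPh, hPne, hP⟩ := exists_open_poly hkn V f M hf hf0
  obtain ⟨Ks, hKs, hsemi⟩ := semi_bound V f M hf e hinv
  obtain ⟨κ3, hκ3⟩ : ∃ κ3 : ℕ, Ks * (2 ^ (κ0 + 1)) ^ M ≤ 2 ^ κ3 := by
    obtain ⟨κ3, h⟩ := pow_unbounded_of_one_lt (Ks * (2 ^ (κ0 + 1)) ^ M) (one_lt_two : (1 : ℝ) < 2)
    exact ⟨κ3, h.le⟩
  refine ⟨D, P, hPh, exists_point hkn V P D hPh f M hM hf hPne (fun T hT => (hP T hT).1), ?_⟩
  -- the classes of the points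
  have hcls := fun x (hx : IsPt V x) (hxP : eval x.2.rep P ≠ 0) =>
    exists_class V hV f e hinv C hC Bf Bm Bp lf hred D P hPh hP κ0 hκ0 x hx hxP
  -- heights on the Grassmannians
  obtain ⟨K1, hK1, hgr⟩ : ∃ K1 : ℝ, 1 ≤ K1 ∧ ∀ (c : Fin r) (W : Submodule ℚ (Fin (n c) → ℚ)),
      Module.finrank ℚ W = k c → grH W ≤ K1 * 2 ^ (∑ j, lf c W j) ∧
        (2 : ℝ) ^ (∑ j, lf c W j) ≤ K1 * grH W := by
    have hC0 : 0 ≤ C := by linarith
    refine ⟨1 + ∑ c, ((Nat.factorial (k c) : ℝ) * C ^ k c + (n c : ℝ) ^ k c * C ^ k c), ?_, ?_⟩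
    · have : 0 ≤ ∑ c, ((Nat.factorial (k c) : ℝ) * C ^ k c + (n c : ℝ) ^ k c * C ^ k c) :=
        Finset.sum_nonneg fun c _ => by positivity
      linarith
    · intro c W hW
      obtain ⟨h1, h2⟩ := grH_bounds hC (hred c W hW)
      have h3 : ((Nat.factorial (k c) : ℝ) * C ^ k c + (n c : ℝ) ^ k c * C ^ k c) ≤
          ∑ c, ((Nat.factorial (k c) : ℝ) * C ^ k c + (n c : ℝ) ^ k c * C ^ k c) :=
        Finset.single_le_sum (f := fun c => ((Nat.factorial (k c) : ℝ) * C ^ k c +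
          (n c : ℝ) ^ k c * C ^ k c)) (fun c _ => by positivity) (Finset.mem_univ c)
      have h4 : (0 : ℝ) ≤ (Nat.factorial (k c) : ℝ) * C ^ k c := by positivity
      have h5 : (0 : ℝ) ≤ (n c : ℝ) ^ k c * C ^ k c := by positivity
      have h6 : 0 < grH W := Height.mulHeight_pos _
      constructor
      · refine h1.trans ?_
        gcongr
        linarith
      · refine h2.trans ?_
        gcongr
        linarith
  intro α β a hα hγ hNa hna
  -- constants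
  set s : Fin r → ℝ := fun c => (δ c : ℝ) / k c with hs
  have hs0 : ∀ c, 0 ≤ s c := fun c => by positivity
  have hk0 : ∀ c, (0 : ℝ) < k c := fun c => by exact_mod_cast hk c
  have hM0 : (0 : ℝ) < M := by exact_mod_cast hM
  set κ4 : ℝ := (κ3 : ℝ) / M with hκ4
  have hκ40 : 0 ≤ κ4 := by positivity
  set K2 : ℝ := ∏ c, K1 ^ |β c| with hK2
  have hK21 : 1 ≤ K2 := by
    rw [hK2]
    refine Finset.prod_induction _ (fun x => (1 : ℝ) ≤ x) (fun x y hx hy => one_le_mul_of_one_le_of_one_le hx hy)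
      le_rfl fun c _ => Real.one_le_rpow hK1 (abs_nonneg _)
  have ha0 : 0 ≤ a := by
    by_contra hneg
    push Not at hneg
    have : (0 : ℝ) ≤ N := Nat.cast_nonneg N
    nlinarith
  set KW : ℝ := (∏ c, (3 * ((k c + 1) * C)) ^ (n c * k c)) * 4 ^ N with hKW
  have hKW0 : 0 ≤ KW := by
    have hC0 : 0 ≤ C := by linarith
    rw [hKW]
    exact mul_nonneg (Finset.prod_nonneg fun c _ => by positivity) (by positivity)
  -- estimates for one class
  have hclass : ∀ (B : ℝ), 2 ≤ B → ∀ (x : (∀ c, Submodule ℚ (Fin (n c) → ℚ)) ×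
      Projectivization ℚ (Tensor n d m ℚ)) (q : Tensor k d m ℤ) (ρ : ℕ) (l : ∀ c, Fin (k c) → ℕ),
      IsPt V x → x.2.mulHeight ^ α * ∏ c, grH (x.1 c) ^ β c ≤ B → l = (fun c => lf c (x.1 c)) →
      (2 : ℝ) ^ ρ ≤ x.2.mulHeight → (fun y => (q y : ℚ)) ∈ V →
      (∀ y, |q y| * 2 ^ pr (szs l) y ≤ 2 ^ (ρ + κ0 + 1)) → eval (fun y => (q y : ℚ)) f ≠ 0 →
      (-κ4 ≤ (ρ : ℝ) - ∑ c, s c * ((∑ j, l c j : ℕ) : ℝ)) ∧
      α * ρ + ∑ c, β c * ((∑ j, l c j : ℕ) : ℝ) ≤ Real.logb 2 (K2 * B) := by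
    intro B hB x q ρ l hx hxB hl hρ hqV hqb hqf
    constructor
    · have h1 := hsemi l q (2 ^ (ρ + κ0 + 1)) hqV hqf (by
        intro y
        exact_mod_cast hqb y)
      have h2 : (2 : ℝ) ^ (∑ c, e c * ∑ j, l c j) ≤ 2 ^ (κ3 + ρ * M) := by
        refine h1.trans ?_
        calc Ks * (2 ^ (ρ + κ0 + 1)) ^ M = (Ks * (2 ^ (κ0 + 1)) ^ M) * 2 ^ (ρ * M) := by
              rw [show ρ + κ0 + 1 = ρ + (κ0 + 1) by ring, pow_add, mul_pow, ← pow_mul]
              ring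
          _ ≤ 2 ^ κ3 * 2 ^ (ρ * M) := by gcongr
          _ = 2 ^ (κ3 + ρ * M) := by rw [pow_add]
      have h3 : ∑ c, e c * ∑ j, l c j ≤ κ3 + ρ * M :=
        (pow_le_pow_iff_right₀ (one_lt_two : (1 : ℝ) < 2)).1 h2
      have h4 : (∑ c, (e c : ℝ) * ((∑ j, l c j : ℕ) : ℝ)) ≤ κ3 + ρ * M := by
        exact_mod_cast h3
      have h5 : ∀ c, (e c : ℝ) = M * s c := by
        intro c
        have h6 := degree_relation V δ hδ f M hf hf0 e hinv c
        have h7 : (M : ℝ) * δ c = k c * e c := by exact_mod_cast h6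
        rw [hs]
        simp only
        rw [← mul_div_assoc, h7, mul_div_cancel_left₀ _ (hk0 c).ne']
      simp only [h5, mul_assoc] at h4
      rw [← Finset.mul_sum] at h4
      have h8 : ∑ c, s c * ((∑ j, l c j : ℕ) : ℝ) ≤ κ4 + ρ := by
        rw [hκ4, ← mul_le_mul_iff_right₀ hM0]
        rw [mul_add, mul_div_cancel₀ _ hM0.ne']
        linarith
      linarith
    · have h1 : (2 : ℝ) ^ (α * ρ + ∑ c, β c * ((∑ j, l c j : ℕ) : ℝ)) ≤ K2 * B := by
        have h2 : ∀ c, (2 : ℝ) ^ (β c * ((∑ j, l c j : ℕ) : ℝ)) ≤ K1 ^ |β c| * grH (x.1 c) ^ β c := by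
          intro c
          obtain ⟨h3, h4⟩ := hgr c (x.1 c) (hx.1 c)
          have hlc : lf c (x.1 c) = l c := by rw [hl]
          rw [hlc] at h3 h4
          have h5 : 0 < grH (x.1 c) := Height.mulHeight_pos _
          have h6 : (2 : ℝ) ^ (β c * ((∑ j, l c j : ℕ) : ℝ)) = ((2 : ℝ) ^ (∑ j, l c j)) ^ β c := by
            rw [mul_comm, Real.rpow_mul (by norm_num), Real.rpow_natCast]
          rw [h6]
          rcases le_or_gt 0 (β c) with hb | hb
          · rw [abs_of_nonneg hb, ← Real.mul_rpow (by linarith) h5.le]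
            exact Real.rpow_le_rpow (by positivity) h4 hb
          · rw [abs_of_neg hb]
            have h7 : grH (x.1 c) / K1 ≤ 2 ^ (∑ j, l c j) := by
              rw [div_le_iff₀ (by linarith)]
              linarith
            have h8 : ((2 : ℝ) ^ (∑ j, l c j)) ^ β c ≤ (grH (x.1 c) / K1) ^ β c :=
              Real.rpow_le_rpow_of_nonpos (by positivity) h7 hb.le
            refine h8.trans (le_of_eq ?_)
            rw [Real.div_rpow h5.le (by linarith), Real.rpow_neg (by linarith), div_eq_mul_inv,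
              mul_comm]
        have h9 : (2 : ℝ) ^ (α * ρ) ≤ x.2.mulHeight ^ α := by
          have : (2 : ℝ) ^ (α * ρ) = ((2 : ℝ) ^ ρ) ^ α := by
            rw [mul_comm, Real.rpow_mul (by norm_num), Real.rpow_natCast]
          rw [this]
          exact Real.rpow_le_rpow (by positivity) hρ hα.le
        rw [Real.rpow_add (by norm_num), Real.rpow_sum_of_pos (by norm_num)]
        calc (2 : ℝ) ^ (α * ρ) * ∏ c, (2 : ℝ) ^ (β c * ((∑ j, l c j : ℕ) : ℝ))
            ≤ x.2.mulHeight ^ α * ∏ c, (K1 ^ |β c| * grH (x.1 c) ^ β c) := by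
              refine mul_le_mul h9 (Finset.prod_le_prod (fun c _ => by positivity) fun c _ => h2 c)
                (Finset.prod_nonneg fun c _ => by positivity)
                (Real.rpow_nonneg (x.2.mulHeight_pos).le _)
          _ = K2 * (x.2.mulHeight ^ α * ∏ c, grH (x.1 c) ^ β c) := by
              rw [Finset.prod_mul_distrib, hK2]
              ring
          _ ≤ K2 * B := by gcongr
      rw [Real.le_logb_iff_rpow_le (by norm_num) (by positivity)]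
      exact h1
  -- the number of points in one class
  have hwt : ∀ l : ∀ c, Fin (k c) → ℕ, ((∑ i, pr (szs l) (ν i) : ℕ) : ℝ) =
      N * ∑ c, s c * ((∑ j, l c j : ℕ) : ℝ) := by
    intro l
    rw [sum_pr, Fintype.sum_sigma, Finset.mul_sum]
    push_cast
    refine Finset.sum_congr rfl fun c _ => ?_
    rw [← mul_assoc, Finset.mul_sum]
    refine Finset.sum_congr rfl fun j _ => ?_
    have h1 := wt_mul V hV δ hδ ν hinj hsurj ⟨c, j⟩
    have h2 : (k c : ℝ) * wt ν ⟨c, j⟩ = N * δ c := by exact_mod_cast h1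
    have h3 : (wt ν ⟨c, j⟩ : ℝ) = N * s c := by
      rw [hs]
      simp only
      rw [← mul_div_assoc, ← h2, mul_div_cancel_left₀ _ (hk0 c).ne']
    rw [h3, szs]
    ring
  set KA : ℝ := KW * 2 ^ (N * (κ0 + 1)) * (2 : ℝ) ^ ((a * α - N) * κ4) * K2 ^ a with hKA
  have hKA0 : 0 ≤ KA := by positivity
  have hfiber : ∀ (B : ℝ), 2 ≤ B → ∀ (l : ∀ c, Fin (k c) → ℕ) (ρ : ℕ)
      (F : Finset ((∀ c, Submodule ℚ (Fin (n c) → ℚ)) × Projectivization ℚ (Tensor n d m ℚ))),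
      (∀ x ∈ F, IsPt V x ∧ x.2.mulHeight ^ α * ∏ c, grH (x.1 c) ^ β c ≤ B ∧
        ∃ q : Tensor k d m ℤ, l = (fun c => lf c (x.1 c)) ∧
      (2 : ℝ) ^ ρ ≤ x.2.mulHeight ∧
      (fun y => (q y : ℚ)) ∈ V ∧ (∀ y, |q y| * 2 ^ pr (szs l) y ≤ 2 ^ (ρ + κ0 + 1)) ∧
      eval (fun y => (q y : ℚ)) f ≠ 0 ∧
      (∀ P', ¬ Bad (Sigma.fst : Idx k → Fin r) V {y | pr (szs l) y ≤ ρ + κ0 + 1} P') ∧
      ∃ t : ℚ, x.2.rep = t • fun y => ((tact (fun c => Bf c (x.1 c)) q y : ℤ) : ℚ)) →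
      (F.card : ℝ) ≤ KA * B ^ a := by
    intro B hB l ρ F hF
    have hB0 : 0 < B := by linarith
    by_cases hne : F.Nonempty
    swap
    · rw [Finset.not_nonempty_iff_eq_empty] at hne
      rw [hne, Finset.card_empty, Nat.cast_zero]
      positivity
    obtain ⟨x0, hx0⟩ := hne
    obtain ⟨hx1, hx2, q0, hx3, hx4, hx5, hx6, hx7, hx8, hx9⟩ := hF x0 hx0
    have h1 := fiber_card V hV ν hinj hsurj C hC Bf Bm Bp lf hred l (ρ + κ0 + 1) hx8 F (by
      intro x hx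
      obtain ⟨hx1, hx2, q, hx3, hx4, hx5, hx6, hx7, hx8, hx9⟩ := hF x hx
      exact ⟨hx1.1, fun c => by rw [hx3], q, hx5, hx6, hx9⟩)
    obtain ⟨h2, h3⟩ := hclass B hB x0 q0 ρ l hx1 hx2 hx3 hx4 hx5 hx6 hx7
    obtain ⟨h4, -, -⟩ := exponents (r := r) (ρ : ℝ) α N a κ4 (Real.logb 2 (K2 * B))
      (fun c => ((∑ j, l c j : ℕ) : ℝ)) β s (fun c => (n c : ℝ)) hα (fun c => Nat.cast_nonneg _) hs0 hγ
      (Nat.cast_nonneg N) hNa hna h2 h3
    have h5 : (0 : ℝ) < 2 ^ (∑ i, pr (szs l) (ν i)) := by positivity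
    rw [← le_div_iff₀ h5] at h1
    refine h1.trans ?_
    rw [← hKW]
    have h6 : (2 : ℝ) ^ (∑ c, n c * ∑ j, l c j + N * (ρ + κ0 + 1)) / 2 ^ (∑ i, pr (szs l) (ν i)) =
        2 ^ (N * (κ0 + 1)) * (2 : ℝ) ^ ((N : ℝ) * ρ + ∑ c, ((n c : ℝ) - N * s c) *
          ((∑ j, l c j : ℕ) : ℝ)) := by
      rw [div_eq_iff h5.ne', ← Real.rpow_natCast, ← Real.rpow_natCast, ← Real.rpow_natCast, hwt,
        ← Real.rpow_add (by norm_num), ← Real.rpow_add (by norm_num)]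
      congr 1
      push_cast
      simp only [sub_mul, Finset.sum_sub_distrib, Finset.mul_sum]
      ring_nf
    have h7 : (2 : ℝ) ^ ((N : ℝ) * ρ + ∑ c, ((n c : ℝ) - N * s c) * ((∑ j, l c j : ℕ) : ℝ)) ≤
        (2 : ℝ) ^ ((a * α - N) * κ4) * (K2 ^ a * B ^ a) := by
      calc (2 : ℝ) ^ ((N : ℝ) * ρ + ∑ c, ((n c : ℝ) - N * s c) * ((∑ j, l c j : ℕ) : ℝ))
          ≤ (2 : ℝ) ^ (a * Real.logb 2 (K2 * B) + (a * α - N) * κ4) :=
            Real.rpow_le_rpow_of_exponent_le (by norm_num) h4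
        _ = (2 : ℝ) ^ ((a * α - N) * κ4) * (K2 ^ a * B ^ a) := by
            rw [Real.rpow_add (by norm_num), mul_comm a, Real.rpow_mul (by norm_num),
              Real.rpow_logb (by norm_num) (by norm_num) (by positivity),
              Real.mul_rpow (by positivity) hB0.le]
            ring
    calc KW * 2 ^ (∑ c, n c * ∑ j, l c j + N * (ρ + κ0 + 1)) / 2 ^ (∑ i, pr (szs l) (ν i))
        = KW * (2 ^ (∑ c, n c * ∑ j, l c j + N * (ρ + κ0 + 1)) / 2 ^ (∑ i, pr (szs l) (ν i))) := by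
          rw [mul_div_assoc]
      _ ≤ KW * (2 ^ (N * (κ0 + 1)) * ((2 : ℝ) ^ ((a * α - N) * κ4) * (K2 ^ a * B ^ a))) := by
          rw [h6]
          gcongr
      _ = KA * B ^ a := by
          rw [hKA]
          ring
  -- the number of classes
  have hlog2 : 0 < Real.log 2 := Real.log_pos (by norm_num)
  set c1 : ℝ := Real.log K2 / Real.log 2 ^ 2 + 1 / Real.log 2 with hc1
  set K7 : ℝ := c1 / α + ∑ c, (1 + s c) * ((c1 + α * κ4 / Real.log 2) / (β c + s c * α)) +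
    1 / Real.log 2 with hK7
  refine ⟨K7 ^ (∑ c, k c + 1) * KA, fun B hB => ?_⟩
  have hB0 : 0 < B := by linarith
  have hlogB : Real.log 2 ≤ Real.log B := Real.log_le_log (by norm_num) hB
  have hlogB0 : 0 < Real.log B := by linarith
  set Λ := Real.logb 2 (K2 * B) with hΛ
  have hΛ0 : 0 ≤ Λ := Real.logb_nonneg (by norm_num) (by nlinarith)
  have hΛ1 : Λ ≤ c1 * Real.log B := by
    rw [hΛ, Real.logb, Real.log_mul (by positivity) hB0.ne', hc1]
    have h1 : 0 ≤ Real.log K2 := Real.log_nonneg hK21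
    have h2 : Real.log K2 / Real.log 2 ≤ Real.log K2 / Real.log 2 ^ 2 * Real.log B := by
      rw [div_mul_eq_mul_div, div_le_div_iff₀ hlog2 (by positivity)]
      nlinarith [mul_nonneg h1 hlog2.le]
    rw [add_div, add_mul]
    have h3 : Real.log B / Real.log 2 = 1 / Real.log 2 * Real.log B := by ring
    rw [h3]
    linarith
  set Hr : ℝ := Λ / α + ∑ c, (1 + s c) * ((Λ + α * κ4) / (β c + s c * α)) with hHr
  have hterm : ∀ c, 0 ≤ (Λ + α * κ4) / (β c + s c * α) := fun c =>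
    div_nonneg (by positivity) (hγ c).le
  have hHr0 : 0 ≤ Hr := by
    have : 0 ≤ ∑ c, (1 + s c) * ((Λ + α * κ4) / (β c + s c * α)) :=
      Finset.sum_nonneg fun c _ => mul_nonneg (by linarith [hs0 c]) (hterm c)
    have : 0 ≤ Λ / α := by positivity
    linarith
  have hHr1 : Hr + 1 ≤ K7 * Real.log B := by
    rw [hHr, hK7, add_mul, add_mul, Finset.sum_mul]
    have h1 : Λ / α ≤ c1 / α * Real.log B := by
      rw [div_mul_eq_mul_div]
      gcongr
    have h2 : ∑ c, (1 + s c) * ((Λ + α * κ4) / (β c + s c * α)) ≤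
        ∑ c, (1 + s c) * ((c1 + α * κ4 / Real.log 2) / (β c + s c * α)) * Real.log B := by
      refine Finset.sum_le_sum fun c _ => ?_
      rw [mul_assoc]
      refine mul_le_mul_of_nonneg_left ?_ (by linarith [hs0 c])
      have h4 : (c1 + α * κ4 / Real.log 2) / (β c + s c * α) * Real.log B =
          ((c1 + α * κ4 / Real.log 2) * Real.log B) / (β c + s c * α) := by ring
      rw [h4]
      refine div_le_div_of_nonneg_right ?_ (hγ c).le
      rw [add_mul]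
      have h3 : α * κ4 ≤ α * κ4 / Real.log 2 * Real.log B := by
        rw [div_mul_eq_mul_div, le_div_iff₀ hlog2]
        have : 0 ≤ α * κ4 := by positivity
        nlinarith
      linarith
    have h3 : (1 : ℝ) ≤ 1 / Real.log 2 * Real.log B := by
      rw [div_mul_eq_mul_div, le_div_iff₀ hlog2]
      linarith
    linarith
  set H : ℕ := ⌊Hr⌋₊ with hH
  set T : Finset ((∀ c, Fin (k c) → ℕ) × ℕ) :=
    (Fintype.piFinset fun c => Fintype.piFinset fun _ : Fin (k c) => Finset.range (H + 1)) ×ˢ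
      Finset.range (H + 1) with hT
  have hTcard : T.card = (H + 1) ^ (∑ c, k c + 1) := by
    rw [hT, Finset.card_product, Fintype.card_piFinset]
    simp only [Fintype.card_piFinset, Finset.card_range, Finset.prod_const, Finset.card_univ,
      Fintype.card_fin]
    rw [Finset.prod_pow_eq_pow_sum, pow_succ]
  apply finite_of_forall_finset
  intro F hF
  have hF' : ∀ x ∈ F, IsPt V x ∧ eval x.2.rep P ≠ 0 ∧
      x.2.mulHeight ^ α * ∏ c, grH (x.1 c) ^ β c ≤ B := fun x hx => hF hx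
  have hch : ∀ x ∈ F, ∃ (ρ : ℕ) (l : ∀ c, Fin (k c) → ℕ), ∃ (q : Tensor k d m ℤ),
      l = (fun c => lf c (x.1 c)) ∧
      (2 : ℝ) ^ ρ ≤ x.2.mulHeight ∧
      (fun y => (q y : ℚ)) ∈ V ∧ (∀ y, |q y| * 2 ^ pr (szs l) y ≤ 2 ^ (ρ + κ0 + 1)) ∧
      eval (fun y => (q y : ℚ)) f ≠ 0 ∧
      (∀ P', ¬ Bad (Sigma.fst : Idx k → Fin r) V {y | pr (szs l) y ≤ ρ + κ0 + 1} P') ∧
      ∃ t : ℚ, x.2.rep = t • fun y => ((tact (fun c => Bf c (x.1 c)) q y : ℤ) : ℚ) := by
    intro x hx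
    obtain ⟨q, ρ, l, h1, h2, -, h3⟩ := hcls x (hF' x hx).1 (hF' x hx).2.1
    exact ⟨ρ, l, q, h1, h2, h3⟩
  choose! ρf lff hcl using hch
  have hmaps : ∀ x ∈ F, (lff x, ρf x) ∈ T := by
    intro x hx
    obtain ⟨q, h1, h2, h3, h4, h5, h6, h7⟩ := hcl x hx
    obtain ⟨h8, h9⟩ := hclass B hB x q (ρf x) (lff x) (hF' x hx).1 (hF' x hx).2.2 h1 h2 h3 h4 h5
    obtain ⟨-, h10, h11⟩ := exponents (r := r) (ρf x : ℝ) α N a κ4 (Real.logb 2 (K2 * B))
      (fun c => ((∑ j, lff x c j : ℕ) : ℝ)) β s (fun c => (n c : ℝ)) hα (fun c => Nat.cast_nonneg _)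
      hs0 hγ (Nat.cast_nonneg N) hNa hna h8 h9
    have hpos : 0 ≤ Λ / α := by positivity
    rw [hT, Finset.mem_product]
    refine ⟨?_, ?_⟩
    · rw [Fintype.mem_piFinset]
      intro c
      rw [Fintype.mem_piFinset]
      intro j
      rw [Finset.mem_range, Nat.lt_succ_iff, hH]
      apply Nat.le_floor
      have h12 : lff x c j ≤ ∑ j, lff x c j :=
        Finset.single_le_sum (fun j _ => Nat.zero_le _) (Finset.mem_univ j)
      have h13 : (lff x c j : ℝ) ≤ ((∑ j, lff x c j : ℕ) : ℝ) := by exact_mod_cast h12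
      have h14 : (1 + s c) * ((Λ + α * κ4) / (β c + s c * α)) ≤
          ∑ c, (1 + s c) * ((Λ + α * κ4) / (β c + s c * α)) :=
        Finset.single_le_sum (f := fun c => (1 + s c) * ((Λ + α * κ4) / (β c + s c * α)))
          (fun c _ => mul_nonneg (by linarith [hs0 c]) (hterm c)) (Finset.mem_univ c)
      have h15 := h10 c
      have h16 : 0 ≤ s c * ((Λ + α * κ4) / (β c + s c * α)) := mul_nonneg (hs0 c) (hterm c)
      rw [hHr]
      linarith
    · rw [Finset.mem_range, Nat.lt_succ_iff, hH]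
      apply Nat.le_floor
      refine h11.trans ?_
      rw [hHr]
      gcongr with c _
      · exact hterm c
      · linarith
  have hsumF : F.card = ∑ cl ∈ T, (F.filter fun x => (lff x, ρf x) = cl).card :=
    Finset.card_eq_sum_card_fiberwise hmaps
  have hfib : ∀ cl ∈ T, ((F.filter fun x => (lff x, ρf x) = cl).card : ℝ) ≤ KA * B ^ a := by
    rintro ⟨l, ρ⟩ _
    apply hfiber B hB l ρ
    intro x hx
    obtain ⟨hxF, hxe⟩ := Finset.mem_filter.1 hx
    simp only [Prod.mk.injEq] at hxe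
    have h1 := hcl x hxF
    rw [hxe.1, hxe.2] at h1
    exact ⟨(hF' x hxF).1, (hF' x hxF).2.2, h1⟩
  have hH1 : ((H : ℝ) + 1) ≤ K7 * Real.log B := by
    have := Nat.floor_le hHr0
    rw [← hH] at this
    linarith
  calc (F.card : ℝ) = ∑ cl ∈ T, ((F.filter fun x => (lff x, ρf x) = cl).card : ℝ) := by
        rw [hsumF]
        push_cast
        rfl
    _ ≤ ∑ _cl ∈ T, KA * B ^ a := Finset.sum_le_sum hfib
    _ = ((H : ℝ) + 1) ^ (∑ c, k c + 1) * (KA * B ^ a) := by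
        rw [Finset.sum_const, hTcard, nsmul_eq_mul]
        push_cast
        ring
    _ ≤ (K7 * Real.log B) ^ (∑ c, k c + 1) * (KA * B ^ a) := by gcongr
    _ = K7 ^ (∑ c, k c + 1) * KA * B ^ a * Real.log B ^ (∑ c, k c + 1) := by
        rw [mul_pow]
        ring

end Pool.Agent.H71.MB
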