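import Mathlib
import Pool.Agent.H71.MB.Main
import Pool.Agent.H71.MB.Ext

/-!
# Weak Manin for the projective bundles over products of Grassmannians defined by representations

Let `G = ∏ c, Gr (k c, n c)` be a product of Grassmannians over `ℚ` (`1 ≤ k c < n c`), with
tautological subbundles `S c` of rank `k c`, and let `V` be a homogeneous polynomial representation of
`∏ c, GL (k c)` of multidegree `δ`; by Schur-Weyl duality this is the same as a subspace `V` of
`(⊕ c, ℚ ^ (k c)) ^ ⊗ d ⊗ ℚ ^ m` which is stable under the group and such that each of the tensors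
has exactly `δ c` factors in `ℚ ^ (k c)`. Let `V(S)` be the vector bundle on `G` which is obtained by
applying the functor `V` to `S`, and let `X = ℙ(V(S))`, a smooth projective variety over `ℚ`, the
fibre of `X → G` over `W = (W c)` being the projective space of the lines in
`V(W) ⊆ (⊕ c, ℚ ^ (n c)) ^ ⊗ d ⊗ ℚ ^ m`. The representation `V` is supposed to have a relative
invariant: a polynomial function `f` on `V` which is homogeneous of degree `M > 0`, not identically zero
and with `f (g q) = ∏ det (g c) ^ (e c) * f q`.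

Examples. For `r = 1`, `V = Sym ^ d` and `k = 2` (any `n ≥ 3`, `d ≥ 2`): the effective cycles of `d`
points on lines in `ℙ ^ (n - 1)`, with `f` the discriminant; for `d = 2` this is the Hilbert scheme
of two points of `ℙ ^ (n - 1)`. For `V = Sym ^ d` with arbitrary `k`: the variety of the
hypersurfaces of degree `d` in the `(k - 1)`-dimensional linear subspaces of the dual space; for
`d = 2`: the Hilbert scheme of quadrics of given dimension, for instance of the conics in `ℙ ^ n`, and
equivalently a desingularisation of the variety of the symmetric matrices of rank at most `k`. For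
`r = 2`, `V = ℚ ^ k ⊗ ℚ ^ k`: the `n × n'` matrices of rank at most `k`, with column and row space.
For `V = ⊗ ℚ ^ (k c)`: the tensors of multilinear rank at most `(k c)` (with `f` the hyperdeterminant,
for instance), for `V = (ℚ ^ k) ⊗ ℚ ^ m` with `m ≥ k`: the `k`-dimensional subspaces with an `m`-tuple
of vectors, for `V = Λ ^ 3` and `k = 6, 7, 8`: three-forms on the subspaces, and so on.

Let `ξ = O (1)` be the hyperplane class on `X ⊆ G × ℙ (tensors)` and `h c` the Plücker classes; they
are a basis of `Pic X`. Then `K_X = - N ξ - ∑ (n c - N δ c / k c) h c` for `N = dim V`, and the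
pseudo-effective cone of `X` is given by `x ≥ 0`, `y c + x δ c / k c ≥ 0` for `x ξ + ∑ y c h c`: it is
generated by the `h c` and by the class of the divisor `f = 0`, which is a multiple of
`ξ - ∑ (δ c / k c) h c` (it is not larger, since the bundle `Sym ^ x V(S) ^ *` is semistable). In
general `ξ - ∑ (δ c / k c) h c` is far from being nef.

Theorem. There is a nonempty Zariski open subset `U` of `X` such that for all real classes
`L = α ξ + ∑ β c h c` in the interior of the pseudo-effective cone (the big classes) and every real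
number `a` with `a L + K_X` pseudo-effective, in particular for `a = a(X, L)`, one has
`N(U, L, B) ≤ K B ^ a (log B) ^ (1 + ∑ k c)` for `B ≥ 2`. So the weak Manin conjecture holds for `X` over
`ℚ` and all big (and all big and nef) classes `L`.

Proof. By reduction theory the lattices `W c ∩ ℤ ^ (n c)` have reduced bases, with vectors of length
`2 ^ (l c j)`; the number of the lattices of shape `l` is at most
`C * 2 ^ (∑ n c * l c j - ∑ |l c i - l c j|)`. In this basis the coordinates of the primitive
integral point `T` of `V(W)` are integers `q ν` with `|q ν| ≤ C * 2 ^ b ν`, `b ν` being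
`log |T|` minus the weight of `ν`. Some of the `b ν` are negative, which forces `q ν = 0`; this is
the main difficulty. Either the translates of the linear subspace of the `q` with these zeros are not
dense in `V`, and then they are avoided by the choice of `U`; or by the Jacobian criterion the map
`(X, q') ↦ X q + q'` is surjective for general `q` in the linear subspace, for `X` in the Lie algebra, and a
nonzero term in the expansion of a determinant yields an injective map from the forced zeros `ν` to
the roots `(c, i, j)` such that `E i j` moves a coordinate `ν'` which is not forced to be zero to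
`ν`, whence `- b ν ≤ b ν' - b ν = l c j - l c i`. So the loss is at most
`∑ |l c i - l c j|`, which is gained in the number of the lattices. This gives at most
`C * 2 ^ (- K_X · (l, b))` points of given shape. The divisor `f = 0` gives a lower bound of `b`, which
allows to compare `- K_X` and `a L`.
-/

set_option autoImplicit false
set_option linter.all false

namespace Pool.Agent.H71.MB.RepresentationBundles

open MvPolynomial

/-- The index set of the standard basis of `⊕ c, ℚ ^ (n c)`. -/
abbrev Idx {r : ℕ} (n : Fin r → ℕ) := (c : Fin r) × Fin (n c)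

/-- The index set of the standard basis of `(⊕ c, ℚ ^ (n c)) ^ ⊗ d ⊗ ℚ ^ m`. -/
abbrev Word {r : ℕ} (n : Fin r → ℕ) (d m : ℕ) := (Fin d → Idx n) × Fin m

/-- The space `(⊕ c, ℚ ^ (n c)) ^ ⊗ d ⊗ ℚ ^ m`, in coordinates. -/
abbrev Tensor {r : ℕ} (n : Fin r → ℕ) (d m : ℕ) := Word n d m → ℚ

/-- The map `(⊕ c, ℚ ^ (k c)) ^ ⊗ d ⊗ ℚ ^ m → (⊕ c, ℚ ^ (n c)) ^ ⊗ d ⊗ ℚ ^ m` which is defined by
the linear maps `A c` from `ℚ ^ (k c)` to `ℚ ^ (n c)`. -/
def transform {r : ℕ} {n k : Fin r → ℕ} {d m : ℕ} (A : ∀ c, Matrix (Fin (n c)) (Fin (k c)) ℚ)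
    (q : Tensor k d m) : Tensor n d m :=
  fun x => ∑ z : Fin d → Idx k, (∏ s, Matrix.blockDiagonal' A (x.1 s) (z s)) * q (z, x.2)

/-- `V` is a homogeneous polynomial representation of `∏ c, GL (k c)` of multidegree `δ`: it is
stable, and its elements are in the span of the tensors with exactly `δ c` factors in `ℚ ^ (k c)`. -/
structure IsRepresentation {r : ℕ} (k : Fin r → ℕ) {d m : ℕ} (V : Submodule ℚ (Tensor k d m))
    (δ : Fin r → ℕ) : Prop where
  stable : ∀ g : ∀ c, Matrix (Fin (k c)) (Fin (k c)) ℚ, (∀ c, (g c).det ≠ 0) →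
    ∀ q ∈ V, transform g q ∈ V
  degree : ∀ q ∈ V, ∀ x, q x ≠ 0 → ∀ c, (Finset.univ.filter fun s => (x.1 s).1 = c).card = δ c

/-- `f` is a relative invariant of `V`, homogeneous of positive degree `M` and not zero on `V`. -/
structure IsRelativeInvariant {r : ℕ} (k : Fin r → ℕ) {d m : ℕ} (V : Submodule ℚ (Tensor k d m))
    (f : MvPolynomial (Word k d m) ℚ) (M : ℕ) (e : Fin r → ℕ) : Prop where
  pos : 0 < M
  homogeneous : f.IsHomogeneous M
  nonzero : ∃ q ∈ V, eval q f ≠ 0
  invariant : ∀ g : ∀ c, Matrix (Fin (k c)) (Fin (k c)) ℚ, (∀ c, (g c).det ≠ 0) → ∀ q ∈ V,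
    eval (transform g q) f = (∏ c, (g c).det ^ e c) * eval q f

/-- Rational points of `∏ c, Gr (k c, n c) × ℙ (tensors)` for varying `k`. -/
abbrev Pair {r : ℕ} (n : Fin r → ℕ) (d m : ℕ) :=
  (∀ c, Submodule ℚ (Fin (n c) → ℚ)) × Projectivization ℚ (Tensor n d m)

/-- `(W, [T])` is a rational point of `X`: `dim (W c) = k c` and `T` is in `V(W)`, that is `T` is the
image of an element of `V` under the isomorphisms `A c` of `ℚ ^ (k c)` with `W c`. -/
structure IsPoint {r : ℕ} (n k : Fin r → ℕ) {d m : ℕ} (V : Submodule ℚ (Tensor k d m))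
    (x : Pair n d m) : Prop where
  finrank_eq : ∀ c, Module.finrank ℚ (x.1 c) = k c
  mem : ∃ A : ∀ c, Matrix (Fin (n c)) (Fin (k c)) ℚ,
    (∀ c, LinearMap.range (A c).mulVecLin = x.1 c) ∧ ∃ q ∈ V, transform A q = x.2.rep

/-- The height of a subspace `W`: the height of its Plücker coordinates. -/
noncomputable def grHeight {n : ℕ} (W : Submodule ℚ (Fin n → ℚ)) : ℝ :=
  Height.mulHeight fun S : Fin (Module.finrank ℚ W) → Fin n =>
    (Matrix.of fun i j => ((Module.finBasis ℚ W j : W) : Fin n → ℚ) (S i)).det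

/-- The height for the class `α ξ + ∑ c, β c h c`. -/
noncomputable def height {r : ℕ} {n : Fin r → ℕ} {d m : ℕ} (L : ℝ × (Fin r → ℝ))
    (x : Pair n d m) : ℝ :=
  x.2.mulHeight ^ L.1 * ∏ c, grHeight (x.1 c) ^ L.2 c

/-- The pseudo-effective cone of `X`, in the basis `ξ`, `h c` of `Pic X ⊗ ℝ`. -/
def Effective {r : ℕ} (k δ : Fin r → ℕ) (D : ℝ × (Fin r → ℝ)) : Prop :=
  0 ≤ D.1 ∧ ∀ c, 0 ≤ D.2 c + δ c / k c * D.1

/-- The big cone, which is the interior of the pseudo-effective cone. -/
def Big {r : ℕ} (k δ : Fin r → ℕ) (D : ℝ × (Fin r → ℝ)) : Prop :=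
  0 < D.1 ∧ ∀ c, 0 < D.2 c + δ c / k c * D.1

/-- The canonical class of `X`, for `N = dim V`. -/
noncomputable def canonical {r : ℕ} (n k δ : Fin r → ℕ) (N : ℕ) : ℝ × (Fin r → ℝ) :=
  (- (N : ℝ), fun c => - ((n c : ℝ) - N * δ c / k c))

theorem transform_eq {r : ℕ} {n k : Fin r → ℕ} {d m : ℕ}
    (A : ∀ c, Matrix (Fin (n c)) (Fin (k c)) ℚ) (q : Tensor k d m) :
    transform A q = Pool.Agent.H71.MB.tact A q := rfl

theorem result {r : ℕ} (n k : Fin r → ℕ) (hk : ∀ c, 1 ≤ k c) (hkn : ∀ c, k c < n c) (d m : ℕ)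
    (V : Submodule ℚ (Tensor k d m)) (hN : 2 ≤ Module.finrank ℚ V)
    (δ : Fin r → ℕ) (hV : IsRepresentation k V δ)
    (f : MvPolynomial (Word k d m) ℚ) (M : ℕ) (e : Fin r → ℕ)
    (hf : IsRelativeInvariant k V f M e) :
    ∃ (D : ℕ) (P : MvPolynomial (Word n d m) ℚ), P.IsHomogeneous D ∧
      (∃ x : Pair n d m, IsPoint n k V x ∧ eval x.2.rep P ≠ 0) ∧
      ∀ (L : ℝ × (Fin r → ℝ)) (a : ℝ), Big k δ L →
        Effective k δ (a • L + canonical n k δ (Module.finrank ℚ V)) →
        ∃ K : ℝ, ∀ B : ℝ, 2 ≤ B →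
          {x : Pair n d m | IsPoint n k V x ∧ eval x.2.rep P ≠ 0 ∧ height L x ≤ B}.Finite ∧
          ({x : Pair n d m | IsPoint n k V x ∧ eval x.2.rep P ≠ 0 ∧ height L x ≤ B}.ncard : ℝ) ≤
            K * B ^ a * (Real.log B) ^ (∑ c, k c + 1) := by
  obtain ⟨D, P, hP, hex, hmain⟩ := Pool.Agent.H71.MB.main n k hk (fun c => (hkn c).le) d m V
    (Pool.Agent.H71.MB.stable_all V hV.stable) δ hV.degree f M hf.pos hf.homogeneous hf.nonzero e
    (Pool.Agent.H71.MB.semi_all V f e hf.invariant)
  have hpt : ∀ x : Pair n d m, Pool.Agent.H71.MB.IsPt V x ↔ IsPoint n k V x := by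
    intro x
    constructor
    · intro h
      exact ⟨h.1, h.2⟩
    · intro h
      exact ⟨h.1, h.2⟩
  refine ⟨D, P, hP, ?_, ?_⟩
  · obtain ⟨x, hx, hxP⟩ := hex
    exact ⟨x, (hpt x).1 hx, hxP⟩
  · intro L a hL ha
    have hk0 : ∀ c, (0 : ℝ) < k c := fun c => by exact_mod_cast hk c
    obtain ⟨ha1, ha2⟩ := ha
    have e1 : (Module.finrank ℚ V : ℝ) ≤ a * L.1 := by
      simp only [canonical, Prod.fst_add, Prod.smul_fst, smul_eq_mul] at ha1
      linarith
    have e2 : ∀ c, (n c : ℝ) ≤ a * (L.2 c + δ c / k c * L.1) := by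
      intro c
      have h := ha2 c
      simp only [canonical, Prod.fst_add, Prod.smul_fst, smul_eq_mul, Prod.snd_add, Prod.smul_snd,
        Pi.add_apply, Pi.smul_apply] at h
      have h3 : (Module.finrank ℚ V : ℝ) * δ c / k c = δ c / k c * Module.finrank ℚ V := by
        ring
      rw [h3] at h
      linarith
    obtain ⟨K, hK⟩ := hmain L.1 L.2 a hL.1 hL.2 e1 e2
    refine ⟨K, fun B hB => ?_⟩
    have hset : {x : Pair n d m | IsPoint n k V x ∧ eval x.2.rep P ≠ 0 ∧ height L x ≤ B} =
        {x : Pair n d m | Pool.Agent.H71.MB.IsPt V x ∧ eval x.2.rep P ≠ 0 ∧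
          x.2.mulHeight ^ L.1 * ∏ c, Pool.Agent.H71.MB.grH (x.1 c) ^ L.2 c ≤ B} := by
      ext x
      simp only [Set.mem_setOf_eq, hpt x]
      rfl
    rw [hset]
    exact hK B hB

end Pool.Agent.H71.MB.RepresentationBundles
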